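import Pool.Agent.H42.DF.Defs

/-!
# A1 (TUBE): for almost every `x` the images of thin tubes around `[x, x+e]` have volume `O(r^(n-1))`
along a subsequence of radii

`tube e x ρ = ⋃_{t ∈ [0,1]} ball (x + t e) ρ` (an open set). `n = dim E`, `r_j = 2^{-j}`.

Proof. (1) For a point `p`, `{x | p ∈ tube e x ρ} = {x | ∃ t ∈ [0,1], ‖(p - t e) - x‖ < ρ}`; for `0 < ρ` choose
`m = ⌈‖e‖/ρ⌉₊`; each `t ∈ [0,1]` is within `1/m`(or `m = 0` iff `e = 0`: then one ball) of some `i/m`, so the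
set is covered by the `m + 1` balls of radius `2 ρ` with centres `p - (i/m) e`, `0 ≤ i ≤ m`; its measure is
`≤ (m + 1) (2 ρ)^n κ ≤ (‖e‖/ρ + 2) 2^n κ ρ^n ≤ (‖e‖ + 2) 2^n κ ρ^(n-1)` for `0 < ρ ≤ 1`.  For `ρ = C r_j`
(`C ≥ 0`; if `C = 0` the tube is empty) a bound `c(C, e, n) r_j^(n-1)` for all large `j` follows.
(2) Tonelli: `∫_{x ∈ ball 0 R} μ (F '' tube e x ρ) = ∫_w μ {x ∈ ball 0 R | F⁻¹ w ∈ tube e x ρ}`, the integrand is
`0` unless `F⁻¹ w ∈ ball 0 (R + ‖e‖ + ρ)`, so for `ρ ≤ 1` the integral is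
`≤ μ (F '' ball 0 (R + ‖e‖ + 1)) * c ρ^(n-1)`, and the first factor is finite (image of a bounded set: contained
in the compact image of a closed ball). (The set `{(x,w) | F⁻¹ w ∈ tube e x ρ}` is open, hence measurable:
`{(x,p) | p ∈ tube e x ρ}` is a union of open sets over `t`.)
(3) So `h_j(x) := μ (F '' tube e x (C r_j)) / r_j^(n-1)` has bounded integrals over `ball 0 R`; Fatou
(`lintegral_liminf_le`) gives `liminf h_j < ∞` a.e. on `ball 0 R`, `R` arbitrary; if `liminf h_j(x) < N` then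
`h_j(x) < N` frequently (`Filter.frequently_lt_of_liminf_lt`).
-/

set_option autoImplicit false

open MeasureTheory Metric Set Filter Topology
open scoped ENNReal NNReal

namespace H42DF

variable {E : Type*} [NormedAddCommGroup E] [NormedSpace ℝ E] [FiniteDimensional ℝ E]
  [MeasurableSpace E] [BorelSpace E]

/-- covering: the set of centres `x` whose tube contains `p` has small measure -/
theorem A1_cover (μ : Measure E) [μ.IsAddHaarMeasure] (hn : 1 ≤ Module.finrank ℝ E)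
    (e p : E) {C s : ℝ} (hC : 1 ≤ C) (hs : 0 < s) (hs1 : s ≤ 1) :
    μ {x | p ∈ tube e x (C * s)} ≤
      ENNReal.ofReal (2 ^ Module.finrank ℝ E * C ^ (Module.finrank ℝ E - 1) * (‖e‖ + 2 * C)) *
        μ (ball (0 : E) 1) * ENNReal.ofReal s ^ (Module.finrank ℝ E - 1) := by
  have : Nontrivial E := Module.nontrivial_of_finrank_pos (R := ℝ) (by omega)
  set n := Module.finrank ℝ E with hnd
  set ρ : ℝ := C * s with hρ
  have hC0 : 0 < C := by linarith
  have hρ0 : 0 < ρ := by positivity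
  set m : ℕ := ⌈‖e‖ / ρ⌉₊ with hm
  have hcov : {x | p ∈ tube e x ρ} ⊆
      ⋃ i ∈ Finset.range (m + 1), ball (p - ((i : ℝ) / m) • e) (2 * ρ) := by
    rintro x ⟨t, ht, hx⟩
    simp only [mem_iUnion, Finset.mem_range, exists_prop]
    have hi : ⌊t * m⌋₊ < m + 1 := by
      have h1 : t * m ≤ m := by
        have := ht.2
        have hm0 : (0 : ℝ) ≤ m := Nat.cast_nonneg m
        nlinarith
      have h2 := Nat.floor_le_floor h1
      rw [Nat.floor_natCast] at h2
      omega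
    refine ⟨⌊t * m⌋₊, hi, ?_⟩
    have hdiff : |t - (⌊t * m⌋₊ : ℝ) / m| * ‖e‖ ≤ ρ := by
      rcases Nat.eq_zero_or_pos m with hm0 | hmpos
      · have h1 : ‖e‖ / ρ ≤ 0 := by
          have := Nat.le_ceil (‖e‖ / ρ)
          rw [← hm, hm0] at this
          simpa using this
        have h2 : ‖e‖ ≤ 0 := by
          rw [div_le_iff₀ hρ0] at h1
          simpa using h1
        have h3 : ‖e‖ = 0 := le_antisymm h2 (norm_nonneg _)
        rw [h3, mul_zero]
        exact hρ0.le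
      · have hmr : (0 : ℝ) < m := by exact_mod_cast hmpos
        have h1 : |t - (⌊t * m⌋₊ : ℝ) / m| ≤ 1 / m := by
          have h2 : t - (⌊t * m⌋₊ : ℝ) / m = (t * m - ⌊t * m⌋₊) / m := by
            field_simp
          rw [h2, abs_div, abs_of_pos hmr]
          apply div_le_div_of_nonneg_right _ hmr.le
          have h3 : 0 ≤ t * m := mul_nonneg ht.1 hmr.le
          have h4 := Nat.floor_le h3
          have h5 := Nat.lt_floor_add_one (t * m)
          rw [abs_le]
          constructor <;> linarith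
        have h2 : ‖e‖ / ρ ≤ m := Nat.le_ceil _
        rw [div_le_iff₀ hρ0] at h2
        calc |t - (⌊t * m⌋₊ : ℝ) / m| * ‖e‖ ≤ 1 / m * ‖e‖ := by gcongr
          _ ≤ 1 / m * (m * ρ) := by gcongr
          _ = ρ := by field_simp
    rw [mem_ball, dist_eq_norm]
    have h6 : x - (p - ((⌊t * m⌋₊ : ℝ) / m) • e) =
        -(p - (x + t • e)) - (t - (⌊t * m⌋₊ : ℝ) / m) • e := by
      rw [sub_smul]
      abel
    rw [h6]
    refine (norm_sub_le _ _).trans_lt ?_
    rw [norm_neg, norm_smul, Real.norm_eq_abs]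
    linarith
  have hmle : ((m + 1 : ℕ) : ℝ) ≤ ‖e‖ / ρ + 2 := by
    have := Nat.ceil_lt_add_one (show 0 ≤ ‖e‖ / ρ by positivity)
    rw [← hm] at this
    push_cast
    linarith
  calc μ {x | p ∈ tube e x ρ}
      ≤ μ (⋃ i ∈ Finset.range (m + 1), ball (p - ((i : ℝ) / m) • e) (2 * ρ)) :=
        measure_mono hcov
    _ ≤ ∑ i ∈ Finset.range (m + 1), μ (ball (p - ((i : ℝ) / m) • e) (2 * ρ)) :=
        measure_biUnion_finset_le _ _
    _ = ∑ _i ∈ Finset.range (m + 1), ENNReal.ofReal ((2 * ρ) ^ n) * μ (ball (0 : E) 1) := by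
        apply Finset.sum_congr rfl
        intro i _
        rw [Measure.addHaar_ball μ _ (by positivity : 0 ≤ 2 * ρ)]
    _ = ((m + 1 : ℕ) : ℝ≥0∞) * (ENNReal.ofReal ((2 * ρ) ^ n) * μ (ball (0 : E) 1)) := by
        rw [Finset.sum_const, Finset.card_range, nsmul_eq_mul]
    _ = ENNReal.ofReal ((m + 1 : ℕ) : ℝ) * (ENNReal.ofReal ((2 * ρ) ^ n) * μ (ball (0 : E) 1)) := by
        rw [ENNReal.ofReal_natCast]
    _ = ENNReal.ofReal (((m + 1 : ℕ) : ℝ) * (2 * ρ) ^ n) * μ (ball (0 : E) 1) := by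
        rw [← mul_assoc, ← ENNReal.ofReal_mul (by positivity)]
    _ ≤ ENNReal.ofReal (2 ^ n * C ^ (n - 1) * (‖e‖ + 2 * C) * s ^ (n - 1)) *
          μ (ball (0 : E) 1) := by
        refine mul_le_mul_left (ENNReal.ofReal_le_ofReal ?_) _
        have hρn : ρ ^ n = ρ * ρ ^ (n - 1) := by
          rw [← pow_succ']
          congr 1
          omega
        calc ((m + 1 : ℕ) : ℝ) * (2 * ρ) ^ n ≤ (‖e‖ / ρ + 2) * (2 * ρ) ^ n := by gcongr
          _ = 2 ^ n * ρ ^ (n - 1) * (‖e‖ + 2 * ρ) := by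
              rw [mul_pow, hρn]
              field_simp
          _ = 2 ^ n * C ^ (n - 1) * (‖e‖ + 2 * ρ) * s ^ (n - 1) := by
              rw [hρ, mul_pow]
              ring
          _ ≤ 2 ^ n * C ^ (n - 1) * (‖e‖ + 2 * C) * s ^ (n - 1) := by
              have : ρ ≤ C := by
                rw [hρ]
                nlinarith
              gcongr
    _ = _ := by
        rw [ENNReal.ofReal_mul (by positivity), ENNReal.ofReal_pow hs.le]
        ring

omit [MeasurableSpace E] [BorelSpace E] [FiniteDimensional ℝ E] in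
theorem A1_open (F : E ≃ₜ E) (e : E) (ρ : ℝ) :
    IsOpen {q : E × E | F.symm q.2 ∈ tube e q.1 ρ} := by
  have h1 : {q : E × E | F.symm q.2 ∈ tube e q.1 ρ} =
      ⋃ t ∈ Icc (0 : ℝ) 1, {q : E × E | ‖F.symm q.2 - (q.1 + t • e)‖ < ρ} := by
    ext q
    simp only [tube, mem_ofPred_eq, mem_iUnion, exists_prop]
  rw [h1]
  refine isOpen_biUnion fun t _ => ?_
  have hc : Continuous fun q : E × E => ‖F.symm q.2 - (q.1 + t • e)‖ := by
    have := F.symm.continuous
    fun_prop
  exact isOpen_lt hc continuous_const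

omit [MeasurableSpace E] [BorelSpace E] [FiniteDimensional ℝ E] in
theorem A1_image (F : E ≃ₜ E) (e x : E) (ρ : ℝ) :
    F '' tube e x ρ = {w | F.symm w ∈ tube e x ρ} := by
  ext w
  constructor
  · rintro ⟨y, hy, rfl⟩
    rw [mem_ofPred_eq, F.symm_apply_apply]
    exact hy
  · intro hw
    exact ⟨F.symm w, hw, F.apply_symm_apply w⟩

theorem A1_meas (μ : Measure E) [μ.IsAddHaarMeasure] (F : E ≃ₜ E) (e : E) (ρ : ℝ) :
    Measurable fun x => μ (F '' tube e x ρ) := by
  simp only [A1_image]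
  exact measurable_measure_prodMk_left (ν := μ) (A1_open F e ρ).measurableSet

/-- Tonelli -/
theorem A1_int (μ : Measure E) [μ.IsAddHaarMeasure] (hn : 1 ≤ Module.finrank ℝ E)
    (F : E ≃ₜ E) (e : E) {C s : ℝ} (hC : 1 ≤ C) (hs : 0 < s) (hs1 : s ≤ 1) (R : ℝ) :
    ∫⁻ x in ball 0 R, μ (F '' tube e x (C * s)) ∂μ ≤
      ENNReal.ofReal (2 ^ Module.finrank ℝ E * C ^ (Module.finrank ℝ E - 1) * (‖e‖ + 2 * C)) *
        μ (ball (0 : E) 1) * ENNReal.ofReal s ^ (Module.finrank ℝ E - 1) *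
        μ (F '' ball 0 (R + ‖e‖ + C)) := by
  set B := ENNReal.ofReal (2 ^ Module.finrank ℝ E * C ^ (Module.finrank ℝ E - 1) *
    (‖e‖ + 2 * C)) * μ (ball (0 : E) 1) * ENNReal.ofReal s ^ (Module.finrank ℝ E - 1) with hB
  have hS := (A1_open F e (C * s)).measurableSet
  have h1 : ∫⁻ x in ball 0 R, μ (F '' tube e x (C * s)) ∂μ =
      ∫⁻ w, (μ.restrict (ball 0 R)) {x | F.symm w ∈ tube e x (C * s)} ∂μ := by
    simp only [A1_image]
    have h2 := Measure.prod_apply (μ := μ.restrict (ball 0 R)) (ν := μ) hS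
    have h3 := Measure.prod_apply_symm (μ := μ.restrict (ball 0 R)) (ν := μ) hS
    rw [h2] at h3
    exact h3
  rw [h1]
  have hopen : IsOpen (F '' ball 0 (R + ‖e‖ + C)) := F.isOpenMap _ isOpen_ball
  calc ∫⁻ w, (μ.restrict (ball 0 R)) {x | F.symm w ∈ tube e x (C * s)} ∂μ
      ≤ ∫⁻ w, (F '' ball 0 (R + ‖e‖ + C)).indicator (fun _ => B) w ∂μ := by
        apply lintegral_mono
        intro w
        by_cases hw : w ∈ F '' ball 0 (R + ‖e‖ + C)
        · rw [indicator_of_mem hw]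
          refine (Measure.restrict_apply_le _ _).trans ?_
          exact A1_cover μ hn e (F.symm w) hC hs hs1
        · rw [indicator_of_notMem hw]
          have hms : MeasurableSet {x | F.symm w ∈ tube e x (C * s)} :=
            measurable_prodMk_right hS
          show (μ.restrict (ball 0 R)) {x | F.symm w ∈ tube e x (C * s)} ≤ 0
          rw [Measure.restrict_apply hms]
          have hemp : {x | F.symm w ∈ tube e x (C * s)} ∩ ball 0 R = ∅ := by
            rw [Set.eq_empty_iff_forall_notMem]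
            rintro x ⟨⟨t, ht, hx⟩, hxR⟩
            apply hw
            refine ⟨F.symm w, ?_, F.apply_symm_apply w⟩
            rw [mem_ball, dist_zero_right] at hxR ⊢
            have h4 : F.symm w = (F.symm w - (x + t • e)) + x + t • e := by abel
            have h5 : ‖t • e‖ ≤ ‖e‖ := by
              rw [norm_smul, Real.norm_of_nonneg ht.1]
              have := norm_nonneg e
              have := ht.2
              nlinarith
            have h6 := norm_add₃_le (a := F.symm w - (x + t • e)) (b := x) (c := t • e)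
            rw [← h4] at h6
            have h7 : C * s ≤ C := by nlinarith
            linarith
          rw [hemp, measure_empty]
    _ = B * μ (F '' ball 0 (R + ‖e‖ + C)) := lintegral_indicator_const hopen.measurableSet B

theorem A1_fin (μ : Measure E) [μ.IsAddHaarMeasure] (F : E ≃ₜ E) (R : ℝ) :
    μ (F '' ball 0 R) < ∞ :=
  lt_of_le_of_lt (measure_mono (image_mono ball_subset_closedBall))
    ((isCompact_closedBall (0 : E) R).image F.continuous).measure_lt_top

theorem tube_ae (μ : Measure E) [μ.IsAddHaarMeasure] (hn : 1 ≤ Module.finrank ℝ E)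
    (F : E ≃ₜ E) (e : E) {C : ℝ} (hC : 1 ≤ C) :
    ∀ᵐ x ∂μ, ∃ N : ℝ≥0, ∃ᶠ j : ℕ in atTop,
      μ (F '' tube e x (C * (1 / 2) ^ j)) ≤
        N * ENNReal.ofReal ((1 / 2) ^ j) ^ (Module.finrank ℝ E - 1) := by
  set n := Module.finrank ℝ E with hnd
  have hspos : ∀ j : ℕ, (0 : ℝ) < (1 / 2) ^ j := fun j => by positivity
  have hsle : ∀ j : ℕ, ((1 : ℝ) / 2) ^ j ≤ 1 := fun j => pow_le_one₀ (by norm_num) (by norm_num)
  have hb0 : ∀ j : ℕ, ENNReal.ofReal ((1 / 2) ^ j) ^ (n - 1) ≠ 0 := fun j =>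
    pow_ne_zero _ (ENNReal.ofReal_pos.2 (hspos j)).ne'
  have hbt : ∀ j : ℕ, ENNReal.ofReal ((1 / 2) ^ j) ^ (n - 1) ≠ ∞ := fun j =>
    ENNReal.pow_ne_top ENNReal.ofReal_ne_top
  set h : ℕ → E → ℝ≥0∞ := fun j x => μ (F '' tube e x (C * (1 / 2) ^ j)) *
    (ENNReal.ofReal ((1 / 2) ^ j) ^ (n - 1))⁻¹ with hh
  have hmeas : ∀ j, Measurable (h j) := fun j => (A1_meas μ F e _).mul_const _
  have hball : ∀ k : ℕ, ∀ᵐ x ∂(μ.restrict (ball 0 (k : ℝ))), liminf (fun j => h j x) atTop < ∞ := by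
    intro k
    set D := ENNReal.ofReal (2 ^ n * C ^ (n - 1) * (‖e‖ + 2 * C)) * μ (ball (0 : E) 1) *
      μ (F '' ball 0 ((k : ℝ) + ‖e‖ + C)) with hD
    have hDt : D < ∞ :=
      ENNReal.mul_lt_top (ENNReal.mul_lt_top ENNReal.ofReal_lt_top measure_ball_lt_top)
        (A1_fin μ F _)
    have hint : ∀ j, ∫⁻ x in ball 0 (k : ℝ), h j x ∂μ ≤ D := by
      intro j
      simp only [hh]
      rw [lintegral_mul_const _ (A1_meas μ F e _)]
      have h1 := A1_int μ hn F e hC (hspos j) (hsle j) (k : ℝ)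
      rw [← hnd] at h1
      calc (∫⁻ x in ball 0 (k : ℝ), μ (F '' tube e x (C * (1 / 2) ^ j)) ∂μ) *
            (ENNReal.ofReal ((1 / 2) ^ j) ^ (n - 1))⁻¹
          ≤ (ENNReal.ofReal (2 ^ n * C ^ (n - 1) * (‖e‖ + 2 * C)) *
              μ (ball (0 : E) 1) * ENNReal.ofReal ((1 / 2) ^ j) ^ (n - 1) *
              μ (F '' ball 0 ((k : ℝ) + ‖e‖ + C))) *
              (ENNReal.ofReal ((1 / 2) ^ j) ^ (n - 1))⁻¹ := by gcongr
        _ = D * (ENNReal.ofReal ((1 / 2) ^ j) ^ (n - 1) *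
              (ENNReal.ofReal ((1 / 2) ^ j) ^ (n - 1))⁻¹) := by
            rw [hD]
            ring
        _ = D := by rw [ENNReal.mul_inv_cancel (hb0 j) (hbt j), mul_one]
    have hfatou : ∫⁻ x in ball 0 (k : ℝ), liminf (fun j => h j x) atTop ∂μ ≤ D := by
      refine (lintegral_liminf_le hmeas).trans ?_
      refine (liminf_le_of_le (f := atTop) (by isBoundedDefault) ?_)
      intro b hb
      obtain ⟨j, hj⟩ := hb.exists
      exact hj.trans (hint j)
    exact ae_lt_top (Measurable.liminf hmeas) (lt_of_le_of_lt hfatou hDt).ne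
  have hall : ∀ᵐ x ∂μ, ∀ k : ℕ, x ∈ ball (0 : E) (k : ℝ) →
      liminf (fun j => h j x) atTop < ∞ := by
    rw [ae_all_iff]
    intro k
    exact (ae_restrict_iff' measurableSet_ball).1 (hball k)
  filter_upwards [hall] with x hx
  obtain ⟨k, hk⟩ := exists_nat_gt ‖x‖
  have hlim := hx k (by rw [mem_ball, dist_zero_right]; exact hk)
  obtain ⟨N, hN⟩ := ENNReal.lt_iff_exists_nnreal_btwn.1 hlim
  refine ⟨N, ?_⟩
  refine (frequently_lt_of_liminf_lt (by isBoundedDefault) hN.1).mono ?_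
  intro j hj
  have h1 : μ (F '' tube e x (C * (1 / 2) ^ j)) *
    (ENNReal.ofReal ((1 / 2) ^ j) ^ (n - 1))⁻¹ ≤ N := hj.le
  rwa [← div_eq_mul_inv, ENNReal.div_le_iff (hb0 j) (hbt j)] at h1

end H42DF
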