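import Pool.Agent.H42.DF.Defs

/-!
# A2 (COVER): the covering estimate on one line

`n = dim E ≥ 1`, `κ = μ (ball 0 1)`, `γ t = x + t e`, `u t = ψ (F (γ t))` with `ψ` `L`-Lipschitz. `T ⊆ [0,1]` is
compact, `S ⊆ T`, and there is `r₀ > 0` such that for all `t ∈ S` and `0 < r < r₀`:
`‖F v - F (γ t)‖^n κ ≤ C^n μ (F '' ball (γ t) (C r))` for `v ∈ ball (γ t) r`.  For infinitely many `j`:
`μ (F '' tube e x (C' 2^{-j})) ≤ N (2^{-j})^(n-1)`, where `C' = 2 C (‖e‖ + 1)` (so that the tube contains the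
balls used below). Then
  `volume (u '' S) ^ n ≤ c * N * volume T ^ (n-1)`,   `c` depending only on `n, κ, C, L, e`.

Proof. Let `ε > 0`. By compactness `volume (cthickening δ T) ≤ volume T + ε` for all small `δ > 0`
(`tendsto_measure_cthickening_of_isCompact`). Choose `j` with the bound and `h = 2^{-j}` so small that
`2 (‖e‖ + 1) h < r₀` and `volume (cthickening h T) ≤ volume T + ε`. For every integer `m` with `0 ≤ m ≤ 2^j` such
that `J_m := [m h, (m+1) h)` meets `S` choose `t_m ∈ J_m ∩ S`; let `I` be the set of these `m`, `p` its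
cardinality. The `J_m`, `m ∈ I`, are disjoint and contained in `cthickening h T`, so `p h ≤ volume T + ε`.
With `r := (‖e‖ + 1) h · (3/2)` or simply `2 (‖e‖+1) h` we have, for `t ∈ J_m`,
`‖γ t - γ t_m‖ ≤ h ‖e‖ < r`, so `|u t - u t_m| ≤ L ‖F (γ t) - F (γ t_m)‖ ≤ L δ_m`, where
`δ_m := (C^n μ (F '' ball (γ t_m) (C r)) / κ)^(1/n)`. So `u '' (S ∩ J_m)` has measure `≤ 2 L δ_m`,
`volume (u '' S) ≤ Σ 2 L δ_m` and by Hölder (`ENNReal`/`NNReal` `inner_le_nnorm_mul_nnorm`, or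
`Finset.inner_le_Lp_mul_Lq`, or `(Σ a_m)^n ≤ p^(n-1) Σ a_m^n`: `inner_mul_le_norm_mul_norm`,
`ENNReal.inner_le...`, Mathlib `ENNReal.rpow_sum_le_const_mul_sum_rpow`, `inner...`)
`volume (u '' S)^n ≤ (2L)^n p^(n-1) Σ δ_m^n = (2 L C)^n κ^{-1} p^(n-1) Σ_m μ (F '' ball (γ t_m) (C r))`.
Overlap: a point `p' ∈ E` lies in `ball (γ t_m) (C r)` only if `‖γ t_m - p'‖ < C r`; if `e ≠ 0` two such indices
satisfy `|t_m - t_m'| ‖e‖ < 2 C r`, so all such `m` lie in an integer interval of length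
`≤ 2 C r/(‖e‖ h) + 1 = 4 C (‖e‖+1)/‖e‖ + 1`: at most `c₁ := 4 C (‖e‖+1)/‖e‖ + 2` indices. Hence
`Σ_m μ (F '' ball (γ t_m) (C r)) = ∫ Σ_m 1_{F '' ball ..} ≤ c₁ μ (F '' ⋃ ball ..) ≤ c₁ μ (F '' tube e x (C r))
≤ c₁ N h^(n-1)`  (`C r = C' h`).
Total: `volume (u '' S)^n ≤ (2 L C)^n κ^{-1} c₁ N (p h)^(n-1) ≤ c N (volume T + ε)^(n-1)`. Let `ε → 0`.
(`κ` is positive and finite.)
-/

set_option autoImplicit false

open MeasureTheory Metric Set Filter Topology
open scoped ENNReal NNReal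

namespace H42DF

variable {E : Type*} [NormedAddCommGroup E] [NormedSpace ℝ E] [FiniteDimensional ℝ E]
  [MeasurableSpace E] [BorelSpace E]

theorem A2_pow {ι : Type*} (s : Finset ι) (f : ι → ℝ≥0∞) {n : ℕ} (hn : 1 ≤ n) :
    (∑ i ∈ s, f i) ^ n ≤ (s.card : ℝ≥0∞) ^ (n - 1) * ∑ i ∈ s, f i ^ n := by
  have h := ENNReal.rpow_sum_le_const_mul_sum_rpow (s := s) (f := f) (p := (n : ℝ)) (by exact_mod_cast hn)
  have h2 : ((n : ℝ) - 1) = ((n - 1 : ℕ) : ℝ) := by
    rw [Nat.cast_sub hn, Nat.cast_one]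
  rw [h2] at h
  simpa [ENNReal.rpow_natCast] using h

/-- bounded overlap -/
theorem A2_overlap (μ : Measure E) [μ.IsAddHaarMeasure]
    (F : E ≃ₜ E) (e : E) (he : e ≠ 0) {C : ℝ} (hC : 1 ≤ C) (q : ℕ) (hq0 : 0 < q)
    (hq : 4 * C * (‖e‖ + 1) ≤ ‖e‖ * ((q : ℝ) - 1)) (x : E) (h : ℝ) (hh : 0 < h)
    (I : Finset ℕ) (t : ℕ → ℝ) (ht : ∀ m ∈ I, t m ∈ Ico ((m : ℝ) * h) (((m : ℝ) + 1) * h))
    (ht1 : ∀ m ∈ I, t m ∈ Icc (0:ℝ) 1) :
    ∑ m ∈ I, μ (F '' ball (x + t m • e) (C * (2 * (‖e‖ + 1) * h))) ≤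
      (q : ℝ≥0∞) * μ (F '' tube e x (2 * C * (‖e‖ + 1) * h)) := by
  classical
  have hsep : ∀ m ∈ I, ∀ m' ∈ I, m % q = m' % q → m < m' → ((q : ℝ) - 1) * h ≤ |t m' - t m| := by
    intro m hm m' hm' hmod hlt
    have h3 : m + q ≤ m' := by
      have h5 : q ∣ m' - m := (Nat.modEq_iff_dvd' hlt.le).mp hmod
      have h6 : 0 < m' - m := by omega
      have h7 := Nat.le_of_dvd h6 h5
      omega
    have h4 : (m : ℝ) + q ≤ m' := by exact_mod_cast h3
    have h5 := (ht m hm).2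
    have h6 := (ht m' hm').1
    refine le_trans ?_ (le_abs_self _)
    nlinarith
  have hsplit : ∑ m ∈ I, μ (F '' ball (x + t m • e) (C * (2 * (‖e‖ + 1) * h))) =
      ∑ k ∈ Finset.range q, ∑ m ∈ I with m % q = k,
        μ (F '' ball (x + t m • e) (C * (2 * (‖e‖ + 1) * h))) := by
    rw [Finset.sum_fiberwise_of_maps_to]
    intro m _
    exact Finset.mem_range.mpr (Nat.mod_lt _ hq0)
  rw [hsplit]
  have hcl : ∀ k ∈ Finset.range q, ∑ m ∈ I with m % q = k,
        μ (F '' ball (x + t m • e) (C * (2 * (‖e‖ + 1) * h))) ≤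
        μ (F '' tube e x (2 * C * (‖e‖ + 1) * h)) := by
    intro k _
    rw [← measure_biUnion_finset]
    · apply measure_mono
      intro y hy
      simp only [mem_iUnion] at hy
      obtain ⟨m, hm, z, hz, rfl⟩ := hy
      rw [Finset.mem_filter] at hm
      refine ⟨z, ⟨t m, ht1 m hm.1, ?_⟩, rfl⟩
      rw [mem_ball, dist_eq_norm] at hz
      calc _ < _ := hz
        _ = _ := by ring
    · intro m hm m' hm' hne
      simp only [Finset.coe_filter, mem_ofPred_eq] at hm hm'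
      change Disjoint _ _
      rw [Set.disjoint_image_iff F.injective]
      apply ball_disjoint_ball
      -- distance
      have h1 : dist (x + t m • e) (x + t m' • e) = |t m - t m'| * ‖e‖ := by
        rw [dist_eq_norm]
        have : x + t m • e - (x + t m' • e) = (t m - t m') • e := by
          rw [sub_smul]; abel
        rw [this, norm_smul, Real.norm_eq_abs]
      rw [h1]
      have h2 : ((q : ℝ) - 1) * h ≤ |t m - t m'| := by
        rcases lt_or_gt_of_ne hne with hlt | hlt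
        · rw [abs_sub_comm]
          exact hsep m hm.1 m' hm'.1 (by rw [hm.2, hm'.2]) hlt
        · exact hsep m' hm'.1 m hm.1 (by rw [hm.2, hm'.2]) hlt
      have he' : 0 < ‖e‖ := norm_pos_iff.mpr he
      nlinarith [mul_le_mul_of_nonneg_right h2 he'.le, mul_le_mul_of_nonneg_right hq hh.le]
    · intro m _
      exact (F.isOpenMap _ isOpen_ball).measurableSet
  refine (Finset.sum_le_sum hcl).trans ?_
  rw [Finset.sum_const, Finset.card_range, nsmul_eq_mul]

theorem A2_core (μ : Measure E) [μ.IsAddHaarMeasure] (hn : 1 ≤ Module.finrank ℝ E)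
    (F : E ≃ₜ E) (e : E) (he : e ≠ 0) {C : ℝ} (hC : 1 ≤ C) (L : ℝ≥0) (q : ℕ) (hq0 : 0 < q)
    (hq : 4 * C * (‖e‖ + 1) ≤ ‖e‖ * ((q : ℝ) - 1)) (x : E) (h : ℝ) (hh : 0 < h)
    (ψ : E → ℝ) (hψ : LipschitzWith L ψ) (T S : Set ℝ) (hT1 : T ⊆ Icc 0 1)
    (hST : S ⊆ T) (hyp : ∀ t ∈ S, ∀ v ∈ ball (x + t • e) (2 * (‖e‖ + 1) * h),
        ‖F v - F (x + t • e)‖ₑ ^ Module.finrank ℝ E * μ (ball (0 : E) 1) ≤
          ENNReal.ofReal C ^ Module.finrank ℝ E *
            μ (F '' ball (x + t • e) (C * (2 * (‖e‖ + 1) * h)))) :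
    ∃ p : ℕ, (p : ℝ≥0∞) * ENNReal.ofReal h ≤ volume (cthickening h T) ∧
      volume ((fun t : ℝ => ψ (F (x + t • e))) '' S) ^ Module.finrank ℝ E ≤
        (p : ℝ≥0∞) ^ (Module.finrank ℝ E - 1) * ((2 * L * ENNReal.ofReal C) ^ Module.finrank ℝ E *
          (μ (ball (0 : E) 1))⁻¹ * (q * μ (F '' tube e x (2 * C * (‖e‖ + 1) * h)))) := by
  classical
  set n := Module.finrank ℝ E with hndef
  have hn0 : n ≠ 0 := by omega
  set κ := μ (ball (0 : E) 1) with hκ
  have hκ0 : κ ≠ 0 := (measure_ball_pos μ _ one_pos).ne'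
  have hκt : κ ≠ ⊤ := measure_ball_lt_top.ne
  let J : ℕ → Set ℝ := fun m => Ico ((m : ℝ) * h) (((m : ℝ) + 1) * h)
  let I : Finset ℕ := (Finset.range (⌊1 / h⌋₊ + 1)).filter (fun m => (S ∩ J m).Nonempty)
  have hex : ∀ m : ℕ, ∃ t : ℝ, m ∈ I → t ∈ S ∩ J m := by
    intro m
    by_cases hm : m ∈ I
    · obtain ⟨t, ht⟩ := (Finset.mem_filter.mp hm).2
      exact ⟨t, fun _ => ht⟩
    · exact ⟨0, fun h => absurd h hm⟩
  choose t ht using hex
  refine ⟨I.card, ?_, ?_⟩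
  · -- the intervals are disjoint and contained in the thickening
    have h1 : ∀ m ∈ I, volume (J m) = ENNReal.ofReal h := by
      intro m _
      rw [Real.volume_Ico]; congr 1; ring
    have h2 : (I.card : ℝ≥0∞) * ENNReal.ofReal h = ∑ m ∈ I, volume (J m) := by
      rw [Finset.sum_congr rfl h1, Finset.sum_const, nsmul_eq_mul]
    rw [h2, ← measure_biUnion_finset]
    · apply measure_mono
      intro s hs
      simp only [mem_iUnion] at hs
      obtain ⟨m, hm, hs⟩ := hs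
      apply mem_cthickening_of_dist_le s (t m) h T (hST (ht m hm).1)
      have h3 := (ht m hm).2
      simp only [J, mem_Ico] at hs h3
      rw [Real.dist_eq, abs_le]
      constructor <;> linarith
    · intro m _ m' _ hne
      change Disjoint _ _
      rw [Set.disjoint_left]
      intro s hs hs'
      apply hne
      simp only [J, mem_Ico] at hs hs'
      have h3 : (m : ℝ) < m' + 1 := by
        by_contra hcon
        push Not at hcon
        nlinarith
      have h4 : (m' : ℝ) < m + 1 := by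
        by_contra hcon
        push Not at hcon
        nlinarith
      have h5 : m < m' + 1 := by exact_mod_cast h3
      have h6 : m' < m + 1 := by exact_mod_cast h4
      omega
    · intro m _
      exact measurableSet_Ico
  · set r : ℝ := 2 * (‖e‖ + 1) * h with hr
    let a : ℕ → ℝ≥0∞ := fun m => μ (F '' ball (x + t m • e) (C * r))
    let δ : ℕ → ℝ≥0∞ := fun m => ((ENNReal.ofReal C ^ n * a m) / κ) ^ ((n : ℝ)⁻¹)
    have hδ : ∀ m, δ m ^ n = (ENNReal.ofReal C ^ n * a m) / κ := by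
      intro m
      simp only [δ]
      rw [← ENNReal.rpow_natCast, ← ENNReal.rpow_mul, inv_mul_cancel₀ (by exact_mod_cast hn0),
        ENNReal.rpow_one]
    -- image of S ∩ J m
    have himg : ∀ m ∈ I, ∀ s ∈ S ∩ J m, ψ (F (x + s • e)) ∈
        Metric.closedEBall (ψ (F (x + t m • e))) (L * δ m) := by
      intro m hm s hs
      have h3 := (ht m hm).2
      have hs2 := hs.2
      simp only [J, mem_Ico] at hs2 h3
      have h4 : x + s • e ∈ ball (x + t m • e) r := by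
        rw [mem_ball, dist_eq_norm]
        have : x + s • e - (x + t m • e) = (s - t m) • e := by
          rw [sub_smul]; abel
        rw [this, norm_smul, Real.norm_eq_abs]
        have h5 : |s - t m| ≤ h := by
          rw [abs_le]
          constructor <;> linarith
        have h6 : 0 ≤ ‖e‖ := norm_nonneg e
        nlinarith
      have h5 := hyp (t m) (ht m hm).1 _ h4
      have h6 : ‖F (x + s • e) - F (x + t m • e)‖ₑ ≤ δ m := by
        have h7 : ‖F (x + s • e) - F (x + t m • e)‖ₑ ^ n ≤ δ m ^ n := by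
          rw [hδ, ENNReal.le_div_iff_mul_le (Or.inl hκ0) (Or.inl hκt)]
          exact h5
        have h8 := ENNReal.rpow_le_rpow h7 (z := ((n : ℝ)⁻¹)) (by positivity)
        rwa [← ENNReal.rpow_natCast, ← ENNReal.rpow_natCast, ← ENNReal.rpow_mul, ← ENNReal.rpow_mul,
          mul_inv_cancel₀ (by exact_mod_cast hn0), ENNReal.rpow_one, ENNReal.rpow_one] at h8
      rw [Metric.mem_closedEBall]
      refine (hψ _ _).trans ?_
      rw [edist_eq_enorm_sub]
      gcongr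
    have hcov : (fun s : ℝ => ψ (F (x + s • e))) '' S ⊆
        ⋃ m ∈ I, Metric.closedEBall (ψ (F (x + t m • e))) (L * δ m) := by
      rintro y ⟨s, hs, rfl⟩
      have hs01 := hT1 (hST hs)
      have h0 : 0 ≤ s / h := div_nonneg hs01.1 hh.le
      have h1 : s ∈ J ⌊s / h⌋₊ := by
        constructor
        · have := Nat.floor_le h0
          rwa [le_div_iff₀ hh] at this
        · have := Nat.lt_floor_add_one (s / h)
          rwa [div_lt_iff₀ hh] at this
      have h2 : ⌊s / h⌋₊ ∈ I := by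
        rw [Finset.mem_filter]
        refine ⟨?_, ⟨s, hs, h1⟩⟩
        rw [Finset.mem_range, Nat.lt_succ_iff]
        apply Nat.floor_le_floor
        gcongr
        exact hs01.2
      simp only [mem_iUnion]
      exact ⟨_, h2, himg _ h2 s ⟨hs, h1⟩⟩
    have hvol : volume ((fun s : ℝ => ψ (F (x + s • e))) '' S) ≤ ∑ m ∈ I, 2 * (L * δ m) := by
      refine (measure_mono hcov).trans ?_
      refine (measure_biUnion_finset_le _ _).trans ?_
      apply Finset.sum_le_sum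
      intro m _
      rw [Real.volume_closedEBall]
    calc volume ((fun s : ℝ => ψ (F (x + s • e))) '' S) ^ n
        ≤ (∑ m ∈ I, 2 * (L * δ m)) ^ n := by gcongr
      _ ≤ (I.card : ℝ≥0∞) ^ (n - 1) * ∑ m ∈ I, (2 * (L * δ m)) ^ n := A2_pow I _ hn
      _ = (I.card : ℝ≥0∞) ^ (n - 1) * ((2 * L * ENNReal.ofReal C) ^ n * κ⁻¹ * ∑ m ∈ I, a m) := by
          congr 1
          rw [Finset.mul_sum]
          apply Finset.sum_congr rfl
          intro m _
          rw [← mul_assoc, mul_pow, hδ, mul_pow (2 * (L : ℝ≥0∞)) (ENNReal.ofReal C), div_eq_mul_inv]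
          ring
      _ ≤ _ := by
          gcongr
          exact A2_overlap μ F e he hC q hq0 hq x h hh I t (fun m hm => (ht m hm).2)
            (fun m hm => hT1 (hST (ht m hm).1))

theorem cover_estimate (μ : Measure E) [μ.IsAddHaarMeasure] (hn : 1 ≤ Module.finrank ℝ E)
    (F : E ≃ₜ E) (e : E) (he : e ≠ 0) {C : ℝ} (hC : 1 ≤ C) (L : ℝ≥0) :
    ∃ c : ℝ≥0, ∀ (x : E) (N : ℝ≥0),
      (∃ᶠ j : ℕ in atTop, μ (F '' tube e x (2 * C * (‖e‖ + 1) * (1 / 2) ^ j)) ≤
        N * ENNReal.ofReal ((1 / 2) ^ j) ^ (Module.finrank ℝ E - 1)) →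
      ∀ ψ : E → ℝ, LipschitzWith L ψ → ∀ (T S : Set ℝ), IsCompact T → T ⊆ Icc 0 1 → S ⊆ T →
      ∀ r₀ : ℝ, 0 < r₀ → (∀ t ∈ S, ∀ r : ℝ, 0 < r → r < r₀ → ∀ v ∈ ball (x + t • e) r,
        ‖F v - F (x + t • e)‖ₑ ^ Module.finrank ℝ E * μ (ball (0 : E) 1) ≤
          ENNReal.ofReal C ^ Module.finrank ℝ E * μ (F '' ball (x + t • e) (C * r))) →
      volume ((fun t : ℝ => ψ (F (x + t • e))) '' S) ^ Module.finrank ℝ E ≤
        c * N * volume T ^ (Module.finrank ℝ E - 1) := by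
  set n := Module.finrank ℝ E with hndef
  have he' : 0 < ‖e‖ := norm_pos_iff.mpr he
  obtain ⟨q, hq⟩ := exists_nat_ge (4 * C * (‖e‖ + 1) / ‖e‖ + 1)
  have hq0 : 0 < q := by
    have h1 : (0:ℝ) < q := lt_of_lt_of_le (by positivity) hq
    exact_mod_cast h1
  have hq2 : 4 * C * (‖e‖ + 1) ≤ ‖e‖ * ((q : ℝ) - 1) := by
    have h1 : 4 * C * (‖e‖ + 1) / ‖e‖ ≤ (q : ℝ) - 1 := by linarith
    rw [div_le_iff₀ he'] at h1
    linarith
  set κ := μ (ball (0 : E) 1) with hκ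
  have hκ0 : κ ≠ 0 := (measure_ball_pos μ _ one_pos).ne'
  have hct : (2 * L * ENNReal.ofReal C) ^ n * κ⁻¹ * q ≠ ⊤ := by
    apply ENNReal.mul_ne_top
    · apply ENNReal.mul_ne_top
      · apply ENNReal.pow_ne_top
        exact ENNReal.mul_ne_top (ENNReal.mul_ne_top (by simp) (by simp)) ENNReal.ofReal_ne_top
      · exact ENNReal.inv_ne_top.mpr hκ0
    · exact ENNReal.natCast_ne_top q
  refine ⟨((2 * L * ENNReal.ofReal C) ^ n * κ⁻¹ * q).toNNReal, ?_⟩
  intro x N hN ψ hψ T S hT hT1 hST r₀ hr₀ hyp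
  rw [ENNReal.coe_toNNReal hct]
  set c := (2 * L * ENNReal.ofReal C) ^ n * κ⁻¹ * q with hc
  have hlim0 : Tendsto (fun j : ℕ => ((1 / 2 : ℝ)) ^ j) atTop (𝓝 0) :=
    tendsto_pow_atTop_nhds_zero_of_lt_one (by norm_num) (by norm_num)
  have hlim : Tendsto (fun j : ℕ => c * N * volume (cthickening ((1 / 2 : ℝ) ^ j) T) ^ (n - 1)) atTop
      (𝓝 (c * N * volume T ^ (n - 1))) := by
    have h1 : Tendsto (fun j : ℕ => volume (cthickening ((1 / 2 : ℝ) ^ j) T)) atTop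
        (𝓝 (volume T)) := (tendsto_measure_cthickening_of_isCompact hT).comp hlim0
    apply ENNReal.Tendsto.const_mul (ENNReal.Tendsto.pow h1)
    right
    exact ENNReal.mul_ne_top hct ENNReal.coe_ne_top
  have hev : ∀ᶠ j : ℕ in atTop, 2 * (‖e‖ + 1) * (1 / 2 : ℝ) ^ j < r₀ := by
    have h1 : Tendsto (fun j : ℕ => 2 * (‖e‖ + 1) * (1 / 2 : ℝ) ^ j) atTop (𝓝 (2 * (‖e‖ + 1) * 0)) :=
      hlim0.const_mul _
    rw [mul_zero] at h1
    exact h1.eventually (gt_mem_nhds hr₀)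
  refine ge_of_tendsto_of_frequently hlim ?_
  refine (hN.and_eventually hev).mono ?_
  intro j hj
  obtain ⟨hj1, hj2⟩ := hj
  have hh : (0:ℝ) < (1 / 2 : ℝ) ^ j := by positivity
  obtain ⟨p, hp1, hp2⟩ := A2_core μ hn F e he hC L q hq0 hq2 x ((1 / 2 : ℝ) ^ j) hh ψ hψ T S hT1 hST
    (fun t ht v hv => hyp t ht _ (by positivity) hj2 v hv)
  refine hp2.trans ?_
  calc (p : ℝ≥0∞) ^ (n - 1) * ((2 * L * ENNReal.ofReal C) ^ n *
          κ⁻¹ * (q * μ (F '' tube e x (2 * C * (‖e‖ + 1) * (1 / 2 : ℝ) ^ j))))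
      ≤ (p : ℝ≥0∞) ^ (n - 1) * ((2 * L * ENNReal.ofReal C) ^ n *
          κ⁻¹ * (q * (N * ENNReal.ofReal ((1 / 2) ^ j) ^ (n - 1)))) := by gcongr
    _ = c * N * (p * ENNReal.ofReal ((1 / 2) ^ j)) ^ (n - 1) := by
        rw [hc, mul_pow]; ring
    _ ≤ _ := by gcongr

end H42DF
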