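import Pool.Agent.H42.DF.A2

/-!
# A2b: on a good line null sets are mapped to null sets

`x, N` as in `cover_estimate`, and `LocV μ C F (γ t)` for all `t ∈ [0,1]` with `γ t ≠ 0`, `γ t = x + t e`,
`n = dim E ≥ 2`. Let `u t = ψ (F (γ t))`.
(1) For compact `T ⊆ [0,1]`: `volume (u '' T)^n ≤ c N volume T^(n-1)`. Let
`S_k = {t ∈ T | γ t ≠ 0, and the condition in LocV holds for all 0 < r < 1/(k+1)}` (increasing in `k`, union
`= {t ∈ T | γ t ≠ 0}`), so `volume (u '' S_k)^n ≤ c N volume T^(n-1)`, and `volume (u '' ⋃ S_k) = sup_k`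
(continuity from below for increasing unions, no measurability needed: `Directed.measure_iUnion`/
`MeasureTheory.measure_iUnion_eq_iSup`-type lemma). The remaining `t` (`γ t = 0`, at most one, since `e ≠ 0`)
contribute a single point, measure `0`.
(2) For `O` open in `ℝ`: `O ∩ [0,1]` is an increasing union of compact sets
`T_m = {t ∈ [0,1] | infDist t Oᶜ ≥ 1/(m+1)}` (or use inner regularity/`IsOpen.exists_iUnion_isClosed`), so
`volume (u '' (O ∩ [0,1]))^n ≤ c N volume (O ∩ [0,1])^(n-1) ≤ c N volume O^(n-1)`.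
(3) `Z ⊆ [0,1]` null: for every `δ > 0` there is an open `O ⊇ Z` with `volume O < δ`
(`Set.exists_isOpen_lt_of_lt`), so `volume (u '' Z)^n ≤ c N δ^(n-1)` for all `δ > 0`, `n - 1 ≥ 1`; so it is `0`.
-/

set_option autoImplicit false

open MeasureTheory Metric Set Filter Topology
open scoped ENNReal NNReal

namespace H42DF

variable {E : Type*} [NormedAddCommGroup E] [NormedSpace ℝ E] [FiniteDimensional ℝ E]
  [MeasurableSpace E] [BorelSpace E]

private theorem A2b_sup {u : ℝ → ℝ} {n : ℕ} (hn : n ≠ 0) {B : ℝ≥0∞} {S : ℕ → Set ℝ}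
    (hS : Monotone S) (h : ∀ k, volume (u '' S k) ^ n ≤ B) :
    volume (u '' ⋃ k, S k) ^ n ≤ B := by
  have hn0 : (0 : ℝ) < n := by exact_mod_cast Nat.pos_of_ne_zero hn
  have h1 : volume (u '' ⋃ k, S k) ≤ B ^ ((n : ℝ)⁻¹) := by
    rw [image_iUnion, Monotone.measure_iUnion (fun k l hkl => image_mono (hS hkl))]
    refine iSup_le fun k => ?_
    rw [ENNReal.le_rpow_inv_iff hn0, ENNReal.rpow_natCast]
    exact h k
  rwa [ENNReal.le_rpow_inv_iff hn0, ENNReal.rpow_natCast] at h1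

theorem null_image (μ : Measure E) [μ.IsAddHaarMeasure] (hn : 2 ≤ Module.finrank ℝ E)
    (F : E ≃ₜ E) (e : E) (he : e ≠ 0) {C : ℝ} (hC : 1 ≤ C) (x : E) (N : ℝ≥0)
    (hN : ∃ᶠ j : ℕ in atTop, μ (F '' tube e x (2 * C * (‖e‖ + 1) * (1 / 2) ^ j)) ≤
        N * ENNReal.ofReal ((1 / 2) ^ j) ^ (Module.finrank ℝ E - 1))
    (hloc : ∀ t ∈ Icc (0 : ℝ) 1, x + t • e ≠ 0 → LocV μ C F (x + t • e))
    (ψ : E → ℝ) (L : ℝ≥0) (hψ : LipschitzWith L ψ) (Z : Set ℝ) (hZ : Z ⊆ Icc 0 1)
    (hZ0 : volume Z = 0) :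
    volume ((fun t : ℝ => ψ (F (x + t • e))) '' Z) = 0 := by
  obtain ⟨c, hc⟩ := cover_estimate μ (by omega) F e he hC L
  set n := Module.finrank ℝ E with hndef
  have hn0 : n ≠ 0 := by omega
  set u : ℝ → ℝ := fun t : ℝ => ψ (F (x + t • e)) with hu
  -- compact sets
  have hcpt : ∀ T : Set ℝ, IsCompact T → T ⊆ Icc 0 1 →
      volume (u '' T) ^ n ≤ c * N * volume T ^ (n - 1) := by
    intro T hT hT01
    set S : ℕ → Set ℝ := fun k => {t | t ∈ T ∧ ∀ r : ℝ, 0 < r → r < 1 / ((k : ℝ) + 1) →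
      ∀ v ∈ ball (x + t • e) r,
        ‖F v - F (x + t • e)‖ₑ ^ n * μ (ball (0 : E) 1) ≤
          ENNReal.ofReal C ^ n * μ (F '' ball (x + t • e) (C * r))} with hS
    have hSmono : Monotone S := by
      intro k l hkl t ht
      refine ⟨ht.1, fun r hr hrl => ht.2 r hr (hrl.trans_le ?_)⟩
      have : (k : ℝ) ≤ l := by exact_mod_cast hkl
      gcongr
    have hSb : volume (u '' ⋃ k, S k) ^ n ≤ c * N * volume T ^ (n - 1) :=
      A2b_sup hn0 hSmono fun k => hc x N hN ψ hψ T (S k) hT hT01 (fun t ht => ht.1)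
        (1 / ((k : ℝ) + 1)) (by positivity) (fun t ht => ht.2)
    have hsub : u '' T ⊆ u '' (⋃ k, S k) ∪ u '' {t | x + t • e = 0} := by
      rintro _ ⟨t, ht, rfl⟩
      by_cases h0 : x + t • e = 0
      · exact Or.inr ⟨t, h0, rfl⟩
      · left
        have h1 := hloc t (hT01 ht) h0
        unfold LocV at h1
        obtain ⟨δ, hδ, hh⟩ := (mem_nhdsGT_iff_exists_Ioo_subset (a := (0 : ℝ))).1 h1
        have hδ0 : (0 : ℝ) < δ := hδ
        obtain ⟨k, hk⟩ := exists_nat_one_div_lt hδ0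
        refine ⟨t, mem_iUnion.2 ⟨k, ht, fun r hr hrk => ?_⟩, rfl⟩
        exact hh ⟨hr, hrk.trans hk⟩
    have hsing : volume (u '' {t | x + t • e = 0}) = 0 := by
      have h1 : Set.Subsingleton {t : ℝ | x + t • e = 0} := by
        intro s hs t ht
        have hs' : x + s • e = 0 := hs
        have ht' : x + t • e = 0 := ht
        have h2 : (s - t) • e = 0 := by
          rw [sub_smul, ← add_sub_add_left_eq_sub _ _ x, hs', ht', sub_zero]
        rcases smul_eq_zero.1 h2 with h3 | h3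
        · linarith
        · exact absurd h3 he
      exact (h1.image u).measure_zero volume
    have h3 : volume (u '' T) ≤ volume (u '' ⋃ k, S k) := by
      refine (measure_mono hsub).trans ((measure_union_le _ _).trans ?_)
      rw [hsing, add_zero]
    exact (pow_le_pow_left' h3 n).trans hSb
  -- open sets
  have hopen : ∀ O : Set ℝ, IsOpen O →
      volume (u '' (O ∩ Icc 0 1)) ^ n ≤ c * N * volume O ^ (n - 1) := by
    intro O hO
    obtain ⟨G, hG1, hG2, hG3, hG4⟩ := hO.exists_iUnion_isClosed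
    have h1 : O ∩ Icc 0 1 = ⋃ k, (G k ∩ Icc 0 1) := by
      rw [← iUnion_inter, hG3]
    rw [h1]
    refine A2b_sup hn0 (fun k l hkl => inter_subset_inter_left _ (hG4 hkl)) fun k => ?_
    refine (hcpt (G k ∩ Icc 0 1) (isCompact_Icc.inter_left (hG1 k)) inter_subset_right).trans ?_
    gcongr
    exact inter_subset_left.trans (hG2 k)
  -- null sets
  have hfin : ∀ δ : ℝ≥0∞, 0 < δ → volume (u '' Z) ^ n ≤ c * N * δ ^ (n - 1) := by
    intro δ hδ
    obtain ⟨O, hO1, hO2, hO3⟩ := Set.exists_isOpen_lt_of_lt Z δ (by rwa [hZ0])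
    calc volume (u '' Z) ^ n ≤ volume (u '' (O ∩ Icc 0 1)) ^ n := by
          gcongr
          exact subset_inter hO1 hZ
      _ ≤ c * N * volume O ^ (n - 1) := hopen O hO2
      _ ≤ c * N * δ ^ (n - 1) := by gcongr
  have hlim : Tendsto (fun δ : ℝ≥0∞ => (c : ℝ≥0∞) * N * δ ^ (n - 1)) (𝓝[>] 0)
      (𝓝 (c * N * 0 ^ (n - 1))) := by
    apply Tendsto.mono_left _ nhdsWithin_le_nhds
    refine ENNReal.Tendsto.const_mul ?_ (Or.inr (ENNReal.mul_ne_top ENNReal.coe_ne_top
      ENNReal.coe_ne_top))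
    exact (ENNReal.continuous_pow (n - 1)).tendsto 0
  rw [zero_pow (by omega), mul_zero] at hlim
  have h4 : volume (u '' Z) ^ n ≤ 0 := by
    refine ge_of_tendsto hlim ?_
    filter_upwards [self_mem_nhdsWithin] with δ hδ
    exact hfin δ hδ
  exact pow_eq_zero_iff hn0 |>.1 (le_antisymm h4 bot_le)

end H42DF
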