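import Pool.Agent.H42.DF.Defs

/-!
# A3 (DERIV): the volume derivative

**exists_volDeriv.** Let `ν = Measure.map F.symm μ`, so `ν s = μ (F.symm ⁻¹' s) = μ (F '' s)` for measurable `s`
(`Homeomorph.preimage_symm`/`image_symm`); it is finite on compact sets, hence locally finite. Let
`J = ν.rnDeriv μ` (measurable, finite a.e.: `Measure.rnDeriv_lt_top`). `Besicovitch.ae_tendsto_rnDeriv` gives
`ν (closedBall x r) / μ (closedBall x r) → J x` as `r → 0+` for a.e. `x` (a finite-dimensional space has the
Besicovitch covering property: instance). And `∫_s φ(F x) J x dμ = ∫_s φ ∘ F d(μ.withDensity J) ≤ ∫_s φ ∘ F dν`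
(`Measure.withDensity_rnDeriv_le`, `lintegral_withDensity_eq_lintegral_mul`-type lemma,
`Measure.restrict_mono`/`lintegral_mono'`), and `∫_s φ ∘ F dν = ∫_{F '' s} φ dμ` (`lintegral_map`,
`restrict_map`, `F (F.symm y) = y`, `F.symm ⁻¹' s = F '' s`).
-/

set_option autoImplicit false

open MeasureTheory Metric Set Filter Topology
open scoped ENNReal NNReal

namespace H42DF

variable {E : Type*} [NormedAddCommGroup E] [NormedSpace ℝ E] [FiniteDimensional ℝ E]
  [MeasurableSpace E] [BorelSpace E]

theorem exists_volDeriv (μ : Measure E) [μ.IsAddHaarMeasure] (F : E ≃ₜ E) :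
    ∃ J : E → ℝ≥0∞, Measurable J ∧ (∀ᵐ x ∂μ, J x < ∞) ∧
      (∀ s : Set E, MeasurableSet s → ∀ φ : E → ℝ≥0∞, Measurable φ →
        ∫⁻ x in s, φ (F x) * J x ∂μ ≤ ∫⁻ y in F '' s, φ y ∂μ) ∧
      ∀ᵐ x ∂μ, Tendsto (fun r => μ (F '' closedBall x r) / μ (closedBall x r)) (𝓝[>] 0)
        (𝓝 (J x)) := by
  set ν : Measure E := Measure.map F.symm μ with hν
  have hFm : Measurable F.symm := F.symm.continuous.measurable
  have hνs : ∀ s, MeasurableSet s → ν s = μ (F '' s) := by
    intro s hs
    rw [hν, Measure.map_apply hFm hs, F.image_eq_preimage_symm]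
  have hpr : ProperSpace E := FiniteDimensional.proper ℝ E
  have hνlf : IsLocallyFiniteMeasure ν := by
    refine ⟨fun x => ⟨closedBall x 1, closedBall_mem_nhds x one_pos, ?_⟩⟩
    rw [hνs _ isClosed_closedBall.measurableSet]
    exact ((isCompact_closedBall x 1).image F.continuous).measure_lt_top
  refine ⟨ν.rnDeriv μ, Measure.measurable_rnDeriv ν μ, Measure.rnDeriv_lt_top ν μ, ?_, ?_⟩
  · intro s hs φ hφ
    have hφF : Measurable fun x => φ (F x) := hφ.comp F.continuous.measurable
    calc ∫⁻ x in s, φ (F x) * ν.rnDeriv μ x ∂μ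
        = ∫⁻ x in s, φ (F x) ∂(μ.withDensity (ν.rnDeriv μ)) := by
          rw [setLIntegral_withDensity_eq_setLIntegral_mul μ (Measure.measurable_rnDeriv ν μ)
            hφF hs]
          refine lintegral_congr fun x => ?_
          rw [Pi.mul_apply, mul_comm]
      _ ≤ ∫⁻ x in s, φ (F x) ∂ν :=
          lintegral_mono' (Measure.restrict_mono subset_rfl
            (Measure.withDensity_rnDeriv_le ν μ)) le_rfl
      _ = ∫⁻ y in F.symm ⁻¹' s, φ (F (F.symm y)) ∂μ := by
          rw [hν, setLIntegral_map hs hφF hFm]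
      _ = ∫⁻ y in F '' s, φ y ∂μ := by
          rw [← F.image_eq_preimage_symm]
          refine lintegral_congr fun y => ?_
          rw [F.apply_symm_apply]
  · filter_upwards [Besicovitch.ae_tendsto_rnDeriv ν μ] with x hx
    refine hx.congr fun r => ?_
    rw [hνs _ isClosed_closedBall.measurableSet]

end H42DF
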