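import Pool.Agent.H42.DF.Defs

/-!
# A3b: pointwise slope from the volume derivative

**slope_of_volDeriv.** `n = dim E ≥ 1`, `κ = μ (ball 0 1)`, `0 < κ < ∞`. Suppose `LocV μ C F x` and
`μ (F '' closedBall x r)/μ (closedBall x r) → j < ∞`, and `ofReal (C²) * j^(1/n) < ofReal c`. Then
`‖F y - F x‖ ≤ c ‖y - x‖` for `y` near `x`. Proof: choose `j' > j` and `τ > 1` with
`C² τ j'^(1/n) < c` (continuity). For small `r > 0` and `v ∈ ball x r`:
`‖F v - F x‖^n κ ≤ C^n μ (F '' ball x (C r)) ≤ C^n μ (F '' closedBall x (C r)) ≤ C^n j' μ (closedBall x (C r))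
= C^n j' (C r)^n κ`, i.e. `‖F v - F x‖ ≤ C² r j'^(1/n)`. For `v ≠ x` near `x` take `r = τ ‖v - x‖`
(`v ∈ ball x r`): `‖F v - F x‖ ≤ C² τ j'^(1/n) ‖v - x‖ ≤ c ‖v - x‖`. For `v = x` trivial.
-/

set_option autoImplicit false

open MeasureTheory Metric Set Filter Topology
open scoped ENNReal NNReal

namespace H42DF

variable {E : Type*} [NormedAddCommGroup E] [NormedSpace ℝ E] [FiniteDimensional ℝ E]
  [MeasurableSpace E] [BorelSpace E]

theorem slope_of_volDeriv (μ : Measure E) [μ.IsAddHaarMeasure] (hn : 1 ≤ Module.finrank ℝ E)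
    (F : E ≃ₜ E) {C : ℝ} (hC : 1 ≤ C) {x : E} (hloc : LocV μ C F x) {j : ℝ≥0∞} (hj : j < ∞)
    (hlim : Tendsto (fun r => μ (F '' closedBall x r) / μ (closedBall x r)) (𝓝[>] 0) (𝓝 j))
    {c : ℝ} (hc : ENNReal.ofReal (C ^ 2) * j ^ ((Module.finrank ℝ E : ℝ)⁻¹) < ENNReal.ofReal c) :
    ∀ᶠ y in 𝓝 x, ‖F y - F x‖ ≤ c * ‖y - x‖ := by
  have hnt : Nontrivial E := Module.nontrivial_of_finrank_pos (R := ℝ) (by omega)
  set n := Module.finrank ℝ E with hndef
  have hn0 : (0 : ℝ) < n := by exact_mod_cast hn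
  set J := j.toReal with hJ
  have hJ0 : 0 ≤ J := ENNReal.toReal_nonneg
  have hjJ : j = ENNReal.ofReal J := (ENNReal.ofReal_toReal hj.ne).symm
  have hc0 : 0 < c := by
    by_contra hcon
    rw [not_lt] at hcon
    rw [ENNReal.ofReal_of_nonpos hcon] at hc
    exact not_lt_bot hc
  have hlt : C ^ 2 * J ^ ((n : ℝ)⁻¹) < c := by
    rw [hjJ, ENNReal.ofReal_rpow_of_nonneg hJ0 (by positivity), ← ENNReal.ofReal_mul (by positivity),
      ENNReal.ofReal_lt_ofReal_iff hc0] at hc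
    exact hc
  have hex : ∃ ε : ℝ, 0 < ε ∧ C ^ 2 * (1 + ε) * (J + ε) ^ ((n : ℝ)⁻¹) < c := by
    have h1 : Tendsto (fun ε : ℝ => C ^ 2 * (1 + ε) * (J + ε) ^ ((n : ℝ)⁻¹)) (𝓝[>] 0)
        (𝓝 (C ^ 2 * (1 + 0) * (J + 0) ^ ((n : ℝ)⁻¹))) := by
      apply Tendsto.mono_left _ nhdsWithin_le_nhds
      have h2 : Continuous fun ε : ℝ => C ^ 2 * (1 + ε) * (J + ε) ^ ((n : ℝ)⁻¹) := by
        refine (by fun_prop : Continuous fun ε : ℝ => C ^ 2 * (1 + ε)).mul ?_
        exact (by fun_prop : Continuous fun ε : ℝ => J + ε).rpow_const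
          (fun _ => Or.inr (by positivity))
      exact h2.tendsto 0
    rw [add_zero, add_zero, mul_one] at h1
    obtain ⟨ε, h3, h4⟩ := ((h1.eventually_lt_const hlt).and self_mem_nhdsWithin).exists
    exact ⟨ε, h4, h3⟩
  obtain ⟨ε, hε, hεc⟩ := hex
  have hκ0 : μ (ball (0 : E) 1) ≠ 0 := (measure_ball_pos μ 0 one_pos).ne'
  have hκt : μ (ball (0 : E) 1) ≠ ∞ := measure_ball_lt_top.ne
  -- eventual bound of the volume quotient
  have h1 : ∀ᶠ r in 𝓝[>] (0 : ℝ), μ (F '' closedBall x r) / μ (closedBall x r) <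
      ENNReal.ofReal (J + ε) := by
    refine hlim.eventually_lt_const ?_
    rw [hjJ, ENNReal.ofReal_lt_ofReal_iff (by linarith)]
    linarith
  have hCt : Tendsto (fun r : ℝ => C * r) (𝓝[>] 0) (𝓝[>] 0) := by
    refine tendsto_nhdsWithin_iff.2 ⟨?_, ?_⟩
    · have : Tendsto (fun r : ℝ => C * r) (𝓝 0) (𝓝 (C * 0)) :=
        (continuous_const.mul continuous_id).tendsto 0
      rw [mul_zero] at this
      exact this.mono_left nhdsWithin_le_nhds
    · filter_upwards [self_mem_nhdsWithin] with r hr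
      have hr0 : (0 : ℝ) < r := hr
      exact mul_pos (by linarith) hr0
  have h2 := hCt.eventually h1
  unfold LocV at hloc
  have h3 : ∀ᶠ r in 𝓝[>] (0 : ℝ), ∀ u ∈ ball x r,
      ‖F u - F x‖ ≤ C ^ 2 * r * (J + ε) ^ ((n : ℝ)⁻¹) := by
    filter_upwards [hloc, h2, self_mem_nhdsWithin] with r hr1 hr2 hr0 u hu
    have hr0 : (0 : ℝ) < r := hr0
    have hCr : 0 < C * r := mul_pos (by linarith) hr0
    have h4 : μ (closedBall x (C * r)) = ENNReal.ofReal ((C * r) ^ n) * μ (ball (0 : E) 1) :=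
      Measure.addHaar_closedBall μ x hCr.le
    have h5 : μ (F '' closedBall x (C * r)) ≤
        ENNReal.ofReal (J + ε) * μ (closedBall x (C * r)) := by
      rw [ENNReal.div_lt_iff (Or.inl (measure_closedBall_pos μ x hCr).ne')
        (Or.inl measure_closedBall_lt_top.ne)] at hr2
      exact hr2.le
    have h6 : ‖F u - F x‖ₑ ^ n * μ (ball (0 : E) 1) ≤
        ENNReal.ofReal ((C ^ 2 * r) ^ n * (J + ε)) * μ (ball (0 : E) 1) := by
      calc ‖F u - F x‖ₑ ^ n * μ (ball (0 : E) 1)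
          ≤ ENNReal.ofReal C ^ n * μ (F '' ball x (C * r)) := hr1 u hu
        _ ≤ ENNReal.ofReal C ^ n * (ENNReal.ofReal (J + ε) *
            (ENNReal.ofReal ((C * r) ^ n) * μ (ball (0 : E) 1))) := by
            rw [← h4]
            gcongr
            exact (measure_mono (image_mono ball_subset_closedBall)).trans h5
        _ = _ := by
            rw [← ENNReal.ofReal_pow (by linarith), ENNReal.ofReal_mul (by positivity)]
            rw [show (C ^ 2 * r) ^ n = C ^ n * (C * r) ^ n by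
              rw [← mul_pow]; ring_nf]
            rw [ENNReal.ofReal_mul (by positivity)]
            ring
    have h7 : ‖F u - F x‖ₑ ^ n ≤ ENNReal.ofReal ((C ^ 2 * r) ^ n * (J + ε)) :=
      (ENNReal.mul_le_mul_iff_left hκ0 hκt).1 h6
    rw [← ofReal_norm, ← ENNReal.ofReal_pow (norm_nonneg _),
      ENNReal.ofReal_le_ofReal_iff (by positivity)] at h7
    have h8 : (C ^ 2 * r * (J + ε) ^ ((n : ℝ)⁻¹)) ^ n = (C ^ 2 * r) ^ n * (J + ε) := by
      rw [mul_pow, Real.rpow_inv_natCast_pow (by positivity) (by omega)]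
    rw [← h8] at h7
    exact (pow_le_pow_iff_left₀ (norm_nonneg _) (by positivity) (by omega)).1 h7
  obtain ⟨δ, hδ, hh⟩ := (mem_nhdsGT_iff_exists_Ioo_subset (a := (0 : ℝ))).1 h3
  have hδ0 : 0 < δ := hδ
  have h9 : ball x (δ / (1 + ε)) ∈ 𝓝 x := ball_mem_nhds x (by positivity)
  filter_upwards [h9] with y hy
  rw [mem_ball_iff_norm, lt_div_iff₀ (by positivity)] at hy
  rcases eq_or_ne y x with rfl | hyx
  · simp
  have hyx0 : 0 < ‖y - x‖ := norm_pos_iff.2 (sub_ne_zero.2 hyx)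
  have h10 := hh (show ‖y - x‖ * (1 + ε) ∈ Ioo 0 δ from ⟨by positivity, hy⟩) y (by
    rw [mem_ball_iff_norm]
    nlinarith)
  calc ‖F y - F x‖ ≤ C ^ 2 * (‖y - x‖ * (1 + ε)) * (J + ε) ^ ((n : ℝ)⁻¹) := h10
    _ = (C ^ 2 * (1 + ε) * (J + ε) ^ ((n : ℝ)⁻¹)) * ‖y - x‖ := by ring
    _ ≤ c * ‖y - x‖ := by gcongr

end H42DF
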