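import Pool.Agent.H42.DF.Defs

/-!
# A4 (ONED): a continuous function of one variable that maps null sets to null sets and has pointwise slopes
at most `w` satisfies `|u 1 - u 0| ≤ ∫ w`

Proof. Write `λ` for Lebesgue (outer) measure. We may assume `∫_0^1 w < ∞`, so `P = {t ∈ [0,1] | w t = ∞}` is a null
set. By the intermediate value theorem `uIcc (u 0) (u 1) ⊆ u '' [0,1]`, so
`|u 1 - u 0| ≤ λ (u '' [0,1])`. Let `Z' = (Z ∩ [0,1]) ∪ P`; contained in a measurable null set `Z''`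
(`toMeasurable`), `λ (u '' (Z'' ∩ [0,1])) = 0` by hypothesis; let `G = [0,1] \ Z''` (measurable).
Let `ε > 0` and `G_m = {t ∈ G | m ε ≤ w t < (m+1) ε}` (`m = 0, 1, ...`; measurable, disjoint, union `G`), and
`G_{m,k} = {t ∈ G_m | ∀ s ∈ [0,1], |s - t| < 1/(k+1) → |u s - u t| ≤ (m+2) ε |s - t|}`; increasing in `k` and
`⋃_k G_{m,k} = G_m` by the slope hypothesis with `c = (m+2) ε`. Now
`λ (u '' G_{m,k}) ≤ (m+2) ε λ (G_m)`: cut `[0,1]` into the intervals `I_i = [i/(k+2), (i+1)/(k+2))`, `0 ≤ i ≤ k+2`; `u` is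
`(m+2)ε`-Lipschitz on `G_{m,k} ∩ I_i`, so `λ (u '' (G_{m,k} ∩ I_i)) ≤ (m+2) ε λ (G_{m,k} ∩ I_i) ≤
(m+2) ε λ (G_m ∩ I_i)` (`LipschitzOnWith.hausdorffMeasure_image_le` with `d = 1` and
`MeasureTheory.hausdorffMeasure_real`), and `Σ_i λ (G_m ∩ I_i) = λ (G_m)` (`I_i` disjoint intervals). Taking the
supremum over `k`: `λ (u '' G_m) ≤ (m+2) ε λ (G_m) ≤ ∫_{G_m} (w + 2 ε)`. Sum over `m`:
`λ (u '' G) ≤ ∫_0^1 w + 2 ε`. Let `ε → 0`.
-/

set_option autoImplicit false

open MeasureTheory Metric Set Filter Topology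
open scoped ENNReal NNReal

namespace H42DF

private theorem A4_piece {u : ℝ → ℝ} {M : ℝ≥0} {A G : Set ℝ} (hG : MeasurableSet G)
    (hAG : A ⊆ G) (hA : A ⊆ Icc 0 1) {δ : ℝ} (hδ : 0 < δ)
    (h : ∀ t ∈ A, ∀ s ∈ A, |s - t| < δ → |u s - u t| ≤ M * |s - t|) :
    volume (u '' A) ≤ M * volume G := by
  set I : ℕ → Set ℝ := fun i => {x | ⌊x / δ⌋₊ = i} with hI
  have hImeas : ∀ i, MeasurableSet (I i) := by
    intro i
    have h1 : Measurable (fun x : ℝ => ⌊x / δ⌋₊) :=
      Nat.measurable_floor.comp (measurable_id.div_const δ)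
    exact h1 (measurableSet_singleton i)
  have hIdisj : Pairwise (Function.onFun Disjoint fun i => G ∩ I i) := by
    intro i j hij
    rw [Function.onFun, Set.disjoint_left]
    rintro x ⟨-, hx1⟩ ⟨-, hx2⟩
    exact hij (hx1.symm.trans hx2)
  have hcov : u '' A ⊆ ⋃ i, u '' (A ∩ I i) := by
    rintro _ ⟨x, hx, rfl⟩
    exact mem_iUnion.2 ⟨⌊x / δ⌋₊, x, ⟨hx, rfl⟩, rfl⟩
  have hpiece : ∀ i, volume (u '' (A ∩ I i)) ≤ M * volume (G ∩ I i) := by
    intro i
    have hlip : LipschitzOnWith M u (A ∩ I i) := by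
      refine LipschitzOnWith.of_dist_le_mul fun x hx y hy => ?_
      rw [Real.dist_eq, Real.dist_eq]
      refine h y hy.1 x hx.1 ?_
      have hx0 := (hA hx.1).1
      have hy0 := (hA hy.1).1
      have h1 : ((i : ℕ) : ℝ) ≤ x / δ := by
        rw [← hx.2]; exact Nat.floor_le (by positivity)
      have h2 : x / δ < i + 1 := by
        rw [← hx.2]; exact Nat.lt_floor_add_one _
      have h3 : ((i : ℕ) : ℝ) ≤ y / δ := by
        rw [← hy.2]; exact Nat.floor_le (by positivity)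
      have h4 : y / δ < i + 1 := by
        rw [← hy.2]; exact Nat.lt_floor_add_one _
      have h5 : |x / δ - y / δ| < 1 := by
        rw [abs_lt]; constructor <;> linarith
      rw [← sub_div, abs_div, abs_of_pos hδ, div_lt_one hδ] at h5
      exact h5
    have h1 := hlip.hausdorffMeasure_image_le (d := 1) zero_le_one
    rw [hausdorffMeasure_real, ENNReal.rpow_one] at h1
    exact h1.trans (mul_le_mul_right (measure_mono (inter_subset_inter_left _ hAG)) _)
  calc volume (u '' A) ≤ volume (⋃ i, u '' (A ∩ I i)) := measure_mono hcov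
    _ ≤ ∑' i, volume (u '' (A ∩ I i)) := measure_iUnion_le _
    _ ≤ ∑' i, M * volume (G ∩ I i) := ENNReal.tsum_le_tsum hpiece
    _ = M * ∑' i, volume (G ∩ I i) := ENNReal.tsum_mul_left
    _ = M * volume (⋃ i, G ∩ I i) := by
        rw [measure_iUnion hIdisj fun i => hG.inter (hImeas i)]
    _ ≤ M * volume G := mul_le_mul_right (measure_mono (iUnion_subset fun i => inter_subset_left)) _

theorem oned (u : ℝ → ℝ) (hu : Continuous u) (w : ℝ → ℝ≥0∞) (hw : Measurable w)
    (hnull : ∀ Z ⊆ Icc (0 : ℝ) 1, volume Z = 0 → volume (u '' Z) = 0)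
    (Z : Set ℝ) (hZ : volume Z = 0)
    (hslope : ∀ t ∈ Icc (0 : ℝ) 1, t ∉ Z → ∀ c : ℝ, w t < ENNReal.ofReal c →
      ∀ᶠ s in 𝓝 t, |u s - u t| ≤ c * |s - t|) :
    ENNReal.ofReal |u 1 - u 0| ≤ ∫⁻ t in Icc (0 : ℝ) 1, w t := by
  by_cases hW : ∫⁻ t in Icc (0 : ℝ) 1, w t = ∞
  · rw [hW]; exact le_top
  have hP : volume {t | t ∈ Icc (0 : ℝ) 1 ∧ w t = ∞} = 0 := by
    have h1 := ae_lt_top hw hW
    rw [ae_restrict_iff' measurableSet_Icc] at h1
    refine measure_mono_null ?_ (ae_iff.1 h1)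
    rintro t ⟨ht1, ht2⟩ h
    have := h ht1
    rw [ht2] at this
    exact lt_irrefl _ this
  set Z' : Set ℝ := toMeasurable volume (Z ∪ {t | t ∈ Icc (0 : ℝ) 1 ∧ w t = ∞}) with hZ'
  have hZ'm : MeasurableSet Z' := measurableSet_toMeasurable _ _
  have hZ'0 : volume Z' = 0 := by
    rw [hZ', measure_toMeasurable]
    exact measure_union_null hZ hP
  have hZ'sub : Z ∪ {t | t ∈ Icc (0 : ℝ) 1 ∧ w t = ∞} ⊆ Z' := subset_toMeasurable _ _
  have huc : ENNReal.ofReal |u 1 - u 0| ≤ volume (u '' Icc 0 1) := by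
    have h1 : uIcc (u 0) (u 1) ⊆ u '' uIcc 0 1 := intermediate_value_uIcc hu.continuousOn
    rw [uIcc_of_le zero_le_one] at h1
    rw [← Real.volume_interval]
    exact measure_mono h1
  refine huc.trans (ENNReal.le_of_forall_pos_le_add fun ε hε _ => ?_)
  -- work with `ε / 2`
  set e : ℝ := (ε : ℝ) / 2 with he
  have he0 : 0 < e := by
    have : (0 : ℝ) < ε := by exact_mod_cast hε
    positivity
  set G : ℕ → Set ℝ := fun m => {t | t ∈ Icc (0 : ℝ) 1 \ Z' ∧ ENNReal.ofReal (m * e) ≤ w t ∧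
    w t < ENNReal.ofReal ((m + 1) * e)} with hG
  have hGm : ∀ m, MeasurableSet (G m) := by
    intro m
    exact (measurableSet_Icc.diff hZ'm).inter
      ((measurableSet_le measurable_const hw).inter (measurableSet_lt hw measurable_const))
  have hGdisj : Pairwise (Function.onFun Disjoint G) := by
    intro i j hij
    rw [Function.onFun, Set.disjoint_left]
    rintro t ⟨-, hi1, hi2⟩ ⟨-, hj1, hj2⟩
    have h1 : (i : ℝ) * e < (j + 1) * e :=
      (ENNReal.ofReal_lt_ofReal_iff (by positivity)).1 (hi1.trans_lt hj2)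
    have h2 : (j : ℝ) * e < (i + 1) * e :=
      (ENNReal.ofReal_lt_ofReal_iff (by positivity)).1 (hj1.trans_lt hi2)
    have h3 : (i : ℝ) < j + 1 := lt_of_mul_lt_mul_right h1 he0.le
    have h4 : (j : ℝ) < i + 1 := lt_of_mul_lt_mul_right h2 he0.le
    have h5 : i < j + 1 := by exact_mod_cast h3
    have h6 : j < i + 1 := by exact_mod_cast h4
    omega
  have hcov : u '' Icc 0 1 ⊆ u '' (Z' ∩ Icc 0 1) ∪ ⋃ m, u '' G m := by
    rintro _ ⟨t, ht, rfl⟩
    by_cases htZ : t ∈ Z'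
    · exact Or.inl ⟨t, ⟨htZ, ht⟩, rfl⟩
    · right
      have hwt : w t ≠ ∞ := by
        intro h
        exact htZ (hZ'sub (Or.inr ⟨ht, h⟩))
      have hwt' : w t = ENNReal.ofReal (w t).toReal := (ENNReal.ofReal_toReal hwt).symm
      refine mem_iUnion.2 ⟨⌊(w t).toReal / e⌋₊, t, ⟨⟨ht, htZ⟩, ?_, ?_⟩, rfl⟩
      · rw [hwt']
        apply ENNReal.ofReal_le_ofReal
        have h1 := Nat.floor_le (div_nonneg (ENNReal.toReal_nonneg (a := w t)) he0.le)
        rw [ENNReal.toReal_ofReal ENNReal.toReal_nonneg]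
        calc (⌊(w t).toReal / e⌋₊ : ℝ) * e ≤ (w t).toReal / e * e := by gcongr
          _ = (w t).toReal := div_mul_cancel₀ _ he0.ne'
      · conv_lhs => rw [hwt']
        rw [ENNReal.ofReal_lt_ofReal_iff (by positivity)]
        have h1 := Nat.lt_floor_add_one ((w t).toReal / e)
        calc (w t).toReal = (w t).toReal / e * e := (div_mul_cancel₀ _ he0.ne').symm
          _ < (⌊(w t).toReal / e⌋₊ + 1) * e := by gcongr
  have hGbound : ∀ m, volume (u '' G m) ≤ ∫⁻ t in G m, (w t + ENNReal.ofReal (2 * e)) := by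
    intro m
    set A : ℕ → Set ℝ := fun k => {t | t ∈ G m ∧ ∀ s ∈ Icc (0 : ℝ) 1, |s - t| < 1 / (k + 1) →
      |u s - u t| ≤ (m + 2) * e * |s - t|} with hA
    have hAmono : Monotone A := by
      intro k l hkl t ht
      refine ⟨ht.1, fun s hs hst => ht.2 s hs (hst.trans_le ?_)⟩
      have : (k : ℝ) ≤ l := by exact_mod_cast hkl
      gcongr
    have hAun : G m = ⋃ k, A k := by
      apply subset_antisymm
      · intro t ht
        have htZ : t ∉ Z := fun h => ht.1.2 (hZ'sub (Or.inl h))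
        have h1 := hslope t ht.1.1 htZ ((m + 2) * e)
          (ht.2.2.trans_le (ENNReal.ofReal_le_ofReal (by nlinarith)))
        obtain ⟨δ, hδ, h2⟩ := Metric.eventually_nhds_iff.1 h1
        obtain ⟨k, hk⟩ := exists_nat_one_div_lt hδ
        refine mem_iUnion.2 ⟨k, ht, fun s _ hst => h2 ?_⟩
        rw [Real.dist_eq]
        exact hst.trans hk
      · exact iUnion_subset fun k t ht => ht.1
    have hM : ((Real.toNNReal ((m + 2) * e) : ℝ≥0) : ℝ) = (m + 2) * e :=
      Real.coe_toNNReal _ (by positivity)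
    have h1 : volume (u '' G m) ≤ ENNReal.ofReal ((m + 2) * e) * volume (G m) := by
      have h2 : u '' G m = ⋃ k, u '' A k := by
        conv_lhs => rw [hAun]
        rw [image_iUnion]
      rw [h2, Monotone.measure_iUnion (fun k l hkl => image_mono (hAmono hkl))]
      refine iSup_le fun k => ?_
      refine A4_piece (M := Real.toNNReal ((m + 2) * e)) (hGm m) (fun t ht => ht.1)
        (fun t ht => ht.1.1.1) (δ := 1 / ((k : ℝ) + 1)) (by positivity) ?_
      intro t ht s hs hst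
      rw [hM]
      exact ht.2 s hs.1.1.1 hst
    refine h1.trans ?_
    rw [← setLIntegral_const]
    refine setLIntegral_mono' (hGm m) fun t ht => ?_
    have h3 : ENNReal.ofReal ((m + 2) * e) = ENNReal.ofReal (m * e) + ENNReal.ofReal (2 * e) := by
      rw [← ENNReal.ofReal_add (by positivity) (by positivity)]
      ring_nf
    rw [h3]
    gcongr
    exact ht.2.1
  calc volume (u '' Icc 0 1) ≤ volume (u '' (Z' ∩ Icc 0 1) ∪ ⋃ m, u '' G m) := measure_mono hcov
    _ ≤ volume (u '' (Z' ∩ Icc 0 1)) + volume (⋃ m, u '' G m) := measure_union_le _ _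
    _ = volume (⋃ m, u '' G m) := by
        rw [hnull _ inter_subset_right (measure_mono_null inter_subset_left hZ'0), zero_add]
    _ ≤ ∑' m, volume (u '' G m) := measure_iUnion_le _
    _ ≤ ∑' m, ∫⁻ t in G m, (w t + ENNReal.ofReal (2 * e)) := ENNReal.tsum_le_tsum hGbound
    _ = ∫⁻ t in ⋃ m, G m, (w t + ENNReal.ofReal (2 * e)) := (lintegral_iUnion hGm hGdisj _).symm
    _ ≤ ∫⁻ t in Icc 0 1, (w t + ENNReal.ofReal (2 * e)) :=
        lintegral_mono_set (iUnion_subset fun m t ht => ht.1.1)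
    _ = (∫⁻ t in Icc 0 1, w t) + ENNReal.ofReal (2 * e) := by
        rw [lintegral_add_left hw, setLIntegral_const, Real.volume_Icc]
        simp
    _ = (∫⁻ t in Icc 0 1, w t) + ε := by
        rw [he]
        congr 1
        rw [mul_div_cancel₀ _ (two_ne_zero)]
        exact ENNReal.ofReal_coe_nnreal

end H42DF
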