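import Pool.Agent.H42.DF.Defs

/-!
# S3: from the metric definition (limsup) to the elementary condition, and local volume condition

**em_of_dilat.** If `dilat f x ≤ ofReal K` then `limsup < K' := K + 1` (`K ≥ 0` wlog by `max`), so for small
`r > 0`: `L/l < ofReal (max K 0 + 1)`, hence `L ≤ ofReal(max K 0 + 1) * l` (case `l = 0`: then `L / l < ∞`
forces `L = 0`; case `l = ∞`: only if the sphere is empty, but then nothing to prove / the bound is trivial),
with `L ≥ ‖f u - f x‖` for `‖u - x‖ ≤ r`, `l ≤ ‖f w - f x‖` for `‖w - x‖ = r`.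

**locV_of_locQC.** `u ∈ ball x r`: `‖F u - F x‖ ≤ C ρ`, and `F '' ball x (C r) ⊇ ball (F x) ρ`, whose measure is
`ofReal ρ ^ n * μ (ball 0 1)` (`Measure.addHaar_ball`).

**LocQC.mono.** enlarge the constant.
-/

set_option autoImplicit false

open MeasureTheory Metric Set Filter Topology
open scoped ENNReal NNReal

namespace H42DF

variable {E : Type*} [NormedAddCommGroup E] [NormedSpace ℝ E]

theorem em_of_dilat {f : E → E} {K : ℝ} {x : E} (h : dilat f x ≤ ENNReal.ofReal K) :
    EM (max K 0 + 1) f x := by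
  have hK0 : 0 ≤ max K 0 := le_max_right _ _
  have hlt : dilat f x < ENNReal.ofReal (max K 0 + 1) := by
    refine h.trans_lt ?_
    rw [ENNReal.ofReal_lt_ofReal_iff (by linarith)]
    have := le_max_left K 0
    linarith
  have hev := eventually_lt_of_limsup_lt hlt
  unfold EM
  filter_upwards [hev] with r hr u w hu hw
  have h1 : (⨆ (y : E) (_ : dist y x ≤ r), edist (f y) (f x)) ≤
      ENNReal.ofReal (max K 0 + 1) * (⨅ (y : E) (_ : dist y x = r), edist (f y) (f x)) := by
    rw [← ENNReal.div_le_iff_le_mul (Or.inr ENNReal.ofReal_ne_top)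
      (Or.inr (by simpa using (by linarith : 0 < max K 0 + 1)))]
    exact hr.le
  have h2 : edist (f u) (f x) ≤ ⨆ (y : E) (_ : dist y x ≤ r), edist (f y) (f x) :=
    le_iSup₂_of_le u (by rwa [dist_eq_norm]) le_rfl
  have h3 : (⨅ (y : E) (_ : dist y x = r), edist (f y) (f x)) ≤ edist (f w) (f x) :=
    iInf₂_le w (by rwa [dist_eq_norm])
  have h4 : edist (f u) (f x) ≤ ENNReal.ofReal (max K 0 + 1) * edist (f w) (f x) :=
    h2.trans (h1.trans (mul_le_mul_right h3 _))
  rw [edist_dist, edist_dist, ← ENNReal.ofReal_mul (by linarith),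
    ENNReal.ofReal_le_ofReal_iff (by positivity), dist_eq_norm, dist_eq_norm] at h4
  exact h4

theorem LocQC.mono {F : E → E} {C C' : ℝ} {x : E} (h : LocQC C F x) (hC : C ≤ C') :
    LocQC C' F x := by
  unfold LocQC at h ⊢
  filter_upwards [h, self_mem_nhdsWithin] with r hr hr0
  have hr0 : 0 < r := hr0
  obtain ⟨ρ, hρ, h1, h2⟩ := hr
  exact ⟨ρ, hρ, h1.trans (ball_subset_ball (by gcongr)),
    h2.trans (image_mono (ball_subset_ball (by gcongr)))⟩

variable [FiniteDimensional ℝ E] [MeasurableSpace E] [BorelSpace E]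

theorem locV_of_locQC (μ : Measure E) [μ.IsAddHaarMeasure] {F : E → E} {C : ℝ} (hC : 1 ≤ C)
    {x : E} (h : LocQC C F x) : LocV μ C F x := by
  unfold LocQC at h
  unfold LocV
  filter_upwards [h] with r hr u hu
  obtain ⟨ρ, hρ, h1, h2⟩ := hr
  have h3 : ‖F u - F x‖ₑ ≤ ENNReal.ofReal C * ENNReal.ofReal ρ := by
    rw [← ENNReal.ofReal_mul (by linarith), ← ofReal_norm]
    apply ENNReal.ofReal_le_ofReal
    have h4 := h1 (mem_image_of_mem F hu)
    rw [mem_ball_iff_norm] at h4
    exact h4.le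
  calc ‖F u - F x‖ₑ ^ Module.finrank ℝ E * μ (ball (0 : E) 1)
      ≤ (ENNReal.ofReal C * ENNReal.ofReal ρ) ^ Module.finrank ℝ E * μ (ball (0 : E) 1) := by
        gcongr
    _ = ENNReal.ofReal C ^ Module.finrank ℝ E * μ (ball (F x) ρ) := by
        rw [mul_pow, Measure.addHaar_ball_of_pos μ (F x) hρ, ENNReal.ofReal_pow hρ.le, mul_assoc]
    _ ≤ ENNReal.ofReal C ^ Module.finrank ℝ E * μ (F '' ball x (C * r)) := by
        gcongr

end H42DF
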