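import Pool.Agent.H42.DF.A1
import Pool.Agent.H42.DF.A2b
import Pool.Agent.H42.DF.A3
import Pool.Agent.H42.DF.A3b
import Pool.Agent.H42.DF.A4
import Pool.Agent.H42.DF.S3

/-!
# A5 (UGMAIN): a homeomorphism with the local two-sided condition off `0` has an upper gradient

`g x := ofReal (C²) * (J x)^(1/n)`, `J` from `exists_volDeriv`. Measurable.
`vol`: `g^n = ofReal(C²)^n J` (`n ≥ 1`), pull the constant out.
`line`: let `e ∈ E`. If `e = 0` the left side is `0`. Let `e ≠ 0`. Let `G` be the set of `p ∈ E` with `p ≠ 0`,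
`J p < ∞` and the limit property: its complement is null (`μ {0} = 0`: no atoms as `n ≥ 1`), so for a.e. `x`, for
a.e. `t`, `x + t e ∈ G` (Fubini/`Measure.ae_ae_of_ae_prod` for the quasi-measure-preserving map
`(x,t) ↦ x + t e`, or: for every `t` the set of bad `x` is null by translation invariance, then Tonelli on a
measurable null set containing the complement of `G`). Also for a.e. `x` the conclusion of `tube_ae`
(with `2 C (‖e‖+1)` in place of `C`) holds. Fix such an `x`, `ψ, σ` with `SlopeFun ψ σ`, and put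
`u t = ψ (F (x + t e))` (continuous), `w t = ofReal (σ (F (x + t e)) * ‖e‖) * g (x + t e)` (measurable).
`hnull` of `oned` is `null_image` (use `locV_of_locQC`). Slope at `t` with `p = x + t e ∈ G`: let
`w t < ofReal c`. Choose reals `c₁ > σ (F p)` and `c₂` with `g p < ofReal c₂` and `c₁ c₂ ‖e‖ ≤ c`
(possible: `g p < ∞`, so with real numbers `a = σ (F p) ≥ 0`, `b = (g p).toReal ≥ 0` we have `a b ‖e‖ < c` and
`c > 0`; by continuity of `(a',b') ↦ a' b' ‖e‖` there are `a' > a`, `b' > b` with `a' b' ‖e‖ < c`). For `s` near `t`: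
`|u s - u t| ≤ c₁ ‖F (x + s e) - F p‖ ≤ c₁ c₂ ‖(s - t) e‖ ≤ c |s - t|`, by the slope property of `ψ` at `F p`
(`F` continuous) and `slope_of_volDeriv` at `p`.  Then `oned` gives the claim (`u 1 = ψ (F (x + e))`,
`u 0 = ψ (F x)`).
-/

set_option autoImplicit false

open MeasureTheory Metric Set Filter Topology
open scoped ENNReal NNReal

namespace H42DF

variable {E : Type*} [NormedAddCommGroup E] [NormedSpace ℝ E] [FiniteDimensional ℝ E]
  [MeasurableSpace E] [BorelSpace E]

theorem exists_UG (μ : Measure E) [μ.IsAddHaarMeasure] (hn : 2 ≤ Module.finrank ℝ E)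
    (F : E ≃ₜ E) {C : ℝ} (hC : 1 ≤ C) (h : ∀ x, x ≠ 0 → LocQC C F x) :
    ∃ g : E → ℝ≥0∞, UG μ (C ^ 2) F g := by
  have hn1 : 1 ≤ Module.finrank ℝ E := by omega
  have hnt : Nontrivial E := Module.nontrivial_of_finrank_pos (R := ℝ) (by omega)
  obtain ⟨J, hJ, hJfin, hJvol, hJlim⟩ := exists_volDeriv μ F
  set n := Module.finrank ℝ E with hndef
  set g : E → ℝ≥0∞ := fun x => ENNReal.ofReal (C ^ 2) * J x ^ ((n : ℝ)⁻¹) with hg
  have hgn : ∀ x, g x ^ n = ENNReal.ofReal (C ^ 2) ^ n * J x := by
    intro x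
    rw [hg]
    simp only
    rw [mul_pow, ← ENNReal.rpow_natCast (J x ^ ((n : ℝ)⁻¹)), ← ENNReal.rpow_mul,
      inv_mul_cancel₀ (by positivity), ENNReal.rpow_one]
  refine ⟨g, (hJ.pow_const _).const_mul _, ?_, ?_⟩
  · intro s hs φ hφ
    simp only [← hndef]
    have hφF : Measurable fun x => φ (F x) * J x := (hφ.comp F.continuous.measurable).mul hJ
    calc ∫⁻ x in s, φ (F x) * g x ^ n ∂μ
        = ∫⁻ x in s, ENNReal.ofReal (C ^ 2) ^ n * (φ (F x) * J x) ∂μ := by
          refine lintegral_congr fun x => ?_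
          rw [hgn]; ring
      _ = ENNReal.ofReal (C ^ 2) ^ n * ∫⁻ x in s, φ (F x) * J x ∂μ :=
          lintegral_const_mul _ hφF
      _ ≤ _ := mul_le_mul_right (hJvol s hs φ hφ) _
  · intro e
    rcases eq_or_ne e 0 with rfl | he
    · refine Eventually.of_forall fun x ψ σ _ => ?_
      simp
    have he0 : 0 < ‖e‖ := norm_pos_iff.2 he
    have hT := tube_ae μ hn1 F e (C := 2 * C * (‖e‖ + 1)) (by nlinarith)
    -- the good set
    have hne : ∀ᵐ p ∂μ, p ≠ 0 := by
      rw [ae_iff]
      simp
    have hG : ∀ᵐ p ∂μ, p ≠ 0 ∧ J p < ∞ ∧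
        Tendsto (fun r => μ (F '' closedBall p r) / μ (closedBall p r)) (𝓝[>] 0) (𝓝 (J p)) := by
      filter_upwards [hne, hJfin, hJlim] with p h1 h2 h3 using ⟨h1, h2, h3⟩
    obtain ⟨N, hNsub, hNm, hN0⟩ := exists_measurable_superset_of_null (ae_iff.1 hG)
    have hNp : ∀ p, p ∉ N → p ≠ 0 ∧ J p < ∞ ∧
        Tendsto (fun r => μ (F '' closedBall p r) / μ (closedBall p r)) (𝓝[>] 0) (𝓝 (J p)) := by
      intro p hp
      by_contra hcon
      exact hp (hNsub hcon)
    have hline : ∀ᵐ x ∂μ, ∀ᵐ t ∂(volume : Measure ℝ), x + t • e ∉ N := by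
      rw [Measure.ae_ae_comm]
      · refine Eventually.of_forall fun t => ?_
        rw [ae_iff]
        simp only [not_not]
        have := measure_preimage_add_right μ (t • e) N
        rw [hN0] at this
        exact this
      · have hcont : Continuous fun p : E × ℝ => p.1 + p.2 • e :=
          continuous_fst.add (continuous_snd.smul continuous_const)
        exact (hcont.measurable hNm).compl
    filter_upwards [hT, hline] with x hxT hxN ψ σ hψ
    obtain ⟨N', hN'⟩ := hxT
    obtain ⟨L, hL⟩ := hψ.lip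
    have hγ : Continuous fun t : ℝ => x + t • e :=
      continuous_const.add (continuous_id.smul continuous_const)
    have hFγ : Continuous fun t : ℝ => F (x + t • e) := F.continuous.comp hγ
    have hu : Continuous fun t : ℝ => ψ (F (x + t • e)) := hL.continuous.comp hFγ
    have hgm : Measurable g := (hJ.pow_const _).const_mul _
    have hw : Measurable fun t : ℝ => ENNReal.ofReal (σ (F (x + t • e)) * ‖e‖) * g (x + t • e) :=
      ((hψ.meas.comp hFγ.measurable).mul_const _).ennreal_ofReal.mul (hgm.comp hγ.measurable)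
    have key := oned (fun t : ℝ => ψ (F (x + t • e))) hu
      (fun t : ℝ => ENNReal.ofReal (σ (F (x + t • e)) * ‖e‖) * g (x + t • e)) hw ?_
      {t | x + t • e ∈ N} (by
        have := ae_iff.1 hxN
        simpa only [not_not] using this) ?_
    · simpa using key
    · intro Z hZ hZ0
      exact null_image μ hn F e he hC x N' hN'
        (fun t _ hne => locV_of_locQC μ hC (h _ hne)) ψ L hL Z hZ hZ0
    · intro t _ htN c hc
      obtain ⟨hp0, hJp, hlim⟩ := hNp _ htN
      set p := x + t • e with hp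
      have hgp : g p ≠ ∞ := by
        rw [hg]
        exact ENNReal.mul_ne_top ENNReal.ofReal_ne_top
          (ENNReal.rpow_ne_top_of_nonneg (by positivity) hJp.ne)
      set a := σ (F p) with ha
      set b := (g p).toReal with hb
      have ha0 : 0 ≤ a := hψ.nonneg _
      have hb0 : 0 ≤ b := ENNReal.toReal_nonneg
      have hgb : g p = ENNReal.ofReal b := (ENNReal.ofReal_toReal hgp).symm
      have hlt : a * b * ‖e‖ < c := by
        rw [hgb, ← ENNReal.ofReal_mul (by positivity)] at hc
        have hc0 : 0 < c := by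
          by_contra hcon
          rw [not_lt] at hcon
          rw [ENNReal.ofReal_of_nonpos hcon] at hc
          exact not_lt_bot hc
        rw [ENNReal.ofReal_lt_ofReal_iff hc0] at hc
        linarith
      have hex : ∃ ε : ℝ, 0 < ε ∧ (a + ε) * (b + ε) * ‖e‖ < c := by
        have h1 : Tendsto (fun ε : ℝ => (a + ε) * (b + ε) * ‖e‖) (𝓝[>] 0)
            (𝓝 ((a + 0) * (b + 0) * ‖e‖)) := by
          apply Tendsto.mono_left _ nhdsWithin_le_nhds
          exact Continuous.tendsto (by fun_prop) 0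
        rw [add_zero, add_zero] at h1
        have h2 := (h1.eventually_lt_const hlt).and self_mem_nhdsWithin
        obtain ⟨ε, h3, h4⟩ := h2.exists
        exact ⟨ε, h4, h3⟩
      obtain ⟨ε, hε, hεc⟩ := hex
      have h1 := hψ.slope (F p) (a + ε) (by linarith)
      have h2 := slope_of_volDeriv μ hn1 F hC (locV_of_locQC μ hC (h p hp0)) hJp hlim
        (c := b + ε) (by
          have : ENNReal.ofReal (C ^ 2) * J p ^ ((Module.finrank ℝ E : ℝ)⁻¹) = g p := rfl
          rw [this, hgb, ENNReal.ofReal_lt_ofReal_iff (by linarith)]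
          linarith)
      have h1' : ∀ᶠ s in 𝓝 t, |ψ (F (x + s • e)) - ψ (F p)| ≤
          (a + ε) * ‖F (x + s • e) - F p‖ := by
        have h3 : Tendsto (fun s : ℝ => F (x + s • e)) (𝓝 t) (𝓝 (F p)) := hFγ.tendsto t
        exact h3.eventually h1
      have h2' : ∀ᶠ s in 𝓝 t, ‖F (x + s • e) - F p‖ ≤ (b + ε) * ‖(x + s • e) - p‖ := by
        have h3 : Tendsto (fun s : ℝ => x + s • e) (𝓝 t) (𝓝 p) := hγ.tendsto t
        exact h3.eventually h2
      filter_upwards [h1', h2'] with s hs1 hs2
      have h4 : ‖(x + s • e) - p‖ = |s - t| * ‖e‖ := by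
        rw [hp, add_sub_add_left_eq_sub, ← sub_smul, norm_smul, Real.norm_eq_abs]
      calc |ψ (F (x + s • e)) - ψ (F p)| ≤ (a + ε) * ‖F (x + s • e) - F p‖ := hs1
        _ ≤ (a + ε) * ((b + ε) * (|s - t| * ‖e‖)) := by
            rw [← h4]; gcongr
        _ = ((a + ε) * (b + ε) * ‖e‖) * |s - t| := by ring
        _ ≤ c * |s - t| := by gcongr

end H42DF
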