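import Pool.Agent.H42.DF.Defs

/-!
# B1 (TWOPT): integral over all segments between two sets in a ball

`X, Y ⊆ B = ball c R` measurable, `k ≥ 0` measurable, `n = dim E`:
`∫_e ∫_x 1[x ∈ X, x + e ∈ Y] ∫_0^1 k(x + t e) dt dx de ≤ 2^n |B| ∫_B k`.

Proof. Tonelli: the left side is `∫_0^1 (∫_e ∫_x 1[x ∈ X, x + e ∈ Y] k(x + t e) dx de) dt`; we bound the inner double
integral by `2^n |B| ∫_B k` for every `t ∈ [0,1]`. Substituting `y = x + e` (translation invariance, after
exchanging the integrals) it is `∫_{x ∈ X} ∫_{y ∈ Y} k((1-t) x + t y) dy dx`.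
 * `t ≤ 1/2`: for fixed `y ∈ Y` the affine map `x ↦ (1-t) x + t y` maps `X` into `B` (convexity), and
   `∫_{x ∈ X} k((1-t) x + t y) dx ≤ ∫_x (k 1_B)((1-t) x + t y) dx = (1-t)^{-n} ∫ k 1_B ≤ 2^n ∫_B k`
   (`Measure.lintegral_comp_smul`-type change of variables / `map_addHaar_smul`, translation invariance). Then
   integrate over `y ∈ Y ⊆ B`: factor `μ Y ≤ |B|`.
 * `t ≥ 1/2`: same with `x` fixed, `y ↦ (1-t) x + t y`, factor `t^{-n} ≤ 2^n`.
-/

set_option autoImplicit false

open MeasureTheory Metric Set Filter Topology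
open scoped ENNReal NNReal

namespace H42DF

variable {E : Type*} [NormedAddCommGroup E] [NormedSpace ℝ E] [FiniteDimensional ℝ E]
  [MeasurableSpace E] [BorelSpace E]

private theorem B1_scale (μ : Measure E) [μ.IsAddHaarMeasure] {r : ℝ} (hr : 1 / 2 ≤ r)
    (v : E) {f : E → ℝ≥0∞} (hf : Measurable f) :
    ∫⁻ x, f (r • x + v) ∂μ ≤ 2 ^ Module.finrank ℝ E * ∫⁻ x, f x ∂μ := by
  have hr0 : 0 < r := by linarith
  have h1 : ∫⁻ x, f (r • x + v) ∂μ = ∫⁻ x, f (x + v) ∂(Measure.map (r • ·) μ) := by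
    have h0 : Measurable fun x : E => f (x + v) := hf.comp (measurable_id.add_const v)
    rw [lintegral_map h0 (measurable_const_smul r)]
  rw [h1, Measure.map_addHaar_smul μ hr0.ne', lintegral_smul_measure,
    lintegral_add_right_eq_self (μ := μ) f v, smul_eq_mul]
  gcongr
  rw [abs_of_pos (by positivity), ← inv_pow]
  have h2 : r⁻¹ ≤ 2 := by
    rw [inv_le_comm₀ hr0 (by norm_num)]
    linarith
  calc ENNReal.ofReal (r⁻¹ ^ Module.finrank ℝ E)
      ≤ ENNReal.ofReal (2 ^ Module.finrank ℝ E) := by gcongr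
    _ = 2 ^ Module.finrank ℝ E := by
        rw [ENNReal.ofReal_pow (by norm_num)]
        simp

theorem twopt (μ : Measure E) [μ.IsAddHaarMeasure] (c : E) (R : ℝ) (X Y : Set E)
    (hX : MeasurableSet X) (hY : MeasurableSet Y) (hXB : X ⊆ ball c R) (hYB : Y ⊆ ball c R)
    (k : E → ℝ≥0∞) (hk : Measurable k) :
    ∫⁻ e, ∫⁻ x in {x | x ∈ X ∧ x + e ∈ Y}, (∫⁻ t in Icc (0 : ℝ) 1, k (x + t • e)) ∂μ ∂μ ≤
      2 ^ Module.finrank ℝ E * μ (ball c R) * ∫⁻ x in ball c R, k x ∂μ := by
  set B := ball c R with hB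
  set n := Module.finrank ℝ E with hn
  have hBm : MeasurableSet B := measurableSet_ball
  set a : E → ℝ≥0∞ := X.indicator 1 with ha
  set b : E → ℝ≥0∞ := Y.indicator 1 with hb
  have ham : Measurable a := measurable_one.indicator hX
  have hbm : Measurable b := measurable_one.indicator hY
  set kB : E → ℝ≥0∞ := B.indicator k with hkB
  have hkBm : Measurable kB := hk.indicator hBm
  have hkBint : ∫⁻ x, kB x ∂μ = ∫⁻ x in B, k x ∂μ := lintegral_indicator hBm _
  -- Step 1: indicator form
  have h1 : ∀ e, ∫⁻ x in {x | x ∈ X ∧ x + e ∈ Y}, (∫⁻ t in Icc (0 : ℝ) 1, k (x + t • e)) ∂μ =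
      ∫⁻ x, ∫⁻ t in Icc (0 : ℝ) 1, a x * b (x + e) * k (x + t • e) ∂volume ∂μ := by
    intro e
    have hm : MeasurableSet {x | x ∈ X ∧ x + e ∈ Y} :=
      hX.inter ((measurable_id.add_const e) hY)
    rw [← lintegral_indicator hm]
    refine lintegral_congr fun x => ?_
    have hkm : Measurable fun t : ℝ => k (x + t • e) :=
      hk.comp (measurable_const.add (measurable_id.smul_const e))
    rw [lintegral_const_mul _ hkm]
    by_cases hx : x ∈ X
    · by_cases hy : x + e ∈ Y
      · rw [indicator_of_mem (show x ∈ {x | x ∈ X ∧ x + e ∈ Y} from ⟨hx, hy⟩), ha, hb,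
          indicator_of_mem hx, indicator_of_mem hy]
        simp
      · rw [indicator_of_notMem (fun h => hy h.2), hb, indicator_of_notMem hy]
        simp
    · rw [indicator_of_notMem (fun h => hx h.1), ha, indicator_of_notMem hx]
      simp
  simp only [h1]
  -- measurability of the kernel
  have hΦ : Measurable fun p : (E × ℝ) × E => a p.2 * b (p.2 + p.1.1) * k (p.2 + p.1.2 • p.1.1) := by
    have c1 : Continuous fun p : (E × ℝ) × E => p.2 + p.1.1 := by fun_prop
    have c2 : Continuous fun p : (E × ℝ) × E => p.2 + p.1.2 • p.1.1 := by fun_prop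
    exact ((ham.comp measurable_snd).mul (hbm.comp c1.measurable)).mul (hk.comp c2.measurable)
  -- Step 2: swap
  have h2 : ∫⁻ e, (∫⁻ x, ∫⁻ t in Icc (0 : ℝ) 1, a x * b (x + e) * k (x + t • e) ∂volume ∂μ) ∂μ =
      ∫⁻ t in Icc (0 : ℝ) 1, (∫⁻ e, ∫⁻ x, a x * b (x + e) * k (x + t • e) ∂μ ∂μ) := by
    have h3 : ∀ e, ∫⁻ x, ∫⁻ t in Icc (0 : ℝ) 1, a x * b (x + e) * k (x + t • e) ∂volume ∂μ =
        ∫⁻ t in Icc (0 : ℝ) 1, ∫⁻ x, a x * b (x + e) * k (x + t • e) ∂μ := by
      intro e
      rw [lintegral_lintegral_swap]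
      have : Measurable fun p : E × ℝ => a p.1 * b (p.1 + e) * k (p.1 + p.2 • e) :=
        hΦ.comp ((measurable_const.prodMk measurable_snd).prodMk measurable_fst :
          Measurable fun p : E × ℝ => (((e, p.2), p.1) : (E × ℝ) × E))
      exact this.aemeasurable
    simp only [h3]
    rw [lintegral_lintegral_swap]
    exact (hΦ.lintegral_prod_right' (ν := μ)).aemeasurable
  rw [h2]
  -- Step 3: the bound for fixed `t`
  have h4 : ∀ t ∈ Icc (0 : ℝ) 1, ∫⁻ e, ∫⁻ x, a x * b (x + e) * k (x + t • e) ∂μ ∂μ ≤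
      2 ^ n * μ B * ∫⁻ x in B, k x ∂μ := by
    intro t ht
    have h5 : ∫⁻ e, ∫⁻ x, a x * b (x + e) * k (x + t • e) ∂μ ∂μ =
        ∫⁻ x, ∫⁻ y, a x * b y * k (x + t • (y - x)) ∂μ ∂μ := by
      rw [lintegral_lintegral_swap]
      · refine lintegral_congr fun x => ?_
        rw [← lintegral_sub_right_eq_self
          (fun e => a x * b (x + e) * k (x + t • e)) x]
        simp only [add_sub_cancel]
      · have : Measurable fun p : E × E => a p.2 * b (p.2 + p.1) * k (p.2 + t • p.1) :=
          hΦ.comp ((measurable_fst.prodMk measurable_const).prodMk measurable_snd :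
            Measurable fun p : E × E => (((p.1, t), p.2) : (E × ℝ) × E))
        exact this.aemeasurable
    rw [h5]
    have hpt : ∀ x y, a x * b y * k (x + t • (y - x)) ≤ a x * b y * kB ((1 - t) • x + t • y) := by
      intro x y
      by_cases hx : x ∈ X
      · by_cases hy : y ∈ Y
        · have h6 : x + t • (y - x) = (1 - t) • x + t • y := by
            rw [smul_sub, sub_smul, one_smul]; abel
          have h7 : (1 - t) • x + t • y ∈ B :=
            convex_ball c R (hXB hx) (hYB hy) (by linarith [ht.2]) ht.1 (by ring)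
          rw [h6, hkB, indicator_of_mem h7]
        · rw [hb, indicator_of_notMem hy]; simp
      · rw [ha, indicator_of_notMem hx]; simp
    have hab : ∀ s : Set E, MeasurableSet s → s ⊆ B → ∫⁻ x, s.indicator 1 x ∂μ ≤ μ B := by
      intro s hs hsB
      rw [lintegral_indicator_one hs]
      exact measure_mono hsB
    have hble : ∀ (s : Set E) (x : E), s.indicator (1 : E → ℝ≥0∞) x ≤ 1 := by
      intro s x
      exact indicator_le_self' (fun _ _ => zero_le) x
    rcases le_total t (1 / 2) with ht2 | ht2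
    · calc ∫⁻ x, ∫⁻ y, a x * b y * k (x + t • (y - x)) ∂μ ∂μ
          ≤ ∫⁻ x, ∫⁻ y, a x * b y * kB ((1 - t) • x + t • y) ∂μ ∂μ :=
            lintegral_mono fun x => lintegral_mono fun y => hpt x y
        _ ≤ ∫⁻ x, ∫⁻ y, b y * kB ((1 - t) • x + t • y) ∂μ ∂μ := by
            refine lintegral_mono fun x => lintegral_mono fun y => ?_
            simp only
            gcongr
            exact mul_le_of_le_one_left zero_le (hble X x)
        _ = ∫⁻ y, ∫⁻ x, b y * kB ((1 - t) • x + t • y) ∂μ ∂μ := by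
            rw [lintegral_lintegral_swap]
            have c2 : Continuous fun p : E × E => (1 - t) • p.1 + t • p.2 := by fun_prop
            exact ((hbm.comp measurable_snd).mul (hkBm.comp c2.measurable)).aemeasurable
        _ ≤ ∫⁻ y, b y * (2 ^ n * ∫⁻ x, kB x ∂μ) ∂μ := by
            refine lintegral_mono fun y => ?_
            have c2 : Continuous fun x : E => (1 - t) • x + t • y := by fun_prop
            have c3 : Measurable fun x : E => kB ((1 - t) • x + t • y) := hkBm.comp c2.measurable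
            simp only
            rw [lintegral_const_mul _ c3]
            gcongr
            exact B1_scale μ (by linarith) (t • y) hkBm
        _ = (∫⁻ y, b y ∂μ) * (2 ^ n * ∫⁻ x, kB x ∂μ) := lintegral_mul_const _ hbm
        _ ≤ μ B * (2 ^ n * ∫⁻ x, kB x ∂μ) := by
            gcongr
            exact hab Y hY hYB
        _ = _ := by rw [hkBint]; ring
    · calc ∫⁻ x, ∫⁻ y, a x * b y * k (x + t • (y - x)) ∂μ ∂μ
          ≤ ∫⁻ x, ∫⁻ y, a x * b y * kB ((1 - t) • x + t • y) ∂μ ∂μ :=
            lintegral_mono fun x => lintegral_mono fun y => hpt x y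
        _ ≤ ∫⁻ x, ∫⁻ y, a x * kB (t • y + (1 - t) • x) ∂μ ∂μ := by
            refine lintegral_mono fun x => lintegral_mono fun y => ?_
            simp only
            rw [add_comm (t • y)]
            gcongr
            exact mul_le_of_le_one_right zero_le (hble Y y)
        _ ≤ ∫⁻ x, a x * (2 ^ n * ∫⁻ y, kB y ∂μ) ∂μ := by
            refine lintegral_mono fun x => ?_
            have c2 : Continuous fun y : E => t • y + (1 - t) • x := by fun_prop
            have c3 : Measurable fun y : E => kB (t • y + (1 - t) • x) := hkBm.comp c2.measurable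
            simp only
            rw [lintegral_const_mul _ c3]
            gcongr
            exact B1_scale μ ht2 ((1 - t) • x) hkBm
        _ = (∫⁻ x, a x ∂μ) * (2 ^ n * ∫⁻ x, kB x ∂μ) := lintegral_mul_const _ ham
        _ ≤ μ B * (2 ^ n * ∫⁻ x, kB x ∂μ) := by
            gcongr
            exact hab X hX hXB
        _ = _ := by rw [hkBint]; ring
  calc ∫⁻ t in Icc (0 : ℝ) 1, (∫⁻ e, ∫⁻ x, a x * b (x + e) * k (x + t • e) ∂μ ∂μ)
      ≤ ∫⁻ t in Icc (0 : ℝ) 1, 2 ^ n * μ B * ∫⁻ x in B, k x ∂μ :=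
        setLIntegral_mono' measurableSet_Icc h4
    _ = _ := by
        rw [setLIntegral_const, Real.volume_Icc]
        simp

end H42DF
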