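import Pool.Agent.H42.DF.B1

/-!
# B2 (PAIR): two-point inequality

`X, Y ⊆ B = ball c R` measurable, `D : E → E → [0,∞]` jointly measurable, `h ≥ 0` measurable and for every `e`, for
a.e. `x`: `x ∈ X`, `x + e ∈ Y` imply `D x (x+e) ≤ ∫_0^1 ‖e‖ h(x + t e) dt`. Then (`n = dim E ≥ 1`)
`∫_X ∫_Y D^n ≤ (4R)^n |B| ∫_B h^n`.

Proof. `∫_{x∈X} ∫_{y∈Y} D(x,y)^n = ∫_e ∫_x 1[x ∈ X, x+e ∈ Y] D(x,x+e)^n` (translation invariance + Tonelli). For
`x ∈ X`, `x+e ∈ Y`: `‖e‖ ≤ 2R`, and by Jensen/Hölder on `[0,1]` (a probability measure)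
`(∫_0^1 ‖e‖ h)^n ≤ ‖e‖^n ∫_0^1 h^n ≤ (2R)^n ∫_0^1 h(x+te)^n dt` (`ENNReal.lintegral_...`: e.g.
`lintegral_rpow_nnorm...`, or Hölder `ENNReal.lintegral_mul_le_Lp_mul_Lq` against the constant `1`; `n = 1` trivial).
Now apply `twopt` with `k = h^n`: total `≤ (2R)^n 2^n |B| ∫_B h^n`. (If `R ≤ 0` the ball is empty and both sides
are `0`/trivial.)
-/

set_option autoImplicit false

open MeasureTheory Metric Set Filter Topology
open scoped ENNReal NNReal

namespace H42DF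

variable {E : Type*} [NormedAddCommGroup E] [NormedSpace ℝ E] [FiniteDimensional ℝ E]
  [MeasurableSpace E] [BorelSpace E]

theorem B2_jensen {n : ℕ} (hn : 1 ≤ n) {g : ℝ → ℝ≥0∞} (hg : Measurable g) :
    (∫⁻ t in Icc (0 : ℝ) 1, g t) ^ n ≤ ∫⁻ t in Icc (0 : ℝ) 1, g t ^ n := by
  rcases hn.eq_or_lt with rfl | hn1
  · simp
  · have hp : (1 : ℝ) < n := by exact_mod_cast hn1
    have hp0 : (0 : ℝ) < n := by linarith
    have hpq := Real.HolderConjugate.conjExponent hp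
    have h1 := ENNReal.lintegral_mul_le_Lp_mul_Lq (volume.restrict (Icc (0 : ℝ) 1)) hpq
      hg.aemeasurable (aemeasurable_const (b := (1 : ℝ≥0∞)))
    simp only [Pi.mul_apply, ENNReal.one_rpow, lintegral_const, Measure.restrict_apply MeasurableSet.univ,
      univ_inter, Real.volume_Icc, sub_zero, ENNReal.ofReal_one, mul_one] at h1
    have h3 := ENNReal.rpow_le_rpow h1 hp0.le
    rw [← ENNReal.rpow_mul, one_div_mul_cancel hp0.ne', ENNReal.rpow_one, ENNReal.rpow_natCast] at h3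
    refine h3.trans (le_of_eq ?_)
    refine lintegral_congr fun t => ?_
    rw [ENNReal.rpow_natCast]

theorem pair_bound (μ : Measure E) [μ.IsAddHaarMeasure] (hn : 1 ≤ Module.finrank ℝ E)
    (c : E) (R : ℝ) (X Y : Set E)
    (hX : MeasurableSet X) (hY : MeasurableSet Y) (hXB : X ⊆ ball c R) (hYB : Y ⊆ ball c R)
    (D : E → E → ℝ≥0∞) (hD : Measurable (fun p : E × E => D p.1 p.2))
    (h : E → ℝ≥0∞) (hh : Measurable h)
    (H : ∀ e : E, ∀ᵐ x ∂μ, x ∈ X → x + e ∈ Y →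
      D x (x + e) ≤ ∫⁻ t in Icc (0 : ℝ) 1, ENNReal.ofReal ‖e‖ * h (x + t • e)) :
    ∫⁻ x in X, (∫⁻ y in Y, D x y ^ Module.finrank ℝ E ∂μ) ∂μ ≤
      ENNReal.ofReal (4 * R) ^ Module.finrank ℝ E * μ (ball c R) *
        ∫⁻ x in ball c R, h x ^ Module.finrank ℝ E ∂μ := by
  classical
  set n := Module.finrank ℝ E with hndef
  have hDm : ∀ x, Measurable (fun y => D x y) := fun x => hD.comp (measurable_prodMk_left)
  -- the function of two variables
  set φ : E → E → ℝ≥0∞ := fun x y => X.indicator (fun x => Y.indicator (fun y => D x y ^ n) y) x with hφ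
  have hφm : Measurable (fun p : E × E => φ p.1 p.2) := by
    have e : (fun p : E × E => φ p.1 p.2) = (X ×ˢ Y).indicator (fun p => D p.1 p.2 ^ n) := by
      funext p
      rw [hφ]
      simp only [indicator_apply, mem_prod]
      by_cases h1 : p.1 ∈ X <;> by_cases h2 : p.2 ∈ Y <;> simp [h1, h2]
    rw [e]
    exact (hD.pow_const n).indicator (hX.prod hY)
  have h1 : ∫⁻ x in X, (∫⁻ y in Y, D x y ^ n ∂μ) ∂μ = ∫⁻ x, ∫⁻ y, φ x y ∂μ ∂μ := by
    rw [← lintegral_indicator hX]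
    refine lintegral_congr fun x => ?_
    rw [hφ]
    by_cases hx : x ∈ X
    · simp only [indicator_of_mem hx]
      rw [lintegral_indicator hY]
    · simp only [indicator_of_notMem hx, lintegral_zero]
  have h2 : ∫⁻ x, ∫⁻ y, φ x y ∂μ ∂μ = ∫⁻ x, ∫⁻ e, φ x (x + e) ∂μ ∂μ := by
    refine lintegral_congr fun x => ?_
    rw [lintegral_add_left_eq_self (fun y => φ x y) x]
  have h3 : ∫⁻ x, ∫⁻ e, φ x (x + e) ∂μ ∂μ = ∫⁻ e, ∫⁻ x, φ x (x + e) ∂μ ∂μ := by
    apply lintegral_lintegral_swap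
    apply Measurable.aemeasurable
    have : (Function.uncurry fun x e => φ x (x + e)) =
        (fun p : E × E => φ p.1 p.2) ∘ (fun p : E × E => (p.1, p.1 + p.2)) := rfl
    rw [this]
    exact hφm.comp (measurable_fst.prodMk (measurable_fst.add measurable_snd))
  have hR : ∀ x e : E, x ∈ X → x + e ∈ Y → ‖e‖ ≤ 2 * R := by
    intro x e hx he
    have a1 := mem_ball_iff_norm.mp (hXB hx)
    have a2 := mem_ball_iff_norm.mp (hYB he)
    have a3 : e = (x + e - c) - (x - c) := by abel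
    calc ‖e‖ = ‖(x + e - c) - (x - c)‖ := by rw [← a3]
      _ ≤ ‖x + e - c‖ + ‖x - c‖ := norm_sub_le _ _
      _ ≤ 2 * R := by linarith
  have hmeasS : ∀ e : E, MeasurableSet {x | x ∈ X ∧ x + e ∈ Y} := fun e =>
    hX.inter (measurable_add_const e hY)
  have h4 : ∀ e : E, ∫⁻ x, φ x (x + e) ∂μ ≤ ∫⁻ x in {x | x ∈ X ∧ x + e ∈ Y},
      ENNReal.ofReal (2 * R) ^ n * (∫⁻ t in Icc (0 : ℝ) 1, h (x + t • e) ^ n) ∂μ := by
    intro e
    rw [← lintegral_indicator (hmeasS e)]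
    apply lintegral_mono_ae
    filter_upwards [H e] with x hx
    by_cases hx1 : x ∈ X
    · by_cases hx2 : x + e ∈ Y
      · have hmem : x ∈ {x | x ∈ X ∧ x + e ∈ Y} := ⟨hx1, hx2⟩
        rw [indicator_of_mem hmem, hφ]
        simp only [indicator_of_mem hx1, indicator_of_mem hx2]
        have hg : Measurable (fun t : ℝ => h (x + t • e)) :=
          hh.comp (by fun_prop : Continuous fun t : ℝ => x + t • e).measurable
        calc D x (x + e) ^ n ≤ (∫⁻ t in Icc (0 : ℝ) 1, ENNReal.ofReal ‖e‖ * h (x + t • e)) ^ n := by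
              gcongr
              exact hx hx1 hx2
          _ = ENNReal.ofReal ‖e‖ ^ n * (∫⁻ t in Icc (0 : ℝ) 1, h (x + t • e)) ^ n := by
              rw [lintegral_const_mul' _ _ ENNReal.ofReal_ne_top, mul_pow]
          _ ≤ ENNReal.ofReal (2 * R) ^ n * ∫⁻ t in Icc (0 : ℝ) 1, h (x + t • e) ^ n := by
              gcongr
              · exact hR x e hx1 hx2
              · exact B2_jensen hn hg
      · rw [hφ]
        simp only [indicator_of_notMem hx2]
        simp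
    · rw [hφ]
      simp only [indicator_of_notMem hx1]
      simp
  have h5 := twopt μ c R X Y hX hY hXB hYB (fun x => h x ^ n) (hh.pow_const n)
  rw [h1, h2, h3]
  calc ∫⁻ e, ∫⁻ x, φ x (x + e) ∂μ ∂μ
      ≤ ∫⁻ e, ∫⁻ x in {x | x ∈ X ∧ x + e ∈ Y},
          ENNReal.ofReal (2 * R) ^ n * (∫⁻ t in Icc (0 : ℝ) 1, h (x + t • e) ^ n) ∂μ ∂μ :=
        lintegral_mono fun e => h4 e
    _ = ENNReal.ofReal (2 * R) ^ n * ∫⁻ e, ∫⁻ x in {x | x ∈ X ∧ x + e ∈ Y},
          (∫⁻ t in Icc (0 : ℝ) 1, h (x + t • e) ^ n) ∂μ ∂μ := by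
        have hne : ENNReal.ofReal (2 * R) ^ n ≠ ⊤ := ENNReal.pow_ne_top ENNReal.ofReal_ne_top
        rw [← lintegral_const_mul' _ _ hne]
        refine lintegral_congr fun e => ?_
        rw [lintegral_const_mul' _ _ hne]
    _ ≤ ENNReal.ofReal (2 * R) ^ n * (2 ^ n * μ (ball c R) * ∫⁻ x in ball c R, h x ^ n ∂μ) := by
        gcongr
    _ = _ := by
        have e : ENNReal.ofReal (4 * R) = ENNReal.ofReal (2 * R) * 2 := by
          rw [show 4 * R = 2 * (2 * R) by ring, ENNReal.ofReal_mul (by norm_num : (0 : ℝ) ≤ 2),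
            mul_comm]
          simp
        rw [e, mul_pow]
        ring

end H42DF
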