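import Pool.Agent.H42.DF.Defs

/-!
# B3: the slope of the truncated logarithm

**slopeFun_ps.** For `0 < s1 < s2`, `ψ = ps q s1 s2 = log (max s1 (min s2 ‖p - q‖))` and
`σ = sg q s1 s2 = 1_{s1 ≤ ‖p-q‖ ≤ s2} / ‖p - q‖` satisfy `SlopeFun ψ σ`: `log` is `1/s1`-Lipschitz on `[s1, ∞)` and
`p ↦ max s1 (min s2 ‖p-q‖)` is `1`-Lipschitz. Slope at `p`, `c > σ p`: if `‖p-q‖ < s1` or `> s2`, `ψ` is constant near
`p`, and `c > 0`. If `s1 ≤ ρ := ‖p-q‖ ≤ s2`: for `p'` near `p`, with `a = max s1 (min s2 ‖p'-q‖)`, `|a - ρ| ≤ ‖p' - p‖`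
(the truncation is `1`-Lipschitz and fixes `ρ`), and `|log a - log ρ| ≤ |a - ρ| / min(a, ρ)`, and
`1/min(a,ρ) → 1/ρ = σ p < c`.
**slopeFun_dist.** `ψ p = ‖p - q‖`, `σ = 1`.
-/

set_option autoImplicit false

open MeasureTheory Metric Set Filter Topology
open scoped ENNReal NNReal

namespace H42DF

variable {E : Type*} [NormedAddCommGroup E] [NormedSpace ℝ E] [FiniteDimensional ℝ E]
  [MeasurableSpace E] [BorelSpace E]

private theorem B3_log {a b m : ℝ} (hm : 0 < m) (ha : m ≤ a) (hb : m ≤ b) :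
    |Real.log a - Real.log b| ≤ m⁻¹ * |a - b| := by
  have key : ∀ a b : ℝ, m ≤ a → m ≤ b → Real.log a - Real.log b ≤ m⁻¹ * |a - b| := by
    intro a b ha hb
    have ha0 : 0 < a := lt_of_lt_of_le hm ha
    have hb0 : 0 < b := lt_of_lt_of_le hm hb
    rw [← Real.log_div ha0.ne' hb0.ne']
    have h1 : Real.log (a / b) ≤ a / b - 1 := Real.log_le_sub_one_of_pos (by positivity)
    have h2 : a / b - 1 = (a - b) / b := by field_simp
    have h3 : (a - b) / b ≤ m⁻¹ * |a - b| := by
      rw [div_le_iff₀ hb0]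
      have h4 : 1 ≤ m⁻¹ * b := by
        rw [← div_eq_inv_mul, one_le_div hm]
        exact hb
      have h5 : |a - b| ≤ m⁻¹ * b * |a - b| := le_mul_of_one_le_left (abs_nonneg _) h4
      calc a - b ≤ |a - b| := le_abs_self _
        _ ≤ m⁻¹ * b * |a - b| := h5
        _ = m⁻¹ * |a - b| * b := by ring
    linarith
  rw [abs_le]
  constructor
  · have := key b a hb ha
    rw [abs_sub_comm] at this
    linarith
  · exact key a b ha hb

private theorem B3_trunc (s1 s2 u v : ℝ) :
    |max s1 (min s2 u) - max s1 (min s2 v)| ≤ |u - v| := by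
  refine (abs_max_sub_max_le_max _ _ _ _).trans ?_
  rw [sub_self, abs_zero]
  refine max_le (abs_nonneg _) ((abs_min_sub_min_le_max _ _ _ _).trans ?_)
  rw [sub_self, abs_zero]
  exact max_le (abs_nonneg _) le_rfl

omit [NormedSpace ℝ E] [FiniteDimensional ℝ E] [MeasurableSpace E] [BorelSpace E] in
private theorem B3_phi (q : E) (s1 s2 : ℝ) (p p' : E) :
    |max s1 (min s2 ‖p' - q‖) - max s1 (min s2 ‖p - q‖)| ≤ ‖p' - p‖ := by
  refine (B3_trunc _ _ _ _).trans ((abs_norm_sub_norm_le _ _).trans ?_)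
  rw [sub_sub_sub_cancel_right]

theorem measurable_sg (q : E) (s1 s2 : ℝ) : Measurable (sg q s1 s2) := by
  classical
  unfold sg
  have hm : Measurable fun p : E => ‖p - q‖ := by fun_prop
  exact Measurable.ite ((measurableSet_le measurable_const hm).inter
    (measurableSet_le hm measurable_const)) hm.inv measurable_const

theorem slopeFun_ps (q : E) {s1 s2 : ℝ} (h1 : 0 < s1) (h2 : s1 < s2) :
    SlopeFun (ps q s1 s2) (sg q s1 s2) := by
  classical
  refine ⟨⟨⟨s1⁻¹, by positivity⟩, LipschitzWith.of_dist_le_mul fun x y => ?_⟩,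
    measurable_sg q s1 s2, fun p => ?_, fun p c hc => ?_⟩
  · rw [Real.dist_eq]
    refine (B3_log h1 (le_max_left _ _) (le_max_left _ _)).trans ?_
    rw [dist_eq_norm]
    exact mul_le_mul_of_nonneg_left (B3_phi q s1 s2 y x) (by positivity)
  · unfold sg
    split_ifs
    · positivity
    · exact le_rfl
  · have hcont : Continuous fun p' : E => ‖p' - q‖ := by fun_prop
    by_cases ha : ‖p - q‖ < s1
    · have hσ : sg q s1 s2 p = 0 := by
        unfold sg
        rw [if_neg]
        intro h
        linarith [h.1]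
      rw [hσ] at hc
      have hev : ∀ᶠ p' in 𝓝 p, ‖p' - q‖ < s1 := hcont.continuousAt.eventually (gt_mem_nhds ha)
      filter_upwards [hev] with p' hp'
      have e : ∀ p'' : E, ‖p'' - q‖ < s1 → ps q s1 s2 p'' = Real.log s1 := by
        intro p'' h
        unfold ps
        rw [max_eq_left ((min_le_right _ _).trans h.le)]
      rw [e p' hp', e p ha, sub_self, abs_zero]
      positivity
    · by_cases hb : s2 < ‖p - q‖
      · have hσ : sg q s1 s2 p = 0 := by
          unfold sg
          rw [if_neg]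
          intro h
          linarith [h.2]
        rw [hσ] at hc
        have hev : ∀ᶠ p' in 𝓝 p, s2 < ‖p' - q‖ := hcont.continuousAt.eventually (lt_mem_nhds hb)
        filter_upwards [hev] with p' hp'
        have e : ∀ p'' : E, s2 < ‖p'' - q‖ → ps q s1 s2 p'' = Real.log (max s1 s2) := by
          intro p'' h
          unfold ps
          rw [min_eq_left h.le]
        rw [e p' hp', e p hb, sub_self, abs_zero]
        positivity
      · push Not at ha hb
        have hρ : 0 < ‖p - q‖ := lt_of_lt_of_le h1 ha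
        have hσ : sg q s1 s2 p = ‖p - q‖⁻¹ := by
          unfold sg
          rw [if_pos ⟨ha, hb⟩]
        rw [hσ] at hc
        have hc0 : 0 < c := lt_trans (by positivity) hc
        have hcρ : c⁻¹ < ‖p - q‖ := by
          rw [inv_lt_comm₀ hc0 hρ]
          exact hc
        have hφ : max s1 (min s2 ‖p - q‖) = ‖p - q‖ := by
          rw [min_eq_right hb, max_eq_right ha]
        have hcont2 : Continuous fun p' : E => max s1 (min s2 ‖p' - q‖) := by fun_prop
        have hev : ∀ᶠ p' in 𝓝 p, c⁻¹ < max s1 (min s2 ‖p' - q‖) := by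
          refine hcont2.continuousAt.eventually (lt_mem_nhds ?_)
          show c⁻¹ < max s1 (min s2 ‖p - q‖)
          rw [hφ]
          exact hcρ
        filter_upwards [hev] with p' hp'
        have := B3_log (inv_pos.2 hc0) hp'.le (show c⁻¹ ≤ max s1 (min s2 ‖p - q‖) by
          rw [hφ]
          exact hcρ.le)
        rw [inv_inv] at this
        exact this.trans (mul_le_mul_of_nonneg_left (B3_phi q s1 s2 p p') hc0.le)

theorem slopeFun_dist (q : E) : SlopeFun (fun p : E => ‖p - q‖) (fun _ => 1) := by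
  refine ⟨⟨1, LipschitzWith.of_dist_le_mul fun x y => ?_⟩, measurable_const, fun p => zero_le_one,
    fun p c hc => Eventually.of_forall fun p' => ?_⟩
  · rw [Real.dist_eq, dist_eq_norm, NNReal.coe_one, one_mul]
    refine (abs_norm_sub_norm_le _ _).trans ?_
    rw [sub_sub_sub_cancel_right]
  · have h1 : |‖p' - q‖ - ‖p - q‖| ≤ ‖p' - p‖ := by
      refine (abs_norm_sub_norm_le _ _).trans ?_
      rw [sub_sub_sub_cancel_right]
    exact h1.trans (le_mul_of_one_le_left (norm_nonneg _) hc.le)

end H42DF
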