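import Pool.Agent.H42.DF.Defs

/-!
# B3b (POLAR)

**polar.** `∫ (sg q s1 s2 x)^n dμ ≤ n κ log(s2/s1)` for `0 < s1 < s2`, `n = dim E ≥ 1` (in fact equality): translate by
`q`, then polar coordinates for radial functions: Mathlib `MeasureTheory.Measure.lintegral_fun_norm_addHaar` (or
`integral_fun_norm_addHaar : ∫ f ‖x‖ ∂μ = dim E • μ.real (ball 0 1) • ∫ y in Ioi 0, y ^ (dim E - 1) • f y`), with
`f y = y^{-n}` on `[s1, s2]`, `0` elsewhere: `∫_{s1}^{s2} y^(n-1) y^{-n} dy = ∫ 1/y = log (s2/s1)`.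
-/

set_option autoImplicit false

open MeasureTheory Metric Set Filter Topology
open scoped ENNReal NNReal

namespace H42DF

variable {E : Type*} [NormedAddCommGroup E] [NormedSpace ℝ E] [FiniteDimensional ℝ E]
  [MeasurableSpace E] [BorelSpace E]

theorem polar (μ : Measure E) [μ.IsAddHaarMeasure] (hn : 1 ≤ Module.finrank ℝ E)
    (q : E) {s1 s2 : ℝ} (h1 : 0 < s1) (h2 : s1 < s2) :
    ∫⁻ x, ENNReal.ofReal (sg q s1 s2 x) ^ Module.finrank ℝ E ∂μ ≤
      ENNReal.ofReal (Module.finrank ℝ E * μ.real (ball (0 : E) 1) * Real.log (s2 / s1)) := by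
  classical
  have : Nontrivial E := Module.nontrivial_of_finrank_pos (R := ℝ) (by omega)
  set n := Module.finrank ℝ E with hnd
  have hn0 : n ≠ 0 := by omega
  set φ : ℝ → ℝ := (Icc s1 s2).indicator (fun y => (y⁻¹) ^ n) with hφ
  have hφ0 : ∀ y, 0 ≤ φ y := by
    intro y
    rw [hφ]
    apply indicator_nonneg
    intro y hy
    have : 0 < y := lt_of_lt_of_le h1 hy.1
    positivity
  have hsg : ∀ x : E, ENNReal.ofReal (sg q s1 s2 x) ^ n = ENNReal.ofReal (φ ‖x - q‖) := by
    intro x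
    unfold sg
    by_cases hx : s1 ≤ ‖x - q‖ ∧ ‖x - q‖ ≤ s2
    · rw [if_pos hx, hφ, indicator_of_mem (mem_Icc.2 hx), ENNReal.ofReal_pow (by positivity)]
    · rw [if_neg hx, hφ, indicator_of_notMem (fun hh => hx (mem_Icc.1 hh)), ENNReal.ofReal_zero,
        zero_pow hn0]
  have hker : ∀ y : ℝ, y ^ (n - 1) • φ y = (Icc s1 s2).indicator (fun y => y⁻¹) y := by
    intro y
    by_cases hy : y ∈ Icc s1 s2
    · have hypos : 0 < y := lt_of_lt_of_le h1 hy.1
      rw [hφ, indicator_of_mem hy, indicator_of_mem hy, smul_eq_mul]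
      have : n = (n - 1) + 1 := by omega
      rw [this, pow_succ, Nat.add_sub_cancel, inv_pow]
      field_simp
    · rw [hφ, indicator_of_notMem hy, indicator_of_notMem hy, smul_zero]
  have hcont : ContinuousOn (fun y : ℝ => y⁻¹) (Icc s1 s2) := by
    apply continuousOn_inv₀.mono
    intro y hy
    exact (lt_of_lt_of_le h1 hy.1).ne'
  have hsub : Icc s1 s2 ⊆ Ioi (0 : ℝ) := fun y hy => lt_of_lt_of_le h1 hy.1
  have hint : IntegrableOn (fun y : ℝ => y ^ (n - 1) • φ y) (Ioi 0) := by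
    simp only [hker]
    apply Integrable.integrableOn
    rw [integrable_indicator_iff measurableSet_Icc]
    exact hcont.integrableOn_Icc
  have hint2 : Integrable (fun x : E => φ ‖x‖) μ := (integrable_fun_norm_addHaar μ).2 hint
  have hval : ∫ y in Ioi (0 : ℝ), y ^ (n - 1) • φ y = Real.log (s2 / s1) := by
    simp only [hker]
    rw [setIntegral_indicator measurableSet_Icc, inter_eq_self_of_subset_right hsub,
      integral_Icc_eq_integral_Ioc, ← intervalIntegral.integral_of_le h2.le,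
      integral_inv_of_pos h1 (h1.trans h2)]
  calc ∫⁻ x, ENNReal.ofReal (sg q s1 s2 x) ^ n ∂μ
      = ∫⁻ x, ENNReal.ofReal (φ ‖x - q‖) ∂μ := by simp only [hsg]
    _ = ∫⁻ x, ENNReal.ofReal (φ ‖x‖) ∂μ :=
        lintegral_sub_right_eq_self (fun x => ENNReal.ofReal (φ ‖x‖)) q
    _ = ENNReal.ofReal (∫ x, φ ‖x‖ ∂μ) :=
        (ofReal_integral_eq_lintegral_ofReal hint2 (Eventually.of_forall fun x => hφ0 _)).symm
    _ = ENNReal.ofReal (n * μ.real (ball (0 : E) 1) * Real.log (s2 / s1)) := by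
        rw [integral_fun_norm_addHaar μ φ, ← hnd, hval, nsmul_eq_mul, smul_eq_mul, mul_assoc]
    _ ≤ _ := le_rfl

end H42DF
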