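import Pool.Agent.H42.DF.B2
import Pool.Agent.H42.DF.B3
import Pool.Agent.H42.DF.B3b

/-!
# B4 (LEMMA S)

`UG μ K F g`, `X, Y ⊆ B = ball c R` measurable, `‖F x - q‖ ≤ s1` on `X`, `s2 ≤ ‖F y - q‖` on `Y`, `0 < s1 < s2`,
`Λ = log (s2/s1) > 0`, `h x = ofReal (sg q s1 s2 (F x)) * g x`.

**lemS_local.** `|X| |Y| Λ^n ≤ (4R)^n |B| ∫_B h^n`: `pair_bound` with the constant kernel `D = ofReal Λ`; for
`x ∈ X`, `x + e ∈ Y` the functions `ψ = ps q s1 s2`, `σ = sg q s1 s2` have `ψ (F x) = log s1`,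
`ψ (F (x+e)) = log s2`, so `UG.line` says `ofReal Λ ≤ ∫_0^1 ofReal (σ(F(x+te)) ‖e‖) g(x+te) dt
= ∫_0^1 ofReal ‖e‖ * h (x+te) dt`.
**lemS_total.** `∫_E h^n ≤ K^n n κ Λ`: `UG.vol` with `s = univ`, `φ = ofReal (sg q s1 s2 ·)^n`, and `polar`.
**lemS_real.** Combine: `|X| |Y| Λ^n ≤ (4R)^n |B| K^n n κ Λ`, divide by `Λ`, `R^n κ = |B|`:
`|X| |Y| Λ^(n-1) ≤ n (4K)^n |B|²` in real numbers (`μ.real`; all volumes finite; `R > 0` wlog since otherwise `X = ∅`).
-/

set_option autoImplicit false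

open MeasureTheory Metric Set Filter Topology
open scoped ENNReal NNReal

namespace H42DF

variable {E : Type*} [NormedAddCommGroup E] [NormedSpace ℝ E] [FiniteDimensional ℝ E]
  [MeasurableSpace E] [BorelSpace E]

theorem lemS_local (μ : Measure E) [μ.IsAddHaarMeasure] (hn : 1 ≤ Module.finrank ℝ E)
    {K : ℝ} (F : E ≃ₜ E) {g : E → ℝ≥0∞} (hUG : UG μ K F g)
    (c q : E) (R : ℝ) {s1 s2 : ℝ} (h1 : 0 < s1) (h2 : s1 < s2) (X Y : Set E)
    (hX : MeasurableSet X) (hY : MeasurableSet Y) (hXB : X ⊆ ball c R) (hYB : Y ⊆ ball c R)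
    (hXs : ∀ x ∈ X, ‖F x - q‖ ≤ s1) (hYs : ∀ y ∈ Y, s2 ≤ ‖F y - q‖) :
    μ X * μ Y * ENNReal.ofReal (Real.log (s2 / s1)) ^ Module.finrank ℝ E ≤
      ENNReal.ofReal (4 * R) ^ Module.finrank ℝ E * μ (ball c R) *
        ∫⁻ x in ball c R, (ENNReal.ofReal (sg q s1 s2 (F x)) * g x) ^ Module.finrank ℝ E ∂μ := by
  have hs2 : 0 < s2 := h1.trans h2
  have hsg := slopeFun_ps q h1 h2
  have hmeas : Measurable fun x => ENNReal.ofReal (sg q s1 s2 (F x)) * g x :=
    ((hsg.meas.comp F.continuous.measurable).ennreal_ofReal).mul hUG.meas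
  have key := pair_bound μ hn c R X Y hX hY hXB hYB
    (fun _ _ => ENNReal.ofReal (Real.log (s2 / s1))) measurable_const
    (fun x => ENNReal.ofReal (sg q s1 s2 (F x)) * g x) hmeas ?_
  · calc μ X * μ Y * ENNReal.ofReal (Real.log (s2 / s1)) ^ Module.finrank ℝ E
        = ∫⁻ x in X, (∫⁻ y in Y, ENNReal.ofReal (Real.log (s2 / s1)) ^
            Module.finrank ℝ E ∂μ) ∂μ := by
          rw [setLIntegral_const, setLIntegral_const]
          ring
      _ ≤ _ := key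
  · intro e
    filter_upwards [hUG.line e] with x hx hxX hxY
    have h3 := hx (ps q s1 s2) (sg q s1 s2) hsg
    have h4 : ps q s1 s2 (F x) = Real.log s1 := by
      unfold ps
      rw [min_eq_right ((hXs x hxX).trans h2.le), max_eq_left (hXs x hxX)]
    have h5 : ps q s1 s2 (F (x + e)) = Real.log s2 := by
      unfold ps
      rw [min_eq_left (hYs _ hxY), max_eq_right h2.le]
    rw [h4, h5, ← Real.log_div hs2.ne' h1.ne',
      abs_of_nonneg (Real.log_nonneg ((one_le_div h1).2 h2.le))] at h3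
    refine h3.trans (lintegral_mono fun t => ?_)
    simp only
    rw [ENNReal.ofReal_mul (hsg.nonneg _)]
    exact le_of_eq (by ring)

theorem lemS_total (μ : Measure E) [μ.IsAddHaarMeasure] (hn : 1 ≤ Module.finrank ℝ E)
    {K : ℝ} (F : E ≃ₜ E) {g : E → ℝ≥0∞} (hUG : UG μ K F g)
    (q : E) {s1 s2 : ℝ} (h1 : 0 < s1) (h2 : s1 < s2) :
    ∫⁻ x, (ENNReal.ofReal (sg q s1 s2 (F x)) * g x) ^ Module.finrank ℝ E ∂μ ≤
      ENNReal.ofReal K ^ Module.finrank ℝ E *
      ENNReal.ofReal (Module.finrank ℝ E * μ.real (ball (0 : E) 1) * Real.log (s2 / s1)) := by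
  have h3 := hUG.vol univ MeasurableSet.univ
    (fun p => ENNReal.ofReal (sg q s1 s2 p) ^ Module.finrank ℝ E)
    ((measurable_sg q s1 s2).ennreal_ofReal.pow_const _)
  rw [Measure.restrict_univ, image_univ, F.surjective.range_eq, Measure.restrict_univ] at h3
  calc ∫⁻ x, (ENNReal.ofReal (sg q s1 s2 (F x)) * g x) ^ Module.finrank ℝ E ∂μ
      = ∫⁻ x, ENNReal.ofReal (sg q s1 s2 (F x)) ^ Module.finrank ℝ E *
          g x ^ Module.finrank ℝ E ∂μ := by simp only [mul_pow]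
    _ ≤ ENNReal.ofReal K ^ Module.finrank ℝ E *
        ∫⁻ x, ENNReal.ofReal (sg q s1 s2 x) ^ Module.finrank ℝ E ∂μ := h3
    _ ≤ _ := by
      gcongr
      exact polar μ hn q h1 h2

theorem lemS_real (μ : Measure E) [μ.IsAddHaarMeasure] (hn : 1 ≤ Module.finrank ℝ E)
    {K : ℝ} (hK : 1 ≤ K) (F : E ≃ₜ E) {g : E → ℝ≥0∞} (hUG : UG μ K F g)
    (c q : E) (R : ℝ) {s1 s2 : ℝ} (h1 : 0 < s1) (h2 : s1 < s2) (X Y : Set E)
    (hX : MeasurableSet X) (hY : MeasurableSet Y) (hXB : X ⊆ ball c R) (hYB : Y ⊆ ball c R)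
    (hXs : ∀ x ∈ X, ‖F x - q‖ ≤ s1) (hYs : ∀ y ∈ Y, s2 ≤ ‖F y - q‖) :
    μ.real X * μ.real Y * Real.log (s2 / s1) ^ (Module.finrank ℝ E - 1) ≤
      Module.finrank ℝ E * (4 * K) ^ Module.finrank ℝ E * μ.real (ball c R) ^ 2 := by
  set n := Module.finrank ℝ E with hn'
  have hs2 : 0 < s2 := h1.trans h2
  set Λ := Real.log (s2 / s1) with hΛ
  have hΛ0 : 0 < Λ := Real.log_pos ((one_lt_div h1).2 h2)
  have hfX : μ X ≠ ∞ := ((measure_mono hXB).trans_lt measure_ball_lt_top).ne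
  have hfY : μ Y ≠ ∞ := ((measure_mono hYB).trans_lt measure_ball_lt_top).ne
  have hfB : μ (ball c R) ≠ ∞ := measure_ball_lt_top.ne
  rcases lt_or_ge R 0 with hR | hR
  · have : ball c R = ∅ := ball_eq_empty.2 hR.le
    rw [this] at hXB
    have hXe : X = ∅ := subset_empty_iff.1 hXB
    rw [hXe, measureReal_empty, zero_mul, zero_mul]
    positivity
  have hA := (lemS_local μ hn F hUG c q R h1 h2 X Y hX hY hXB hYB hXs hYs).trans
    (mul_le_mul_right ((setLIntegral_le_lintegral _ _).trans (lemS_total μ hn F hUG q h1 h2)) _)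
  rw [← hn', ← hΛ] at hA
  set κ := μ.real (ball (0 : E) 1) with hκ
  have hκ0 : 0 ≤ κ := measureReal_nonneg
  have hrhs : ENNReal.ofReal (4 * R) ^ n * μ (ball c R) *
      (ENNReal.ofReal K ^ n * ENNReal.ofReal (n * κ * Λ)) =
      ENNReal.ofReal ((4 * R) ^ n * μ.real (ball c R) * (K ^ n * (n * κ * Λ))) := by
    have e1 : μ (ball c R) = ENNReal.ofReal (μ.real (ball c R)) :=
      (ENNReal.ofReal_toReal hfB).symm
    rw [e1, ← ENNReal.ofReal_pow (by positivity), ← ENNReal.ofReal_pow (by positivity),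
      ← ENNReal.ofReal_mul (by positivity), ← ENNReal.ofReal_mul (by positivity),
      ← ENNReal.ofReal_mul (by positivity)]
  have hlhs : μ X * μ Y * ENNReal.ofReal Λ ^ n = ENNReal.ofReal (μ.real X * μ.real Y * Λ ^ n) := by
    rw [ENNReal.ofReal_mul (by positivity), ENNReal.ofReal_mul (by positivity),
      ENNReal.ofReal_pow (by positivity), Measure.real, Measure.real, ENNReal.ofReal_toReal hfX,
      ENNReal.ofReal_toReal hfY]
  rw [hrhs, hlhs, ENNReal.ofReal_le_ofReal_iff (by positivity)] at hA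
  have hball : μ.real (ball c R) = R ^ n * κ := by
    have : Nontrivial E := Module.nontrivial_of_finrank_pos (R := ℝ) (by omega)
    rw [Measure.real, Measure.addHaar_ball μ c hR, ENNReal.toReal_mul,
      ENNReal.toReal_ofReal (by positivity)]
    rfl
  obtain ⟨m, hm⟩ : ∃ m, n = m + 1 := ⟨n - 1, by omega⟩
  have hB : (μ.real X * μ.real Y * Λ ^ (n - 1)) * Λ ≤
      (n * (4 * K) ^ n * μ.real (ball c R) ^ 2) * Λ := by
    calc (μ.real X * μ.real Y * Λ ^ (n - 1)) * Λ = μ.real X * μ.real Y * Λ ^ n := by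
          rw [hm, Nat.add_sub_cancel, pow_succ]; ring
      _ ≤ _ := hA
      _ = _ := by
          rw [hball, mul_pow 4 R, mul_pow 4 K]; ring
  exact le_of_mul_le_mul_right hB hΛ0

end H42DF
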