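import Pool.Agent.H42.DF.Defs

/-!
# CST: elementary facts about the constants (`K ≥ 1`)

`M1 K = exp((32K)²) > 1` (in fact `> 2`), `C1 K = 16 K (M1 K + 1) ≥ 1`, `2 ^ ⌈x⌉₊ > ⌈x⌉₊ ≥ x`, etc.
`cc K = (M1 K ^ i')⁻¹ / 2` with `M1 K ^ i' * (2 * cc K) = 1`.
`DD K = 4 K (MM K)² C1 K / cc K ≥ 1`.
**dd_ineq**: `n D^n < (2D)^(2(n-1))` written as `((2D)²)^(n-1)`, for `n ≥ 2`, `D ≥ 1`: `n < 2^n`, `n ≤ 2(n-1)`.
-/

set_option autoImplicit false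

namespace H42DF

theorem one_lt_M1 {K : ℝ} (hK : 1 ≤ K) : 2 < M1 K := by
  have h1 : (32 * K) ^ 2 + 1 ≤ M1 K := Real.add_one_le_exp _
  nlinarith

theorem one_le_C1 {K : ℝ} (hK : 1 ≤ K) : 1 ≤ C1 K := by
  have h1 := one_lt_M1 hK
  unfold C1
  nlinarith

private theorem CST_ceil (x : ℝ) (hx : 0 ≤ x) : x < 2 ^ ⌈x⌉₊ := by
  have h1 : x ≤ ⌈x⌉₊ := Nat.le_ceil x
  have h2 : (⌈x⌉₊ : ℝ) < 2 ^ ⌈x⌉₊ := by exact_mod_cast Nat.lt_two_pow_self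
  linarith

theorem two_pow_MM {K : ℝ} (hK : 1 ≤ K) : 4 * C1 K < 2 ^ ⌈4 * C1 K⌉₊ := by
  have := one_le_C1 hK
  exact CST_ceil _ (by linarith)

theorem two_pow_A0 {K : ℝ} (hK : 1 ≤ K) : 2 * C1 K < 2 ^ ⌈2 * C1 K⌉₊ := by
  have := one_le_C1 hK
  exact CST_ceil _ (by linarith)

private theorem CST_one_le_pow {K : ℝ} (hK : 1 ≤ K) (m : ℕ) : 1 ≤ M1 K ^ m :=
  one_le_pow₀ (by linarith [one_lt_M1 hK])

theorem two_le_MM {K : ℝ} (hK : 1 ≤ K) : 2 ≤ MM K := by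
  have := CST_one_le_pow hK ⌈4 * C1 K⌉₊
  unfold MM
  linarith

theorem four_le_A0 {K : ℝ} (hK : 1 ≤ K) : 4 ≤ A0 K := by
  have := CST_one_le_pow hK ⌈2 * C1 K⌉₊
  unfold A0
  linarith

theorem two_pow_cc {K : ℝ} (hK : 1 ≤ K) : 2 * C1 K * A0 K < 2 ^ ⌈2 * C1 K * A0 K⌉₊ := by
  have h1 := one_le_C1 hK
  have h2 := four_le_A0 hK
  exact CST_ceil _ (by positivity)

theorem cc_pos {K : ℝ} (hK : 1 ≤ K) : 0 < cc K := by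
  have := CST_one_le_pow hK ⌈2 * C1 K * A0 K⌉₊
  unfold cc
  positivity

theorem cc_le {K : ℝ} (hK : 1 ≤ K) : cc K ≤ 1 / 2 := by
  have := CST_one_le_pow hK ⌈2 * C1 K * A0 K⌉₊
  have h2 : (M1 K ^ ⌈2 * C1 K * A0 K⌉₊)⁻¹ ≤ 1 := inv_le_one_of_one_le₀ this
  unfold cc
  linarith

theorem M1_pow_cc {K : ℝ} (hK : 1 ≤ K) :
    M1 K ^ ⌈2 * C1 K * A0 K⌉₊ * (2 * cc K) = 1 := by
  have := CST_one_le_pow hK ⌈2 * C1 K * A0 K⌉₊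
  unfold cc
  field_simp

theorem one_le_DD {K : ℝ} (hK : 1 ≤ K) : 1 ≤ DD K := by
  have h1 := two_le_MM hK
  have h2 := one_le_C1 hK
  have h3 := cc_pos hK
  have h4 := cc_le hK
  unfold DD
  rw [le_div_iff₀ h3]
  have h5 : (1 : ℝ) ≤ MM K ^ 2 := by nlinarith
  have h6 : (4 : ℝ) ≤ 4 * K * MM K ^ 2 := by nlinarith
  nlinarith

private theorem CST_lt_two_pow (n : ℕ) : (n : ℝ) < 2 ^ n := by exact_mod_cast Nat.lt_two_pow_self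

theorem dd_ineq {D : ℝ} (hD : 1 ≤ D) {n : ℕ} (hn : 2 ≤ n) :
    (n : ℝ) * D ^ n < ((2 * D) ^ 2) ^ (n - 1) := by
  have h0 : 0 < D ^ n := by positivity
  calc (n : ℝ) * D ^ n < 2 ^ n * D ^ n := by gcongr; exact CST_lt_two_pow n
    _ = (2 * D) ^ n := (mul_pow _ _ _).symm
    _ ≤ (2 * D) ^ (2 * (n - 1)) := pow_le_pow_right₀ (by linarith) (by omega)
    _ = ((2 * D) ^ 2) ^ (n - 1) := pow_mul _ _ _

theorem growth_ineq {K : ℝ} (hK : 1 ≤ K) {n : ℕ} (hn : 2 ≤ n) :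
    2 * (n : ℝ) * (8 * K) ^ n * 2 ^ n ≤ ((32 * K) ^ 2) ^ (n - 1) := by
  have h1 : 2 * (n : ℝ) ≤ 2 ^ n := by
    have : 2 * n ≤ 2 ^ n := by
      obtain ⟨m, rfl⟩ : ∃ m, n = m + 1 := ⟨n - 1, by omega⟩
      rw [pow_succ, mul_comm 2 (m + 1)]
      exact Nat.mul_le_mul_right 2 Nat.lt_two_pow_self
    exact_mod_cast this
  calc 2 * (n : ℝ) * (8 * K) ^ n * 2 ^ n ≤ 2 ^ n * (8 * K) ^ n * 2 ^ n := by gcongr
    _ = (32 * K) ^ n := by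
        rw [← mul_pow, ← mul_pow]
        ring_nf
    _ ≤ (32 * K) ^ (2 * (n - 1)) := pow_le_pow_right₀ (by linarith) (by omega)
    _ = ((32 * K) ^ 2) ^ (n - 1) := pow_mul _ _ _

end H42DF
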