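import Pool.Agent.H42.DF.Defs

/-!
# V0: elementary properties of the volume radius `vr μ F z r = (|F(B(z,r))| / κ)^(1/n)`

`F` a homeomorphism of the finite-dimensional `E`, `n = dim E ≥ 1`. `F '' ball z r` is open and contained in the compact
set `F '' closedBall z r`, so it has finite measure, positive for `r > 0`. `|ball w s| = s^n κ` for `s ≥ 0`
(`Measure.addHaar_ball`, `addHaar_closedBall`).
-/

set_option autoImplicit false

open MeasureTheory Metric Set Filter Topology
open scoped ENNReal NNReal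

namespace H42DF

variable {E : Type*} [NormedAddCommGroup E] [NormedSpace ℝ E] [FiniteDimensional ℝ E]
  [MeasurableSpace E] [BorelSpace E]

theorem measure_image_ball_lt_top (μ : Measure E) [μ.IsAddHaarMeasure] (F : E ≃ₜ E) (z : E)
    (r : ℝ) : μ (F '' ball z r) < ∞ := by
  have h : IsCompact (F '' closedBall z r) := (isCompact_closedBall z r).image F.continuous
  exact (measure_mono (image_mono ball_subset_closedBall)).trans_lt h.measure_lt_top

theorem measure_image_ball_pos (μ : Measure E) [μ.IsAddHaarMeasure] (F : E ≃ₜ E) (z : E)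
    {r : ℝ} (hr : 0 < r) : 0 < μ (F '' ball z r) :=
  (F.isOpenMap _ isOpen_ball).measure_pos μ ((nonempty_ball.2 hr).image F)

theorem kappa_pos (μ : Measure E) [μ.IsAddHaarMeasure] : 0 < μ.real (ball (0 : E) 1) :=
  ENNReal.toReal_pos (measure_ball_pos μ 0 one_pos).ne' measure_ball_lt_top.ne

theorem real_ball (μ : Measure E) [μ.IsAddHaarMeasure] (c : E) {R : ℝ} (hR : 0 ≤ R)
    (hn : 1 ≤ Module.finrank ℝ E) :
    μ.real (ball c R) = R ^ Module.finrank ℝ E * μ.real (ball (0 : E) 1) := by
  have : Nontrivial E := Module.nontrivial_of_finrank_pos (R := ℝ) (by omega)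
  rw [Measure.real, Measure.addHaar_ball μ c hR, ENNReal.toReal_mul,
    ENNReal.toReal_ofReal (by positivity)]
  rfl

theorem vr_nonneg (μ : Measure E) (F : E → E) (z : E) (r : ℝ) : 0 ≤ vr μ F z r :=
  Real.rpow_nonneg (div_nonneg measureReal_nonneg measureReal_nonneg) _

theorem vr_pow (μ : Measure E) [μ.IsAddHaarMeasure] (hn : 1 ≤ Module.finrank ℝ E)
    (F : E ≃ₜ E) (z : E) (r : ℝ) :
    vr μ F z r ^ Module.finrank ℝ E * μ.real (ball (0 : E) 1) = μ.real (F '' ball z r) := by
  rw [vr, Real.rpow_inv_natCast_pow (div_nonneg measureReal_nonneg measureReal_nonneg) (by omega),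
    div_mul_cancel₀ _ (kappa_pos μ).ne']

theorem vr_mono (μ : Measure E) [μ.IsAddHaarMeasure] (F : E ≃ₜ E) {z z' : E} {r r' : ℝ}
    (h : ball z r ⊆ ball z' r') : vr μ F z r ≤ vr μ F z' r' := by
  unfold vr
  refine Real.rpow_le_rpow (div_nonneg measureReal_nonneg measureReal_nonneg) ?_ (by positivity)
  refine div_le_div_of_nonneg_right ?_ (kappa_pos μ).le
  exact measureReal_mono (image_mono h) (measure_image_ball_lt_top μ F z' r').ne

theorem vr_le (μ : Measure E) [μ.IsAddHaarMeasure] (hn : 1 ≤ Module.finrank ℝ E)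
    (F : E ≃ₜ E) {z w : E} {r s : ℝ} (hs : 0 ≤ s) (h : F '' ball z r ⊆ closedBall w s) :
    vr μ F z r ≤ s := by
  have h1 : vr μ F z r ^ Module.finrank ℝ E ≤ s ^ Module.finrank ℝ E := by
    have h2 : vr μ F z r ^ Module.finrank ℝ E * μ.real (ball (0 : E) 1) ≤
        s ^ Module.finrank ℝ E * μ.real (ball (0 : E) 1) := by
      rw [vr_pow μ hn]
      calc μ.real (F '' ball z r) ≤ μ.real (closedBall w s) :=
            measureReal_mono h measure_closedBall_lt_top.ne
        _ = s ^ Module.finrank ℝ E * μ.real (ball (0 : E) 1) := by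
            rw [Measure.real, Measure.addHaar_closedBall μ w hs, ENNReal.toReal_mul,
              ENNReal.toReal_ofReal (by positivity)]
            rfl
    exact le_of_mul_le_mul_right h2 (kappa_pos μ)
  exact (pow_le_pow_iff_left₀ (vr_nonneg μ F z r) hs (by omega)).1 h1

theorem le_vr (μ : Measure E) [μ.IsAddHaarMeasure] (hn : 1 ≤ Module.finrank ℝ E)
    (F : E ≃ₜ E) {z w : E} {r s : ℝ} (hs : 0 ≤ s) (h : ball w s ⊆ F '' ball z r) :
    s ≤ vr μ F z r := by
  have h1 : s ^ Module.finrank ℝ E ≤ vr μ F z r ^ Module.finrank ℝ E := by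
    have h2 : s ^ Module.finrank ℝ E * μ.real (ball (0 : E) 1) ≤
        vr μ F z r ^ Module.finrank ℝ E * μ.real (ball (0 : E) 1) := by
      rw [vr_pow μ hn, ← real_ball μ w hs hn]
      exact measureReal_mono h (measure_image_ball_lt_top μ F z r).ne
    exact le_of_mul_le_mul_right h2 (kappa_pos μ)
  exact (pow_le_pow_iff_left₀ hs (vr_nonneg μ F z r) (by omega)).1 h1

end H42DF
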