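import Pool.Agent.H42.DF.B4
import Pool.Agent.H42.DF.V0
import Pool.Agent.H42.DF.CST

/-!
# B5 (GROWTH): `vr F z (M₁ ρ) ≥ 2 vr F z ρ`

Let `G = F⁻¹` with `UG μ K G g'`, `M = M1 K = exp((32K)²)`, `Λ = log M = (32K)²`, `n = dim E ≥ 2`. Let
`U = F '' ball z ρ ⊆ W = F '' ball z (M ρ)` (open, bounded, of positive finite volume). Choose `R > 0` with
`κ R^n = 2^n |W|`. For `y₀ ∈ E` put `B = ball y₀ R` (`|B| = 2^n |W|`), `X = U ∩ B`, `Y = B \ W`; then
`|Y| ≥ |B| - |W| ≥ |B|/2`. For `y ∈ X`: `‖G y - z‖ < ρ`, for `y ∈ Y`: `‖G y - z‖ ≥ M ρ`. `lemS_local` (for `G`, `q = z`,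
`s1 = ρ`, `s2 = M ρ`): `|U ∩ B| (|B|/2) Λ^n ≤ (4R)^n |B| ∫_{B} h^n`, i.e. (dividing by `|B|`)
`|U ∩ ball y₀ R| Λ^n ≤ 2 (4R)^n ∫_{ball y₀ R} h^n`. Integrate over `y₀ ∈ E`:
`∫_{y₀} |U ∩ ball y₀ R| = |U| |B|`, `∫_{y₀} ∫_{ball y₀ R} h^n = |B| ∫_E h^n` (Tonelli; `y ∈ ball y₀ R ↔ y₀ ∈ ball y R`).
With `lemS_total`: `|U| Λ^n ≤ 2 (4R)^n K^n n κ Λ`, so `|U| Λ^(n-1) ≤ 2 n (4K)^n κ R^n = 2 n (8K)^n |W|`.
Since `Λ^(n-1) = (32K)^(2(n-1)) ≥ (32K)^n = 2^n (16K)^n ≥ 2n (8K)^n 2^n` (`2 n ≤ 2^n` for `n ≥ 2`,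
`(16K)^n = 2^n (8K)^n`), `|U| 2^n ≤ |W|`. Take `n`-th roots.

**vr_growth_pow** by induction.
-/

set_option autoImplicit false

open MeasureTheory Metric Set Filter Topology
open scoped ENNReal NNReal

namespace H42DF

variable {E : Type*} [NormedAddCommGroup E] [NormedSpace ℝ E] [FiniteDimensional ℝ E]
  [MeasurableSpace E] [BorelSpace E]

private theorem B5_tonelli (μ : Measure E) [μ.IsAddHaarMeasure] (R : ℝ) (k : E → ℝ≥0∞)
    (hk : Measurable k) :
    ∫⁻ y₀, ∫⁻ y in ball y₀ R, k y ∂μ ∂μ = μ (ball (0 : E) R) * ∫⁻ y, k y ∂μ := by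
  have h1 : ∀ y₀ : E, ∫⁻ y in ball y₀ R, k y ∂μ = ∫⁻ y, (ball y₀ R).indicator k y ∂μ := fun y₀ =>
    (lintegral_indicator measurableSet_ball _).symm
  simp only [h1]
  rw [lintegral_lintegral_swap]
  · have h2 : ∀ y : E, ∫⁻ y₀, (ball y₀ R).indicator k y ∂μ = μ (ball (0 : E) R) * k y := by
      intro y
      have h3 : ∀ y₀ : E, (ball y₀ R).indicator k y = (ball y R).indicator (fun _ => k y) y₀ := by
        intro y₀
        by_cases h : dist y y₀ < R
        · rw [indicator_of_mem (show y ∈ ball y₀ R from h),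
            indicator_of_mem (show y₀ ∈ ball y R by rw [mem_ball, dist_comm]; exact h)]
        · rw [indicator_of_notMem (show y ∉ ball y₀ R from h),
            indicator_of_notMem (show y₀ ∉ ball y R by rw [mem_ball, dist_comm]; exact h)]
      simp only [h3]
      rw [lintegral_indicator measurableSet_ball, setLIntegral_const, mul_comm,
        Measure.addHaar_ball_center]
    simp only [h2]
    rw [lintegral_const_mul _ hk]
  · apply Measurable.aemeasurable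
    have h4 : (Function.uncurry fun y₀ y => (ball y₀ R).indicator k y) =
        {q : E × E | dist q.2 q.1 < R}.indicator (fun q : E × E => k q.2) := by
      funext q
      simp only [Function.uncurry, indicator_apply]
      rfl
    rw [h4]
    refine (hk.comp measurable_snd).indicator ?_
    exact (isOpen_lt (continuous_snd.dist continuous_fst) continuous_const).measurableSet

theorem vr_growth (μ : Measure E) [μ.IsAddHaarMeasure] (hn : 2 ≤ Module.finrank ℝ E)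
    {K : ℝ} (hK : 1 ≤ K) (F : E ≃ₜ E) {g : E → ℝ≥0∞} (hUG : UG μ K F.symm g)
    (z : E) {ρ : ℝ} (hρ : 0 < ρ) : 2 * vr μ F z ρ ≤ vr μ F z (M1 K * ρ) := by
  have hn1 : 1 ≤ Module.finrank ℝ E := by omega
  have hM := one_lt_M1 hK
  set n := Module.finrank ℝ E with hndef
  set κ := μ.real (ball (0 : E) 1) with hκdef
  have hκ : 0 < κ := kappa_pos μ
  have hs2 : ρ < M1 K * ρ := by nlinarith
  have hs20 : 0 < M1 K * ρ := by linarith
  set U := F '' ball z ρ with hU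
  set W := F '' ball z (M1 K * ρ) with hW
  have hUm : MeasurableSet U := (F.isOpenMap _ isOpen_ball).measurableSet
  have hWm : MeasurableSet W := (F.isOpenMap _ isOpen_ball).measurableSet
  have hUf : μ U < ∞ := measure_image_ball_lt_top μ F z ρ
  have hWf : μ W < ∞ := measure_image_ball_lt_top μ F z _
  have hWp : 0 < μ W := measure_image_ball_pos μ F z hs20
  have hWr : 0 < μ.real W := ENNReal.toReal_pos hWp.ne' hWf.ne
  set v := vr μ F z (M1 K * ρ) with hv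
  have hv0 : 0 ≤ v := vr_nonneg μ F z _
  have hvW : v ^ n * κ = μ.real W := vr_pow μ hn1 F z _
  have hvpos : 0 < v := by
    rcases hv0.eq_or_lt with h | h
    · rw [← h, zero_pow (by omega), zero_mul] at hvW
      linarith
    · exact h
  set R := 2 * v with hR
  have hR0 : 0 < R := by positivity
  have hb : ∀ y : E, μ (ball y R) = μ (ball (0 : E) R) := fun y => Measure.addHaar_ball_center μ y R
  have hbf : μ (ball (0 : E) R) ≠ ∞ := measure_ball_lt_top.ne
  have hb0 : μ (ball (0 : E) R) ≠ 0 := (measure_ball_pos μ 0 hR0).ne'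
  have hbr : μ.real (ball (0 : E) R) = 2 ^ n * μ.real W := by
    rw [real_ball μ 0 hR0.le hn1, hR, mul_pow, mul_assoc, hvW]
  set Λ := Real.log (M1 K * ρ / ρ) with hΛ
  have hΛ' : Λ = (32 * K) ^ 2 := by
    rw [hΛ, mul_div_cancel_right₀ _ hρ.ne', M1, Real.log_exp]
  have hΛ0 : 0 < Λ := by rw [hΛ']; positivity
  set h : E → ℝ≥0∞ := fun y => ENNReal.ofReal (sg z ρ (M1 K * ρ) (F.symm y)) * g y with hh
  have hhm : Measurable h := by
    refine Measurable.mul ?_ hUG.meas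
    exact ENNReal.measurable_ofReal.comp
      ((measurable_sg z ρ (M1 K * ρ)).comp F.symm.continuous.measurable)
  -- volume of the complement
  have hW2 : μ W ≤ μ (ball (0 : E) R) / 2 := by
    rw [ENNReal.le_div_iff_mul_le (Or.inl (by norm_num)) (Or.inl (by norm_num))]
    rw [← ENNReal.ofReal_toReal hWf.ne, ← ENNReal.ofReal_toReal hbf]
    have h2 : (2 : ℝ≥0∞) = ENNReal.ofReal 2 := by simp
    rw [h2, ← ENNReal.ofReal_mul ENNReal.toReal_nonneg]
    refine ENNReal.ofReal_le_ofReal ?_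
    change μ.real W * 2 ≤ μ.real (ball (0 : E) R)
    rw [hbr]
    have h3 : (2 : ℝ) ≤ 2 ^ n := by
      calc (2 : ℝ) = 2 ^ 1 := by norm_num
        _ ≤ 2 ^ n := pow_le_pow_right₀ (by norm_num) hn1
    nlinarith
  -- local inequality
  have hloc : ∀ y₀ : E, μ (U ∩ ball y₀ R) * ENNReal.ofReal Λ ^ n ≤
      2 * ENNReal.ofReal (4 * R) ^ n * ∫⁻ y in ball y₀ R, h y ^ n ∂μ := by
    intro y₀
    have h1 := lemS_local μ hn1 F.symm hUG y₀ z R hρ hs2 (U ∩ ball y₀ R) (ball y₀ R \ W)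
      (hUm.inter measurableSet_ball) (measurableSet_ball.diff hWm) inter_subset_right
      (fun y hy => hy.1) (by
        rintro x ⟨⟨x', hx', rfl⟩, _⟩
        rw [Homeomorph.symm_apply_apply]
        exact (mem_ball_iff_norm.1 hx').le) (by
        rintro y ⟨_, hy⟩
        by_contra hc
        push Not at hc
        exact hy ⟨F.symm y, mem_ball_iff_norm.2 hc, F.apply_symm_apply y⟩)
    rw [hb y₀] at h1
    have h2 : μ (ball (0 : E) R) / 2 ≤ μ (ball y₀ R \ W) := by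
      have h3 : μ (ball y₀ R) ≤ μ (ball y₀ R \ W) + μ W := by
        refine (measure_mono ?_).trans (measure_union_le _ _)
        intro y hy
        by_cases hyW : y ∈ W
        · exact Or.inr hyW
        · exact Or.inl ⟨hy, hyW⟩
      rw [hb y₀] at h3
      have h4 : μ (ball (0 : E) R) ≤ μ (ball y₀ R \ W) + μ (ball (0 : E) R) / 2 :=
        h3.trans (by gcongr)
      have h5 : μ (ball (0 : E) R) / 2 ≠ ∞ := ENNReal.div_ne_top hbf (by norm_num)
      rw [← ENNReal.add_halves (μ (ball (0 : E) R))] at h4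
      have h6 := (ENNReal.add_le_add_iff_right h5).1 (by
        simpa only [ENNReal.add_halves] using h4 : μ (ball (0 : E) R) / 2 + μ (ball (0 : E) R) / 2 ≤
          μ (ball y₀ R \ W) + μ (ball (0 : E) R) / 2)
      exact h6
    have h3 : μ (U ∩ ball y₀ R) * (μ (ball (0 : E) R) / 2) * ENNReal.ofReal Λ ^ n ≤
        ENNReal.ofReal (4 * R) ^ n * μ (ball (0 : E) R) * ∫⁻ y in ball y₀ R, h y ^ n ∂μ := by
      refine le_trans ?_ h1
      gcongr
    have h4 : μ (ball (0 : E) R) * (μ (U ∩ ball y₀ R) * ENNReal.ofReal Λ ^ n) ≤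
        μ (ball (0 : E) R) * (2 * ENNReal.ofReal (4 * R) ^ n * ∫⁻ y in ball y₀ R, h y ^ n ∂μ) := by
      calc μ (ball (0 : E) R) * (μ (U ∩ ball y₀ R) * ENNReal.ofReal Λ ^ n)
          = 2 * (μ (U ∩ ball y₀ R) * (μ (ball (0 : E) R) / 2) * ENNReal.ofReal Λ ^ n) := by
            rw [ENNReal.div_eq_inv_mul]
            have h5 : (2 : ℝ≥0∞) * 2⁻¹ = 1 := ENNReal.mul_inv_cancel (by norm_num) (by norm_num)
            calc _ = (2 * 2⁻¹) * (μ (ball (0 : E) R) * (μ (U ∩ ball y₀ R) * ENNReal.ofReal Λ ^ n)) := by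
                  rw [h5, one_mul]
              _ = _ := by ring
        _ ≤ 2 * (ENNReal.ofReal (4 * R) ^ n * μ (ball (0 : E) R) *
              ∫⁻ y in ball y₀ R, h y ^ n ∂μ) := by gcongr
        _ = _ := by ring
    exact (ENNReal.mul_le_mul_iff_right hb0 hbf).1 h4
  -- integrate
  have hint : ∫⁻ y₀, μ (U ∩ ball y₀ R) * ENNReal.ofReal Λ ^ n ∂μ ≤
      ∫⁻ y₀, 2 * ENNReal.ofReal (4 * R) ^ n * ∫⁻ y in ball y₀ R, h y ^ n ∂μ ∂μ :=
    lintegral_mono hloc
  have hne1 : ENNReal.ofReal Λ ^ n ≠ ∞ := ENNReal.pow_ne_top ENNReal.ofReal_ne_top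
  have hne2 : 2 * ENNReal.ofReal (4 * R) ^ n ≠ ∞ :=
    ENNReal.mul_ne_top (by norm_num) (ENNReal.pow_ne_top ENNReal.ofReal_ne_top)
  rw [lintegral_mul_const' _ _ hne1, lintegral_const_mul' _ _ hne2,
    B5_tonelli μ R _ (hhm.pow_const n)] at hint
  have hUint : ∫⁻ y₀, μ (U ∩ ball y₀ R) ∂μ = μ (ball (0 : E) R) * μ U := by
    have h1 : ∀ y₀ : E, μ (U ∩ ball y₀ R) = ∫⁻ y in ball y₀ R, U.indicator 1 y ∂μ := by
      intro y₀
      rw [lintegral_indicator_one hUm, Measure.restrict_apply hUm]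
    simp only [h1]
    rw [B5_tonelli μ R _ (measurable_one.indicator hUm), lintegral_indicator_one hUm]
  rw [hUint] at hint
  have htot := lemS_total μ hn1 F.symm hUG z hρ hs2
  have h5 : μ (ball (0 : E) R) * (μ U * ENNReal.ofReal Λ ^ n) ≤ μ (ball (0 : E) R) *
      (2 * ENNReal.ofReal (4 * R) ^ n * (ENNReal.ofReal K ^ n * ENNReal.ofReal (n * κ * Λ))) := by
    calc μ (ball (0 : E) R) * (μ U * ENNReal.ofReal Λ ^ n) =
        μ (ball (0 : E) R) * μ U * ENNReal.ofReal Λ ^ n := by ring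
      _ ≤ 2 * ENNReal.ofReal (4 * R) ^ n * (μ (ball (0 : E) R) * ∫⁻ y, h y ^ n ∂μ) := hint
      _ ≤ 2 * ENNReal.ofReal (4 * R) ^ n * (μ (ball (0 : E) R) *
          (ENNReal.ofReal K ^ n * ENNReal.ofReal (n * κ * Λ))) := by
            gcongr
      _ = _ := by ring
  have h6 := (ENNReal.mul_le_mul_iff_right hb0 hbf).1 h5
  -- real form
  have h7 : μ.real U * Λ ^ n ≤ 2 * (4 * R) ^ n * (K ^ n * (n * κ * Λ)) := by
    have h8 : ENNReal.ofReal (μ.real U * Λ ^ n) ≤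
        ENNReal.ofReal (2 * (4 * R) ^ n * (K ^ n * (n * κ * Λ))) := by
      have hR4 : (0 : ℝ) ≤ 4 * R := by positivity
      have hK0 : (0 : ℝ) ≤ K := by linarith
      rw [ENNReal.ofReal_mul measureReal_nonneg, ENNReal.ofReal_pow hΛ0.le,
        ENNReal.ofReal_mul (mul_nonneg (by norm_num) (pow_nonneg hR4 n)),
        ENNReal.ofReal_mul (p := 2) (q := (4 * R) ^ n) (by norm_num),
        ENNReal.ofReal_pow hR4, ENNReal.ofReal_mul (p := K ^ n) (pow_nonneg hK0 n),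
        ENNReal.ofReal_pow hK0]
      have h9 : ENNReal.ofReal (μ.real U) = μ U := ENNReal.ofReal_toReal hUf.ne
      have h10 : ENNReal.ofReal 2 = 2 := by simp
      rw [h9, h10]
      exact h6
    exact (ENNReal.ofReal_le_ofReal_iff (by positivity)).1 h8
  have hgr := growth_ineq hK hn
  rw [← hΛ'] at hgr
  have hΛn : Λ ^ n = Λ ^ (n - 1) * Λ := by
    rw [← pow_succ]
    congr 1
    omega
  have h8 : μ.real U * Λ ^ (n - 1) ≤ 2 * n * (8 * K) ^ n * μ.real W := by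
    have h9 : (μ.real U * Λ ^ (n - 1)) * Λ ≤ (2 * n * (8 * K) ^ n * μ.real W) * Λ := by
      calc (μ.real U * Λ ^ (n - 1)) * Λ = μ.real U * Λ ^ n := by rw [hΛn]; ring
        _ ≤ 2 * (4 * R) ^ n * (K ^ n * (n * κ * Λ)) := h7
        _ = (2 * n * ((4 * R) ^ n * K ^ n) * κ) * Λ := by ring
        _ = (2 * n * (8 * K) ^ n * μ.real W) * Λ := by
            rw [← hvW, ← mul_pow, hR]
            have : 4 * (2 * v) * K = (8 * K) * v := by ring
            rw [this, mul_pow]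
            ring
    exact le_of_mul_le_mul_right h9 hΛ0
  have h9 : 2 ^ n * μ.real U ≤ μ.real W := by
    have h10 : μ.real U * (2 * n * (8 * K) ^ n * 2 ^ n) ≤ μ.real U * Λ ^ (n - 1) :=
      mul_le_mul_of_nonneg_left hgr measureReal_nonneg
    have h11 : 0 < 2 * (n : ℝ) * (8 * K) ^ n := by
      have : (0 : ℝ) < n := by exact_mod_cast (by omega : 0 < n)
      positivity
    have h12 : (2 * (n : ℝ) * (8 * K) ^ n) * (2 ^ n * μ.real U) ≤
        (2 * (n : ℝ) * (8 * K) ^ n) * μ.real W := by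
      calc _ = μ.real U * (2 * n * (8 * K) ^ n * 2 ^ n) := by ring
        _ ≤ _ := h10.trans h8
    exact le_of_mul_le_mul_left h12 h11
  have h10 : (2 * vr μ F z ρ) ^ n * κ ≤ v ^ n * κ := by
    rw [hvW, mul_pow, mul_assoc, vr_pow μ hn1 F z ρ]
    exact h9
  exact (pow_le_pow_iff_left₀ (mul_nonneg (by norm_num) (vr_nonneg μ F z _)) hv0 (by omega)).1
    (le_of_mul_le_mul_right h10 hκ)

theorem vr_growth_pow (μ : Measure E) [μ.IsAddHaarMeasure] (hn : 2 ≤ Module.finrank ℝ E)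
    {K : ℝ} (hK : 1 ≤ K) (F : E ≃ₜ E) {g : E → ℝ≥0∞} (hUG : UG μ K F.symm g)
    (z : E) {ρ : ℝ} (hρ : 0 < ρ) (j : ℕ) :
    2 ^ j * vr μ F z ρ ≤ vr μ F z (M1 K ^ j * ρ) := by
  induction j with
  | zero => simp
  | succ j ih =>
    have hM := one_lt_M1 hK
    have h1 := vr_growth μ hn hK F hUG z (ρ := M1 K ^ j * ρ) (by positivity)
    calc 2 ^ (j + 1) * vr μ F z ρ = 2 * (2 ^ j * vr μ F z ρ) := by ring
      _ ≤ 2 * vr μ F z (M1 K ^ j * ρ) := by linarith
      _ ≤ _ := h1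
      _ = _ := by rw [pow_succ]; ring_nf

end H42DF
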