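import Pool.Agent.H42.DF.B2
import Pool.Agent.H42.DF.B3
import Pool.Agent.H42.DF.V0

/-!
# B6 (AVG): difference of averages

`UG μ K F g`, `X, Y ⊆ B = ball c R` measurable of positive measure, `F_X` = average of `F` over `X`.
`‖F_X - F_Y‖ ≤ 4 K vr μ F c R (|B|² / (|X||Y|))^(1/n)`.

Proof. `F_X - F_Y = avg_{x∈X} avg_{y∈Y} (F x - F y)`, so `‖F_X - F_Y‖ ≤ (|X||Y|)^{-1} ∫_X ∫_Y ‖F y - F x‖` (`F` is
continuous and bounded on `B`, all integrable), and by Jensen (or Hölder on `X × Y`)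
`‖F_X - F_Y‖^n ≤ (|X||Y|)^{-1} ∫_X ∫_Y ‖F y - F x‖^n`. `pair_bound` with `D x y = ‖F y - F x‖ₑ`, `h = g`
(`UG.line` with `ψ p = ‖p - F x‖`, `σ = 1`: `slopeFun_dist`; note that `line` is for all `ψ` simultaneously, so `ψ` may
depend on `x`): `∫_X∫_Y ≤ (4R)^n |B| ∫_B g^n ≤ (4R)^n |B| K^n |F(B)|` (`UG.vol`, `φ = 1`), and
`|F(B)| = κ vr^n`, `κ R^n = |B|`: `‖F_X - F_Y‖^n |X||Y| ≤ (4K)^n |B|² vr^n`. Take `n`-th roots.
A convenient way for Jensen: for `q : E` fixed... or `‖avg‖ ≤ avg‖·‖` and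
`(avg_{X×Y} f)^n ≤ avg f^n` for the probability measure (`ENNReal`: `lintegral_rpow_le...`/Hölder
`ENNReal.lintegral_mul_le_Lp_mul_Lq`).
-/

set_option autoImplicit false

open MeasureTheory Metric Set Filter Topology
open scoped ENNReal NNReal

namespace H42DF

variable {E : Type*} [NormedAddCommGroup E] [NormedSpace ℝ E] [FiniteDimensional ℝ E]
  [MeasurableSpace E] [BorelSpace E]

/-- Jensen for the average over a probability measure -/
theorem B6_jensen {α : Type*} [MeasurableSpace α] (ν : Measure α) [IsProbabilityMeasure ν]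
    {n : ℕ} (hn : 1 ≤ n) {g : α → ℝ≥0∞} (hg : AEMeasurable g ν) :
    (∫⁻ t, g t ∂ν) ^ n ≤ ∫⁻ t, g t ^ n ∂ν := by
  rcases hn.eq_or_lt with rfl | hn1
  · simp
  · have hp : (1 : ℝ) < n := by exact_mod_cast hn1
    have hp0 : (0 : ℝ) < n := by linarith
    have hpq := Real.HolderConjugate.conjExponent hp
    have h1 := ENNReal.lintegral_mul_le_Lp_mul_Lq ν hpq
      hg (aemeasurable_const (b := (1 : ℝ≥0∞)))
    simp only [Pi.mul_apply, ENNReal.one_rpow, lintegral_const, measure_univ, mul_one] at h1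
    have h3 := ENNReal.rpow_le_rpow h1 hp0.le
    rw [← ENNReal.rpow_mul, one_div_mul_cancel hp0.ne', ENNReal.rpow_one, ENNReal.rpow_natCast] at h3
    refine h3.trans (le_of_eq ?_)
    refine lintegral_congr fun t => ?_
    rw [ENNReal.rpow_natCast]

/-- Jensen for the distance of an average from a point -/
theorem B6_avg (μ : Measure E) {n : ℕ} (hn : 1 ≤ n) (Y : Set E) (hY0 : μ Y ≠ 0) (hY1 : μ Y ≠ ∞)
    (f : E → E) (hf : IntegrableOn f Y μ) (c : E) :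
    ‖c - ⨍ y in Y, f y ∂μ‖ₑ ^ n ≤ (μ Y)⁻¹ * ∫⁻ y in Y, ‖c - f y‖ₑ ^ n ∂μ := by
  set ν : Measure E := ((μ.restrict Y) univ)⁻¹ • (μ.restrict Y) with hν
  have hu : (μ.restrict Y) univ = μ Y := by simp
  have hprob : IsProbabilityMeasure ν := by
    constructor
    rw [hν, Measure.smul_apply, smul_eq_mul, hu]
    exact ENNReal.inv_mul_cancel hY0 hY1
  have hfν : Integrable f ν := by
    rw [hν, hu]
    exact Integrable.smul_measure hf (ENNReal.inv_ne_top.mpr hY0)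
  have h1 : c - ⨍ y in Y, f y ∂μ = ∫ y, (c - f y) ∂ν := by
    rw [integral_sub (integrable_const c) hfν, integral_const, probReal_univ, one_smul]
    rfl
  rw [h1]
  have h2 : ‖∫ y, (c - f y) ∂ν‖ₑ ≤ ∫⁻ y, ‖c - f y‖ₑ ∂ν := enorm_integral_le_lintegral_enorm _
  have h3 : (∫⁻ y, ‖c - f y‖ₑ ∂ν) ^ n ≤ ∫⁻ y, ‖c - f y‖ₑ ^ n ∂ν :=
    B6_jensen ν hn ((aestronglyMeasurable_const.sub hfν.aestronglyMeasurable).enorm)
  calc ‖∫ y, (c - f y) ∂ν‖ₑ ^ n ≤ (∫⁻ y, ‖c - f y‖ₑ ∂ν) ^ n := by gcongr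
    _ ≤ _ := h3
    _ = _ := by rw [hν, lintegral_smul_measure, hu, smul_eq_mul]

/-- the estimate with extended nonnegative values -/
theorem B6_enn (μ : Measure E) [μ.IsAddHaarMeasure] (hn : 1 ≤ Module.finrank ℝ E)
    {K : ℝ} (F : E ≃ₜ E) {g : E → ℝ≥0∞} (hUG : UG μ K F g)
    (c : E) {R : ℝ} (X Y : Set E)
    (hX : MeasurableSet X) (hY : MeasurableSet Y) (hXB : X ⊆ ball c R) (hYB : Y ⊆ ball c R)
    (hXpos : μ X ≠ 0) (hYpos : μ Y ≠ 0) :
    ‖(⨍ x in X, F x ∂μ) - ⨍ y in Y, F y ∂μ‖ₑ ^ Module.finrank ℝ E ≤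
      (μ X)⁻¹ * ((μ Y)⁻¹ * (ENNReal.ofReal (4 * R) ^ Module.finrank ℝ E * μ (ball c R) *
        (ENNReal.ofReal K ^ Module.finrank ℝ E * μ (F '' ball c R)))) := by
  have hXt : μ X ≠ ∞ := ((measure_mono hXB).trans_lt measure_ball_lt_top).ne
  have hYt : μ Y ≠ ∞ := ((measure_mono hYB).trans_lt measure_ball_lt_top).ne
  have hint : ∀ S : Set E, S ⊆ ball c R → IntegrableOn F S μ := by
    intro S hS
    exact (F.continuous.continuousOn.integrableOn_compact (isCompact_closedBall c R)).mono_set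
      (hS.trans ball_subset_closedBall)
  have h1 := B6_avg μ hn X hXpos hXt F (hint X hXB) (⨍ y in Y, F y ∂μ)
  have h2 : ∀ x, ‖(⨍ y in Y, F y ∂μ) - F x‖ₑ ^ Module.finrank ℝ E ≤
      (μ Y)⁻¹ * ∫⁻ y in Y, ‖F x - F y‖ₑ ^ Module.finrank ℝ E ∂μ := by
    intro x
    have := B6_avg μ hn Y hYpos hYt F (hint Y hYB) (F x)
    rwa [← enorm_neg, neg_sub] at this
  have h3 := pair_bound μ hn c R X Y hX hY hXB hYB (fun x y => ‖F x - F y‖ₑ)
    (by
      have : Continuous (fun p : E × E => ‖F p.1 - F p.2‖ₑ) := by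
        apply Continuous.enorm
        exact (F.continuous.comp continuous_fst).sub (F.continuous.comp continuous_snd)
      exact this.measurable) g hUG.meas
    (by
      intro e
      filter_upwards [hUG.line e] with x hx _ _
      have h4 := hx (fun p => ‖p - F x‖) (fun _ => 1) (slopeFun_dist (F x))
      have h5 : ‖F x - F (x + e)‖ₑ = ENNReal.ofReal |‖F (x + e) - F x‖ - ‖F x - F x‖| := by
        rw [sub_self, norm_zero, sub_zero, abs_of_nonneg (norm_nonneg _), norm_sub_rev,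
          ofReal_norm]
      rw [h5]
      simpa using h4)
  have h6 := hUG.vol (ball c R) measurableSet_ball (fun _ => 1) measurable_const
  simp only [one_mul, lintegral_const, MeasurableSet.univ, Measure.restrict_apply, univ_inter] at h6
  rw [← enorm_neg, neg_sub]
  calc ‖(⨍ y in Y, F y ∂μ) - ⨍ x in X, F x ∂μ‖ₑ ^ Module.finrank ℝ E
      ≤ (μ X)⁻¹ * ∫⁻ x in X, ‖(⨍ y in Y, F y ∂μ) - F x‖ₑ ^ Module.finrank ℝ E ∂μ := h1
    _ ≤ (μ X)⁻¹ * ∫⁻ x in X, ((μ Y)⁻¹ * ∫⁻ y in Y, ‖F x - F y‖ₑ ^ Module.finrank ℝ E ∂μ) ∂μ := by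
        gcongr with x
        exact h2 x
    _ = (μ X)⁻¹ * ((μ Y)⁻¹ * ∫⁻ x in X, (∫⁻ y in Y, ‖F x - F y‖ₑ ^ Module.finrank ℝ E ∂μ) ∂μ) := by
        rw [lintegral_const_mul' _ _ (ENNReal.inv_ne_top.mpr hYpos)]
    _ ≤ _ := by
        gcongr
        refine h3.trans ?_
        gcongr

theorem avg_diff (μ : Measure E) [μ.IsAddHaarMeasure] (hn : 1 ≤ Module.finrank ℝ E)
    {K : ℝ} (hK : 1 ≤ K) (F : E ≃ₜ E) {g : E → ℝ≥0∞} (hUG : UG μ K F g)
    (c : E) {R : ℝ} (hR : 0 < R) (X Y : Set E)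
    (hX : MeasurableSet X) (hY : MeasurableSet Y) (hXB : X ⊆ ball c R) (hYB : Y ⊆ ball c R)
    (hXpos : μ X ≠ 0) (hYpos : μ Y ≠ 0) :
    ‖(⨍ x in X, F x ∂μ) - ⨍ y in Y, F y ∂μ‖ ≤
      4 * K * vr μ F c R * (μ.real (ball c R) ^ 2 / (μ.real X * μ.real Y)) ^
        ((Module.finrank ℝ E : ℝ)⁻¹) := by
  have hXt : μ X ≠ ∞ := ((measure_mono hXB).trans_lt measure_ball_lt_top).ne
  have hYt : μ Y ≠ ∞ := ((measure_mono hYB).trans_lt measure_ball_lt_top).ne
  have hXr : 0 < μ.real X := ENNReal.toReal_pos hXpos hXt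
  have hYr : 0 < μ.real Y := ENNReal.toReal_pos hYpos hYt
  have h1 := B6_enn μ hn F hUG c X Y hX hY hXB hYB hXpos hYpos
  set n := Module.finrank ℝ E with hndef
  have hn0 : n ≠ 0 := by omega
  have hv := vr_nonneg μ F c R
  have hK0 : 0 ≤ K := by linarith
  have hFt := (measure_image_ball_lt_top μ F c R).ne
  have hBt : μ (ball c R) ≠ ∞ := measure_ball_lt_top.ne
  -- to real numbers
  have h2 : ‖(⨍ x in X, F x ∂μ) - ⨍ y in Y, F y ∂μ‖ ^ n ≤
      (μ.real X)⁻¹ * ((μ.real Y)⁻¹ * ((4 * R) ^ n * μ.real (ball c R) *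
        (K ^ n * μ.real (F '' ball c R)))) := by
    have hfin : (μ X)⁻¹ * ((μ Y)⁻¹ * (ENNReal.ofReal (4 * R) ^ n * μ (ball c R) *
        (ENNReal.ofReal K ^ n * μ (F '' ball c R)))) ≠ ∞ := by
      refine ENNReal.mul_ne_top (ENNReal.inv_ne_top.mpr hXpos)
        (ENNReal.mul_ne_top (ENNReal.inv_ne_top.mpr hYpos)
        (ENNReal.mul_ne_top (ENNReal.mul_ne_top (ENNReal.pow_ne_top ENNReal.ofReal_ne_top) hBt)
          (ENNReal.mul_ne_top (ENNReal.pow_ne_top ENNReal.ofReal_ne_top) hFt)))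
    have h3 := ENNReal.toReal_mono hfin h1
    simp only [ENNReal.toReal_mul, ENNReal.toReal_pow, ENNReal.toReal_inv, toReal_enorm,
      ENNReal.toReal_ofReal (by positivity : (0:ℝ) ≤ 4 * R), ENNReal.toReal_ofReal hK0] at h3
    exact h3
  have hball := real_ball μ c hR.le hn
  have hvr := vr_pow μ hn F c R
  rw [← hndef] at hball hvr
  have hq : 0 ≤ μ.real (ball c R) ^ 2 / (μ.real X * μ.real Y) := by positivity
  have hrhs : (4 * K * vr μ F c R * (μ.real (ball c R) ^ 2 / (μ.real X * μ.real Y)) ^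
        ((n : ℝ)⁻¹)) ^ n = (4 * K * vr μ F c R) ^ n *
          (μ.real (ball c R) ^ 2 / (μ.real X * μ.real Y)) := by
    rw [mul_pow, Real.rpow_inv_natCast_pow hq hn0]
  rw [← pow_le_pow_iff_left₀ (norm_nonneg _) (by positivity) hn0, hrhs]
  refine h2.trans (le_of_eq ?_)
  have h5 : (4 * R) ^ n * μ.real (ball c R) * (K ^ n * μ.real (F '' ball c R))
      = (4 * K * vr μ F c R) ^ n * μ.real (ball c R) ^ 2 := by
    rw [← hvr]
    have : (4 * R) ^ n * (K ^ n * (vr μ F c R ^ n * μ.real (ball (0 : E) 1)))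
        = (4 * K * vr μ F c R) ^ n * (R ^ n * μ.real (ball (0 : E) 1)) := by
      rw [mul_pow, mul_pow, mul_pow]
      ring
    calc (4 * R) ^ n * μ.real (ball c R) * (K ^ n * (vr μ F c R ^ n * μ.real (ball (0 : E) 1)))
        = ((4 * R) ^ n * (K ^ n * (vr μ F c R ^ n * μ.real (ball (0 : E) 1))))
            * μ.real (ball c R) := by ring
      _ = ((4 * K * vr μ F c R) ^ n * (R ^ n * μ.real (ball (0 : E) 1))) * μ.real (ball c R) := by
          rw [this]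
      _ = (4 * K * vr μ F c R) ^ n * μ.real (ball c R) ^ 2 := by
          rw [← hball]; ring
  rw [h5]
  field_simp

end H42DF
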