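import Pool.Agent.H42.DF.B5
import Pool.Agent.H42.DF.B6

/-!
# B7 (OSC), statement (A): `‖a - z‖ ≤ r` implies `‖F a - F z‖ ≤ C1 K * vr μ F z (2 r)`

`C1 K = 16 K (M + 1)`, `M = M1 K ≥ 1`. Let `F_B` denote averages over balls, `n = dim E`.
(1) For every `z` and `r > 0`: `‖F_{B(z,r)} - F z‖ ≤ 8 K M vr μ F z r`. With `ρ_j = M^{-j} r`,
`B_j = ball z ρ_j`: `avg_diff` in `B_j` with `X = B_j`, `Y = B_{j+1}`: `|B_j|²/(|B_j||B_{j+1}|) = M^n`, so
`‖F_{B_j} - F_{B_{j+1}}‖ ≤ 4 K M vr z ρ_j`, and `vr z ρ_j ≤ 2^{-j} vr z r` by `vr_growth` (`vr z ρ_{j+1} ≤ vr z ρ_j / 2`).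
So `‖F_{B_0} - F_{B_m}‖ ≤ 8 K M vr z r` for all `m`, and `F_{B_m} → F z` by continuity of `F` at `z` (averages over
shrinking balls of a continuous function: `‖F_{B_m} - F z‖ ≤ sup_{B_m} ‖F - F z‖`).
(2) `r > 0`, `‖a - z‖ ≤ r`: `ball a r, ball z r ⊆ ball z (2r)`; `avg_diff` in `ball z (2r)`:
`(|B_{2r}|²/(|B_r||B_r|))^(1/n) = 4`, so `‖F_{B(a,r)} - F_{B(z,r)}‖ ≤ 16 K vr z (2r)`. By (1) for `a` and `z` and
`vr a r, vr z r ≤ vr z (2r)`: total `≤ (8KM + 16K + 8KM) vr z (2r) = 16 K (M + 1) vr z (2r)`.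
-/

set_option autoImplicit false

open MeasureTheory Metric Set Filter Topology
open scoped ENNReal NNReal

namespace H42DF

variable {E : Type*} [NormedAddCommGroup E] [NormedSpace ℝ E] [FiniteDimensional ℝ E]
  [MeasurableSpace E] [BorelSpace E]

theorem B7_ratio {n : ℕ} (hn : 1 ≤ n) {a b κ M : ℝ} (ha : 0 < a) (hb : 0 < b) (hκ : 0 < κ)
    (hM : 0 ≤ M) (h : a = M * b) :
    ((a ^ n * κ) ^ 2 / ((a ^ n * κ) * (b ^ n * κ))) ^ ((n : ℝ)⁻¹) = M := by
  have h1 : (a ^ n * κ) ^ 2 / ((a ^ n * κ) * (b ^ n * κ)) = M ^ n := by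
    rw [div_eq_iff (by positivity), h]
    rw [mul_pow]
    ring
  rw [h1]
  exact Real.pow_rpow_inv_natCast hM (by omega)

theorem B7_ratio2 {n : ℕ} (hn : 1 ≤ n) {r κ : ℝ} (hr : 0 < r) (hκ : 0 < κ) :
    (((2 * r) ^ n * κ) ^ 2 / ((r ^ n * κ) * (r ^ n * κ))) ^ ((n : ℝ)⁻¹) = 4 := by
  have h1 : ((2 * r) ^ n * κ) ^ 2 / ((r ^ n * κ) * (r ^ n * κ)) = 4 ^ n := by
    rw [div_eq_iff (by positivity)]
    have : (4 : ℝ) ^ n = 2 ^ n * 2 ^ n := by
      rw [← mul_pow]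
      norm_num
    rw [this, mul_pow]
    ring
  rw [h1]
  exact Real.pow_rpow_inv_natCast (by norm_num) (by omega)

theorem B7_mem (μ : Measure E) [μ.IsAddHaarMeasure] (F : E ≃ₜ E) (z : E) {r ε : ℝ} (hr : 0 < r)
    (h : ∀ x ∈ ball z r, F x ∈ closedBall (F z) ε) :
    ‖(⨍ x in ball z r, F x ∂μ) - F z‖ ≤ ε := by
  have h1 : (⨍ x in ball z r, F x ∂μ) ∈ closedBall (F z) ε := by
    refine Convex.set_average_mem (convex_closedBall (F z) ε) isClosed_closedBall
      (measure_ball_pos μ z hr).ne' measure_ball_lt_top.ne ?_ ?_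
    · exact (ae_restrict_iff' measurableSet_ball).2 (Eventually.of_forall h)
    · exact (F.continuous.continuousOn.integrableOn_compact
        (isCompact_closedBall z r)).mono_set ball_subset_closedBall
  rwa [mem_closedBall, dist_eq_norm] at h1

theorem avg_sub_center (μ : Measure E) [μ.IsAddHaarMeasure] (hn : 2 ≤ Module.finrank ℝ E)
    {K : ℝ} (hK : 1 ≤ K) (F : E ≃ₜ E) {g g' : E → ℝ≥0∞} (hUG : UG μ K F g)
    (hUG' : UG μ K F.symm g') (z : E) {r : ℝ} (hr : 0 < r) :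
    ‖(⨍ x in ball z r, F x ∂μ) - F z‖ ≤ 8 * K * M1 K * vr μ F z r := by
  have hM2 : 2 < M1 K := one_lt_M1 hK
  have hM0 : 0 < M1 K := by linarith
  have hM1 : 1 ≤ M1 K := by linarith
  have hn1 : 1 ≤ Module.finrank ℝ E := by omega
  set ρ : ℕ → ℝ := fun j => r / M1 K ^ j with hρ
  have hρpos : ∀ j, 0 < ρ j := fun j => by
    simp only [hρ]
    positivity
  have hρ0 : ρ 0 = r := by simp [hρ]
  have hρs : ∀ j, ρ j = M1 K * ρ (j + 1) := by
    intro j
    simp only [hρ]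
    rw [pow_succ]
    field_simp
  set a : ℕ → E := fun j => ⨍ x in ball z (ρ j), F x ∂μ with ha
  have hvr : ∀ j, vr μ F z (ρ j) ≤ (1 / 2) ^ j * vr μ F z r := by
    intro j
    induction j with
    | zero => rw [hρ0, pow_zero, one_mul]
    | succ j ih =>
      have h1 := vr_growth μ hn hK F hUG' z (hρpos (j + 1))
      rw [← hρs j] at h1
      rw [pow_succ]
      linarith
  have hdiff : ∀ j, ‖a j - a (j + 1)‖ ≤ 4 * K * M1 K * ((1 / 2) ^ j * vr μ F z r) := by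
    intro j
    have hsub : ball z (ρ (j + 1)) ⊆ ball z (ρ j) := by
      apply ball_subset_ball
      rw [hρs j]
      have := (hρpos (j + 1)).le
      nlinarith
    have h1 := avg_diff μ hn1 hK F hUG z (hρpos j) (ball z (ρ j)) (ball z (ρ (j + 1)))
      measurableSet_ball measurableSet_ball subset_rfl hsub
      (measure_ball_pos μ z (hρpos j)).ne' (measure_ball_pos μ z (hρpos (j + 1))).ne'
    rw [real_ball μ z (hρpos j).le hn1, real_ball μ z (hρpos (j + 1)).le hn1,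
      B7_ratio hn1 (hρpos j) (hρpos (j + 1)) (kappa_pos μ) hM0.le (hρs j)] at h1
    calc ‖a j - a (j + 1)‖ ≤ 4 * K * vr μ F z (ρ j) * M1 K := h1
      _ = 4 * K * M1 K * vr μ F z (ρ j) := by ring
      _ ≤ _ := by
        have := hvr j
        gcongr
  have hv0 : 0 ≤ vr μ F z r := vr_nonneg μ F z r
  have hsum : ∀ m, ‖a 0 - a m‖ ≤ 8 * K * M1 K * vr μ F z r * (1 - (1 / 2) ^ m) := by
    intro m
    induction m with
    | zero => simp
    | succ m ih =>
      have h1 : a 0 - a (m + 1) = (a 0 - a m) + (a m - a (m + 1)) := by abel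
      rw [h1]
      refine (norm_add_le _ _).trans ?_
      have h2 := hdiff m
      rw [pow_succ]
      linarith
  apply le_of_forall_pos_le_add
  intro ε hε
  obtain ⟨δ, hδ, hδf⟩ := Metric.continuousAt_iff.1 (F.continuous.continuousAt (x := z)) ε hε
  obtain ⟨m, hm⟩ : ∃ m : ℕ, ρ m < δ := by
    have h1 : Tendsto (fun m : ℕ => r * ((M1 K)⁻¹) ^ m) atTop (𝓝 (r * 0)) := by
      apply Tendsto.const_mul
      apply tendsto_pow_atTop_nhds_zero_of_lt_one (by positivity)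
      exact inv_lt_one_of_one_lt₀ (by linarith)
    rw [mul_zero] at h1
    obtain ⟨m, hm⟩ := (h1.eventually (gt_mem_nhds hδ)).exists
    refine ⟨m, ?_⟩
    simp only [hρ]
    rwa [inv_pow, ← div_eq_mul_inv] at hm
  have h3 : ‖a m - F z‖ ≤ ε := by
    apply B7_mem μ F z (hρpos m)
    intro x hx
    rw [mem_ball] at hx
    rw [mem_closedBall]
    exact (hδf (hx.trans hm)).le
  have h4 := hsum m
  have h5 : (0 : ℝ) ≤ (1 / 2) ^ m := by positivity
  have h6 : 0 ≤ 8 * K * M1 K * vr μ F z r := by positivity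
  have h7 : (⨍ x in ball z r, F x ∂μ) = a 0 := by
    simp only [ha, hρ0]
  rw [h7]
  have h8 : a 0 - F z = (a 0 - a m) + (a m - F z) := by abel
  rw [h8]
  refine (norm_add_le _ _).trans ?_
  nlinarith

theorem osc (μ : Measure E) [μ.IsAddHaarMeasure] (hn : 2 ≤ Module.finrank ℝ E)
    {K : ℝ} (hK : 1 ≤ K) (F : E ≃ₜ E) {g g' : E → ℝ≥0∞} (hUG : UG μ K F g)
    (hUG' : UG μ K F.symm g') (a z : E) {r : ℝ} (hr : 0 < r) (haz : ‖a - z‖ ≤ r) :
    ‖F a - F z‖ ≤ C1 K * vr μ F z (2 * r) := by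
  have hM2 : 2 < M1 K := one_lt_M1 hK
  have hM0 : 0 < M1 K := by linarith
  have hn1 : 1 ≤ Module.finrank ℝ E := by omega
  have hsa : ball a r ⊆ ball z (2 * r) := by
    intro x hx
    rw [mem_ball, dist_eq_norm] at hx ⊢
    have h1 : x - z = (x - a) + (a - z) := by abel
    rw [h1]
    have := norm_add_le (x - a) (a - z)
    linarith
  have hsz : ball z r ⊆ ball z (2 * r) := ball_subset_ball (by linarith)
  have h1 := avg_diff μ hn1 hK F hUG z (R := 2 * r) (by linarith) (ball a r) (ball z r)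
      measurableSet_ball measurableSet_ball hsa hsz
      (measure_ball_pos μ a hr).ne' (measure_ball_pos μ z hr).ne'
  rw [real_ball μ z (R := 2 * r) (by linarith) hn1, real_ball μ z hr.le hn1,
    real_ball μ a hr.le hn1, B7_ratio2 hn1 hr (kappa_pos μ)] at h1
  have h2 := avg_sub_center μ hn hK F hUG hUG' a hr
  have h3 := avg_sub_center μ hn hK F hUG hUG' z hr
  have h4 : vr μ F a r ≤ vr μ F z (2 * r) := vr_mono μ F hsa
  have h5 : vr μ F z r ≤ vr μ F z (2 * r) := vr_mono μ F hsz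
  have h6 : F a - F z = (F a - ⨍ x in ball a r, F x ∂μ) +
      ((⨍ x in ball a r, F x ∂μ) - ⨍ x in ball z r, F x ∂μ) +
      ((⨍ x in ball z r, F x ∂μ) - F z) := by abel
  rw [norm_sub_rev] at h2
  have h7 : 8 * K * M1 K * vr μ F a r ≤ 8 * K * M1 K * vr μ F z (2 * r) := by gcongr
  have h8 : 8 * K * M1 K * vr μ F z r ≤ 8 * K * M1 K * vr μ F z (2 * r) := by gcongr
  rw [h6]
  refine (norm_add₃_le).trans ?_
  unfold C1
  linarith

end H42DF
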