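import Pool.Agent.H42.DF.B8b

/-!
# B8 (EXTREMAL): a quasisymmetry bound that is finite is bounded by a constant depending on `K` only

Notation of B8a, B8b: `L = ‖F a‖`, `l = ‖F b‖`, `i' = ⌈2 C₁ A₀⌉₊`, `M₁^{i'} (2c) = 1` (`M1_pow_cc`), `2^{i'} > 2 C₁ A₀`.

**extremal_step.** `L < 4 l Λ`. Proof: let `x` be from `ext_iv`. If `L ≥ 4 l Λ`: `‖F x‖ < 2 l Λ ≤ L/2`, so
`‖F a - F x‖ > L/2`; (A) (`osc`) at centre `a`, radius `c r`: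
`L/2 < C₁ v_F(a, 2 c r)`; `v_F(a, r) = v_F(a, M₁^{i'} (2 c r)) ≥ 2^{i'} v_F(a, 2cr) > 2^{i'} L/(2C₁) ≥ A₀ L`.
But `F '' ball a r ⊆ F '' ball 0 (2r) ⊆ closedBall 0 (A₀ L)` by `ext_iii`, so `v_F(a,r) ≤ A₀ L` (`vr_le`).
Contradiction.

**extremal.** Let `S₁ = sup {‖F x‖/‖F y‖ : ‖x‖ ≤ ‖y‖, ρ₀ ≤ ‖y‖}` (a nonempty set bounded by `S`; `F y ≠ 0`; `S₁ ≥ 1`
because `x = y` is allowed, `E` is nontrivial). Choose `(a,b)` with `‖F a‖/‖F b‖ > S₁/2 > 0`, `r = ‖b‖`. Then (P)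
holds: `‖F x‖ ≤ S₁ ‖F y‖ ≤ 2 (L/l) ‖F y‖`. So `L/l < 4 Λ` and `S₁ < 2 L/l < 8 Λ = S0 K`.
-/

set_option autoImplicit false

open MeasureTheory Metric Set Filter Topology
open scoped ENNReal NNReal

namespace H42DF

variable {E : Type*} [NormedAddCommGroup E] [NormedSpace ℝ E] [FiniteDimensional ℝ E]
  [MeasurableSpace E] [BorelSpace E]

theorem extremal_step (μ : Measure E) [μ.IsAddHaarMeasure] (hn : 2 ≤ Module.finrank ℝ E)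
    {K : ℝ} (hK : 1 ≤ K) (F : E ≃ₜ E) (h0 : F 0 = 0) {g g' : E → ℝ≥0∞} (hUG : UG μ K F g)
    (hUG' : UG μ K F.symm g') {ρ₀ r : ℝ} (hr : 0 < r) (hρr : ρ₀ ≤ r) {a b : E}
    (ha : ‖a‖ ≤ r) (hb : ‖b‖ = r) (hLpos : 0 < ‖F a‖) (hlpos : 0 < ‖F b‖)
    (hP : ∀ x y : E, ‖x‖ ≤ ‖y‖ → ρ₀ ≤ ‖y‖ → ‖F b‖ * ‖F x‖ ≤ 2 * ‖F a‖ * ‖F y‖) :
    ‖F a‖ < 4 * ‖F b‖ * Real.exp ((2 * DD K) ^ 2) := by
  by_contra hcon
  rw [not_lt] at hcon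
  obtain ⟨x, hx, hFx⟩ := ext_iv μ hn hK F h0 hUG hUG' hr hρr ha hb hLpos hlpos hP
  have hc := cc_pos hK
  have hc2 := cc_le hK
  have hC := one_le_C1 hK
  have hA := four_le_A0 hK
  have h1 : ‖F a‖ / 2 < ‖F x - F a‖ := by
    have h2 : ‖F a‖ - ‖F x‖ ≤ ‖F x - F a‖ := by
      rw [← norm_neg (F x - F a), neg_sub]
      exact norm_sub_norm_le _ _
    linarith
  rw [mem_ball_iff_norm] at hx
  have h2 := osc μ hn hK F hUG hUG' x a (r := cc K * r) (by positivity) hx.le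
  have h3 := vr_growth_pow μ hn hK F hUG' a (ρ := 2 * (cc K * r)) (by positivity)
    ⌈2 * C1 K * A0 K⌉₊
  have h4 : M1 K ^ ⌈2 * C1 K * A0 K⌉₊ * (2 * (cc K * r)) = r := by
    calc _ = (M1 K ^ ⌈2 * C1 K * A0 K⌉₊ * (2 * cc K)) * r := by ring
      _ = r := by rw [M1_pow_cc hK, one_mul]
  rw [h4] at h3
  have h5 := two_pow_cc hK
  have hsub : F '' ball a r ⊆ closedBall 0 (A0 K * ‖F a‖) := by
    rintro _ ⟨y, hy, rfl⟩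
    rw [mem_ball_iff_norm] at hy
    rw [mem_closedBall_zero_iff]
    refine (ext_iii μ hn hK F h0 hUG hUG' hr hρr ha hb hLpos hlpos hP y ?_).le
    calc ‖y‖ = ‖(y - a) + a‖ := by rw [sub_add_cancel]
      _ ≤ ‖y - a‖ + ‖a‖ := norm_add_le _ _
      _ ≤ 2 * r := by linarith
  have h6 : vr μ F a r ≤ A0 K * ‖F a‖ := vr_le μ (by omega) F (by positivity) hsub
  set v := vr μ F a (2 * (cc K * r)) with hv
  have hv0 : 0 < v := by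
    by_contra h
    rw [not_lt] at h
    nlinarith
  have h7 : 2 * C1 K * A0 K * v < 2 ^ ⌈2 * C1 K * A0 K⌉₊ * v := by gcongr
  have h8 : A0 K * (‖F a‖ / 2) < A0 K * (C1 K * v) := by
    have : ‖F a‖ / 2 < C1 K * v := h1.trans_le h2
    gcongr
  nlinarith

theorem extremal (μ : Measure E) [μ.IsAddHaarMeasure] (hn : 2 ≤ Module.finrank ℝ E)
    {K : ℝ} (hK : 1 ≤ K) (F : E ≃ₜ E) (h0 : F 0 = 0) {g g' : E → ℝ≥0∞} (hUG : UG μ K F g)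
    (hUG' : UG μ K F.symm g') {ρ₀ : ℝ} (hρ : 0 < ρ₀) (S : ℝ)
    (hS : ∀ x y : E, ‖x‖ ≤ ‖y‖ → ρ₀ ≤ ‖y‖ → ‖F x‖ ≤ S * ‖F y‖) :
    ∀ x y : E, ‖x‖ ≤ ‖y‖ → ρ₀ ≤ ‖y‖ → ‖F x‖ ≤ S0 K * ‖F y‖ := by
  have hnt : Nontrivial E := Module.nontrivial_of_finrank_pos (R := ℝ) (by omega)
  have hFne : ∀ y : E, ρ₀ ≤ ‖y‖ → 0 < ‖F y‖ := by
    intro y hy
    rw [norm_pos_iff]
    intro h
    have : y = 0 := F.injective (h.trans h0.symm)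
    rw [this, norm_zero] at hy
    linarith
  set T : Set ℝ := {q | ∃ x y : E, ‖x‖ ≤ ‖y‖ ∧ ρ₀ ≤ ‖y‖ ∧ q = ‖F x‖ / ‖F y‖} with hT
  have hbdd : BddAbove T := by
    refine ⟨S, ?_⟩
    rintro q ⟨x, y, hxy, hy, rfl⟩
    rw [div_le_iff₀ (hFne y hy)]
    exact hS x y hxy hy
  obtain ⟨e, he⟩ := exists_ne (0 : E)
  have hone : (1 : ℝ) ∈ T := by
    refine ⟨(ρ₀ / ‖e‖) • e, (ρ₀ / ‖e‖) • e, le_rfl, ?_, ?_⟩
    · rw [norm_smul, Real.norm_of_nonneg (by positivity), div_mul_cancel₀ _ (norm_pos_iff.2 he).ne']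
    · rw [div_self]
      refine (hFne _ ?_).ne'
      rw [norm_smul, Real.norm_of_nonneg (by positivity), div_mul_cancel₀ _ (norm_pos_iff.2 he).ne']
  have hS1 : 1 ≤ sSup T := le_csSup hbdd hone
  obtain ⟨q, ⟨a, b, hab, hb, rfl⟩, hq⟩ := exists_lt_of_lt_csSup ⟨1, hone⟩
    (show sSup T / 2 < sSup T by linarith)
  have hFb := hFne b hb
  have hFa : 0 < ‖F a‖ := by
    have h1 : 0 < ‖F a‖ / ‖F b‖ := by linarith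
    by_contra h
    rw [not_lt] at h
    have : ‖F a‖ / ‖F b‖ ≤ 0 := div_nonpos_of_nonpos_of_nonneg h hFb.le
    linarith
  have hle : ∀ x y : E, ‖x‖ ≤ ‖y‖ → ρ₀ ≤ ‖y‖ → ‖F x‖ ≤ sSup T * ‖F y‖ := by
    intro x y hxy hy
    rw [← div_le_iff₀ (hFne y hy)]
    exact le_csSup hbdd ⟨x, y, hxy, hy, rfl⟩
  have hTle : sSup T * ‖F b‖ ≤ 2 * ‖F a‖ := by
    rw [lt_div_iff₀ hFb] at hq
    linarith
  have hP : ∀ x y : E, ‖x‖ ≤ ‖y‖ → ρ₀ ≤ ‖y‖ → ‖F b‖ * ‖F x‖ ≤ 2 * ‖F a‖ * ‖F y‖ := by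
    intro x y hxy hy
    calc ‖F b‖ * ‖F x‖ ≤ ‖F b‖ * (sSup T * ‖F y‖) := by gcongr; exact hle x y hxy hy
      _ = (sSup T * ‖F b‖) * ‖F y‖ := by ring
      _ ≤ 2 * ‖F a‖ * ‖F y‖ := by gcongr
  have hrpos : 0 < ‖b‖ := hρ.trans_le hb
  have hstep := extremal_step μ hn hK F h0 hUG hUG' hrpos hb hab rfl hFa hFb hP
  have hfin : sSup T ≤ S0 K := by
    have h1 : sSup T * ‖F b‖ ≤ S0 K * ‖F b‖ := by
      unfold S0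
      nlinarith
    exact le_of_mul_le_mul_right h1 hFb
  intro x y hxy hy
  exact (hle x y hxy hy).trans (by gcongr)

end H42DF
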