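import Pool.Agent.H42.DF.B7
import Pool.Agent.H42.DF.CST

/-!
# B8a (EXTREMAL argument, parts (i), (ii), (iii))

`F` a homeomorphism, `F 0 = 0`, `UG` for `F` and for `G = F⁻¹`, `n = dim E ≥ 2`, `K ≥ 1`. Notation: `M₁ = M1 K`,
`C₁ = C1 K ≥ 1`, `M = MM K = 2 M₁^⌈4C₁⌉₊`, `A₀ = A0 K = 4 M₁^⌈2C₁⌉₊`; (A) = `osc`; `v_F = vr μ F`, `v_G = vr μ F.symm`;
`L = ‖F a‖`, `l = ‖F b‖`, `‖a‖ ≤ r`, `‖b‖ = r`, `ρ₀ ≤ r`, and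
 (P) `l ‖F x‖ ≤ 2 L ‖F y‖` whenever `‖x‖ ≤ ‖y‖`, `ρ₀ ≤ ‖y‖`.
 (i) (A) for `G` at `0` and the point `F b` (`‖F b‖ = l`): `r = ‖b‖ ≤ C₁ v_G(0, 2l)`. (A) for `F`: `L ≤ C₁ v_F(0, 2r)`.
   (`osc` for `F.symm`: `F.symm.symm = F`, `hUG` and `hUG'` exchanged.)
 (ii) With `j = ⌈4 C₁⌉₊`, `2^j > 4 C₁`, `M = 2 M₁^j`: `G '' ball 0 (2l) ⊆ ball 0 (M r)`: otherwise there is `y` with
   `‖F y‖ < 2 l`, `‖y‖ ≥ M r (≥ ρ₀)`; by (P) `l ‖F x‖ ≤ 2 L ‖F y‖ < 4 L l` for `‖x‖ ≤ M r`, so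
   `F '' ball 0 (M r) ⊆ closedBall 0 (4L)`, `4 L ≥ v_F(0, M r) = v_F(0, M₁^j (2r)) ≥ 2^j v_F(0,2r) ≥ 2^j L / C₁ > 4 L`.
 (iii) With `i = ⌈2 C₁⌉₊`, `2^i > 2 C₁`, `A₀ = 4 M₁^i`: `‖F x‖ < A₀ L` for all `‖x‖ ≤ 2 r`: otherwise, (P) with this `x`:
   for all `‖y‖ ≥ 2r`: `2 L ‖F y‖ ≥ l A₀ L`, `‖F y‖ ≥ l A₀/2`; so `G '' ball 0 (l A₀/2) ⊆ ball 0 (2r)`, and
   `2 r ≥ v_G(0, l A₀/2) = v_G(0, M₁^i (2l)) ≥ 2^i v_G(0, 2l) ≥ 2^i r/C₁ > 2 r`.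
(growth: `vr_growth_pow`; bounds of `vr`: `vr_le` in V0.)
-/

set_option autoImplicit false

open MeasureTheory Metric Set Filter Topology
open scoped ENNReal NNReal

namespace H42DF

variable {E : Type*} [NormedAddCommGroup E] [NormedSpace ℝ E] [FiniteDimensional ℝ E]
  [MeasurableSpace E] [BorelSpace E]

theorem ext_i_G (μ : Measure E) [μ.IsAddHaarMeasure] (hn : 2 ≤ Module.finrank ℝ E)
    {K : ℝ} (hK : 1 ≤ K) (F : E ≃ₜ E) (h0 : F 0 = 0) {g g' : E → ℝ≥0∞} (hUG : UG μ K F g)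
    (hUG' : UG μ K F.symm g') {b : E} (hlpos : 0 < ‖F b‖) :
    ‖b‖ ≤ C1 K * vr μ F.symm 0 (2 * ‖F b‖) := by
  have hs0 : F.symm 0 = 0 := F.injective (by rw [F.apply_symm_apply, h0])
  have hUG2 : UG μ K F.symm.symm g := hUG
  have h1 := osc μ hn hK F.symm hUG' hUG2 (F b) 0 hlpos (by rw [sub_zero])
  rw [F.symm_apply_apply, hs0, sub_zero] at h1
  exact h1

theorem ext_i_F (μ : Measure E) [μ.IsAddHaarMeasure] (hn : 2 ≤ Module.finrank ℝ E)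
    {K : ℝ} (hK : 1 ≤ K) (F : E ≃ₜ E) (h0 : F 0 = 0) {g g' : E → ℝ≥0∞} (hUG : UG μ K F g)
    (hUG' : UG μ K F.symm g') {a : E} {r : ℝ} (hr : 0 < r) (ha : ‖a‖ ≤ r) :
    ‖F a‖ ≤ C1 K * vr μ F 0 (2 * r) := by
  have h1 := osc μ hn hK F hUG hUG' a 0 hr (by rwa [sub_zero])
  rwa [h0, sub_zero] at h1

theorem ext_ii (μ : Measure E) [μ.IsAddHaarMeasure] (hn : 2 ≤ Module.finrank ℝ E)
    {K : ℝ} (hK : 1 ≤ K) (F : E ≃ₜ E) (h0 : F 0 = 0) {g g' : E → ℝ≥0∞} (hUG : UG μ K F g)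
    (hUG' : UG μ K F.symm g') {ρ₀ r : ℝ} (hr : 0 < r) (hρr : ρ₀ ≤ r) {a b : E}
    (ha : ‖a‖ ≤ r) (hb : ‖b‖ = r) (hLpos : 0 < ‖F a‖) (hlpos : 0 < ‖F b‖)
    (hP : ∀ x y : E, ‖x‖ ≤ ‖y‖ → ρ₀ ≤ ‖y‖ → ‖F b‖ * ‖F x‖ ≤ 2 * ‖F a‖ * ‖F y‖) :
    F.symm '' ball 0 (2 * ‖F b‖) ⊆ ball 0 (MM K * r) := by
  rintro _ ⟨v, hv, rfl⟩
  rw [mem_ball_zero_iff] at hv ⊢
  by_contra hcon
  rw [not_lt] at hcon
  set y := F.symm v with hy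
  have hFy : F y = v := by rw [hy, F.apply_symm_apply]
  have hM2 := two_le_MM hK
  have hMr : r ≤ MM K * r := by nlinarith
  have hsub : F '' ball 0 (MM K * r) ⊆ closedBall 0 (4 * ‖F a‖) := by
    rintro _ ⟨x, hx, rfl⟩
    rw [mem_ball_zero_iff] at hx
    rw [mem_closedBall_zero_iff]
    have h1 := hP x y (hx.le.trans hcon) (hρr.trans (hMr.trans hcon))
    rw [hFy] at h1
    have h2 : ‖F b‖ * ‖F x‖ ≤ ‖F b‖ * (4 * ‖F a‖) := by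
      calc ‖F b‖ * ‖F x‖ ≤ 2 * ‖F a‖ * ‖v‖ := h1
        _ ≤ 2 * ‖F a‖ * (2 * ‖F b‖) := by gcongr
        _ = ‖F b‖ * (4 * ‖F a‖) := by ring
    exact le_of_mul_le_mul_left h2 hlpos
  have h1 : vr μ F 0 (MM K * r) ≤ 4 * ‖F a‖ := vr_le μ (by omega) F (by positivity) hsub
  have h2 := ext_i_F μ hn hK F h0 hUG hUG' hr ha
  have h3 := vr_growth_pow μ hn hK F hUG' 0 (ρ := 2 * r) (by positivity) ⌈4 * C1 K⌉₊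
  have h4 : M1 K ^ ⌈4 * C1 K⌉₊ * (2 * r) = MM K * r := by
    unfold MM; ring
  rw [h4] at h3
  have h5 := two_pow_MM hK
  have h6 := one_le_C1 hK
  have h7 : 0 < vr μ F 0 (2 * r) := by
    by_contra h
    rw [not_lt] at h
    nlinarith
  have h8 : 4 * C1 K * vr μ F 0 (2 * r) < 2 ^ ⌈4 * C1 K⌉₊ * vr μ F 0 (2 * r) := by gcongr
  linarith

theorem ext_iii (μ : Measure E) [μ.IsAddHaarMeasure] (hn : 2 ≤ Module.finrank ℝ E)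
    {K : ℝ} (hK : 1 ≤ K) (F : E ≃ₜ E) (h0 : F 0 = 0) {g g' : E → ℝ≥0∞} (hUG : UG μ K F g)
    (hUG' : UG μ K F.symm g') {ρ₀ r : ℝ} (hr : 0 < r) (hρr : ρ₀ ≤ r) {a b : E}
    (ha : ‖a‖ ≤ r) (hb : ‖b‖ = r) (hLpos : 0 < ‖F a‖) (hlpos : 0 < ‖F b‖)
    (hP : ∀ x y : E, ‖x‖ ≤ ‖y‖ → ρ₀ ≤ ‖y‖ → ‖F b‖ * ‖F x‖ ≤ 2 * ‖F a‖ * ‖F y‖) :
    ∀ x : E, ‖x‖ ≤ 2 * r → ‖F x‖ < A0 K * ‖F a‖ := by
  intro x hx
  by_contra hcon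
  rw [not_lt] at hcon
  have hA := four_le_A0 hK
  have hsub : F.symm '' ball 0 (A0 K / 2 * ‖F b‖) ⊆ closedBall 0 (2 * r) := by
    rintro _ ⟨v, hv, rfl⟩
    rw [mem_ball_zero_iff] at hv
    rw [mem_closedBall_zero_iff]
    by_contra h
    rw [not_le] at h
    set y := F.symm v with hy
    have hFy : F y = v := by rw [hy, F.apply_symm_apply]
    have h1 := hP x y (hx.trans h.le) (by linarith)
    rw [hFy] at h1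
    have h2 : ‖F b‖ * (A0 K * ‖F a‖) ≤ ‖F b‖ * ‖F x‖ := by gcongr
    have h3 : 2 * ‖F a‖ * ‖v‖ < 2 * ‖F a‖ * (A0 K / 2 * ‖F b‖) := by gcongr
    nlinarith
  have h1 : vr μ F.symm 0 (A0 K / 2 * ‖F b‖) ≤ 2 * r :=
    vr_le μ (by omega) F.symm (by positivity) hsub
  have h2 := ext_i_G μ hn hK F h0 hUG hUG' hlpos
  have hUG2 : UG μ K F.symm.symm g := hUG
  have h3 := vr_growth_pow μ hn hK F.symm hUG2 0 (ρ := 2 * ‖F b‖) (by positivity) ⌈2 * C1 K⌉₊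
  have h4 : M1 K ^ ⌈2 * C1 K⌉₊ * (2 * ‖F b‖) = A0 K / 2 * ‖F b‖ := by
    unfold A0; ring
  rw [h4] at h3
  have h5 := two_pow_A0 hK
  have h6 := one_le_C1 hK
  rw [hb] at h2
  have h7 : 0 < vr μ F.symm 0 (2 * ‖F b‖) := by
    by_contra h
    rw [not_lt] at h
    nlinarith
  have h8 : 2 * C1 K * vr μ F.symm 0 (2 * ‖F b‖) <
      2 ^ ⌈2 * C1 K⌉₊ * vr μ F.symm 0 (2 * ‖F b‖) := by gcongr
  linarith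

end H42DF
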