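import Pool.Agent.H42.DF.B8a

/-!
# B8b (EXTREMAL argument, part (iv))

Notation of B8a; `c = cc K ∈ (0, 1/2]`, `D = DD K = 4 K M² C₁ / c ≥ 1`, `Λ = exp((2D)²)`.
There is `x ∈ ball a (c r)` with `‖F x‖ < 2 l Λ`: otherwise
`lemS_real` with `B = ball 0 (M r)`, `X = G '' ball 0 (2l)` (in `B` by `ext_ii`; `‖F x‖ < 2l` on it),
`Y = ball a (c r) ⊆ ball 0 (2r) ⊆ B` (`M ≥ 2`), `q = 0`,
`s1 = 2 l`, `s2 = 2 l Λ`, `log (s2/s1) = (2D)²`: `|X||Y| ((2D)²)^(n-1) ≤ n (4K)^n |B|²`, with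
`|X| = κ v_G(0,2l)^n ≥ κ (r/C₁)^n` (`vr_pow`, `ext_i_G`), `|Y| = κ (c r)^n`, `|B| = κ (M r)^n` (`real_ball`):
`((2D)²)^(n-1) ≤ n (4 K M² C₁/c)^n = n D^n < ((2D)²)^(n-1)` (`dd_ineq`). Contradiction.
-/

set_option autoImplicit false

open MeasureTheory Metric Set Filter Topology
open scoped ENNReal NNReal

namespace H42DF

variable {E : Type*} [NormedAddCommGroup E] [NormedSpace ℝ E] [FiniteDimensional ℝ E]
  [MeasurableSpace E] [BorelSpace E]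

theorem ext_iv (μ : Measure E) [μ.IsAddHaarMeasure] (hn : 2 ≤ Module.finrank ℝ E)
    {K : ℝ} (hK : 1 ≤ K) (F : E ≃ₜ E) (h0 : F 0 = 0) {g g' : E → ℝ≥0∞} (hUG : UG μ K F g)
    (hUG' : UG μ K F.symm g') {ρ₀ r : ℝ} (hr : 0 < r) (hρr : ρ₀ ≤ r) {a b : E}
    (ha : ‖a‖ ≤ r) (hb : ‖b‖ = r) (hLpos : 0 < ‖F a‖) (hlpos : 0 < ‖F b‖)
    (hP : ∀ x y : E, ‖x‖ ≤ ‖y‖ → ρ₀ ≤ ‖y‖ → ‖F b‖ * ‖F x‖ ≤ 2 * ‖F a‖ * ‖F y‖) :
    ∃ x ∈ ball a (cc K * r), ‖F x‖ < 2 * ‖F b‖ * Real.exp ((2 * DD K) ^ 2) := by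
  by_contra hcon
  push Not at hcon
  set n := Module.finrank ℝ E with hndef
  have hn1 : 1 ≤ n := by omega
  have hM := two_le_MM hK
  have hC := one_le_C1 hK
  have hc := cc_pos hK
  have hc2 := cc_le hK
  have hD := one_le_DD hK
  set Λ := Real.exp ((2 * DD K) ^ 2) with hΛ
  have hΛ1 : 1 < Λ := by
    rw [hΛ]
    exact Real.one_lt_exp_iff.2 (by positivity)
  set κ := μ.real (ball (0 : E) 1) with hκ
  have hκ0 : 0 < κ := kappa_pos μ
  have hXB := ext_ii μ hn hK F h0 hUG hUG' hr hρr ha hb hLpos hlpos hP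
  have hYB : ball a (cc K * r) ⊆ ball 0 (MM K * r) := by
    intro y hy
    rw [mem_ball_iff_norm] at hy
    rw [mem_ball_zero_iff]
    calc ‖y‖ = ‖(y - a) + a‖ := by rw [sub_add_cancel]
      _ ≤ ‖y - a‖ + ‖a‖ := norm_add_le _ _
      _ < cc K * r + r := by linarith
      _ ≤ MM K * r := by nlinarith
  have key := lemS_real μ hn1 hK F hUG 0 0 (MM K * r) (s1 := 2 * ‖F b‖) (s2 := 2 * ‖F b‖ * Λ)
    (by positivity) (by nlinarith) (F.symm '' ball 0 (2 * ‖F b‖)) (ball a (cc K * r))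
    (F.symm.isOpenMap _ isOpen_ball).measurableSet measurableSet_ball hXB hYB
    (by
      rintro _ ⟨v, hv, rfl⟩
      rw [mem_ball_zero_iff] at hv
      rw [F.apply_symm_apply, sub_zero]
      exact hv.le)
    (by
      intro y hy
      rw [sub_zero]
      exact hcon y hy)
  have hlog : Real.log (2 * ‖F b‖ * Λ / (2 * ‖F b‖)) = (2 * DD K) ^ 2 := by
    rw [mul_div_cancel_left₀ _ (by positivity), hΛ, Real.log_exp]
  rw [hlog, ← vr_pow μ hn1 F.symm, real_ball μ a (R := cc K * r) (by positivity) hn1,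
    real_ball μ 0 (R := MM K * r) (by positivity) hn1] at key
  simp only [← hndef, ← hκ] at key
  have h1 := ext_i_G μ hn hK F h0 hUG hUG' hlpos
  rw [hb] at h1
  set v := vr μ F.symm 0 (2 * ‖F b‖) with hv
  have hv0 : 0 ≤ v := vr_nonneg _ _ _ _
  have h2 : r ^ n ≤ C1 K ^ n * v ^ n := by
    rw [← mul_pow]
    exact pow_le_pow_left₀ hr.le h1 n
  set P := ((2 * DD K) ^ 2) ^ (n - 1) with hP'
  have hP0 : 0 < P := by positivity
  -- multiply `key` by `C1 ^ n`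
  have h3 : r ^ n * κ * ((cc K * r) ^ n * κ) * P ≤
      C1 K ^ n * (n * (4 * K) ^ n * ((MM K * r) ^ n * κ) ^ 2) := by
    calc r ^ n * κ * ((cc K * r) ^ n * κ) * P
        ≤ (C1 K ^ n * v ^ n) * κ * ((cc K * r) ^ n * κ) * P := by gcongr
      _ = C1 K ^ n * (v ^ n * κ * ((cc K * r) ^ n * κ) * P) := by ring
      _ ≤ _ := mul_le_mul_of_nonneg_left key (by positivity)
  have h4 : DD K ^ n * cc K ^ n = (4 * K) ^ n * (MM K ^ n) ^ 2 * C1 K ^ n := by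
    rw [← mul_pow, DD, div_mul_cancel₀ _ hc.ne', mul_pow, mul_pow, ← pow_mul, ← pow_mul,
      mul_comm 2 n]
  have h5 : cc K ^ n * P ≤ n * (DD K ^ n * cc K ^ n) := by
    have h6 : (r ^ n * r ^ n * κ ^ 2) * (cc K ^ n * P) ≤
        (r ^ n * r ^ n * κ ^ 2) * (n * (DD K ^ n * cc K ^ n)) := by
      calc (r ^ n * r ^ n * κ ^ 2) * (cc K ^ n * P) =
            r ^ n * κ * ((cc K * r) ^ n * κ) * P := by rw [mul_pow]; ring
        _ ≤ _ := h3
        _ = _ := by rw [h4, mul_pow (MM K)]; ring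
    exact le_of_mul_le_mul_left h6 (by positivity)
  have h7 : P ≤ n * DD K ^ n := by
    have h8 : cc K ^ n * P ≤ cc K ^ n * (n * DD K ^ n) := by
      calc cc K ^ n * P ≤ _ := h5
        _ = _ := by ring
    exact le_of_mul_le_mul_left h8 (by positivity)
  exact absurd (dd_ineq hD hn) (not_lt.2 h7)

end H42DF
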