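import Mathlib

/-!
# MP_b924dd_an: dimension-free quasisymmetry of metric quasiconformal homeomorphisms: definitions

Complete paper proof: /team-store/H42_b924dd.md
-/

set_option autoImplicit false

open MeasureTheory Metric Set Filter Topology
open scoped ENNReal NNReal

namespace H42DF

/-! ### The definitions of the problem -/

/-- the linear dilatation `H_f(x) = limsup_{r → 0} L_f(x,r) / l_f(x,r)`, where `L_f(x,r)` is the
supremum of `|f y - f x|` over `|y - x| ≤ r` and `l_f(x,r)` its infimum over `|y - x| = r` -/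
noncomputable def dilat {X Y : Type*} [MetricSpace X] [MetricSpace Y] (f : X → Y) (x : X) :
    ℝ≥0∞ :=
  limsup (fun r : ℝ => (⨆ (y : X) (_ : dist y x ≤ r), edist (f y) (f x)) /
    (⨅ (y : X) (_ : dist y x = r), edist (f y) (f x))) (𝓝[>] 0)

/-- `f` is `K`-quasiconformal (metric definition) -/
def IsKQC {X Y : Type*} [MetricSpace X] [MetricSpace Y] (K : ℝ) (f : X → Y) : Prop :=
  ∀ x, dilat f x ≤ ENNReal.ofReal K

/-- `f` is `η`-quasisymmetric -/
def IsQS {X Y : Type*} [MetricSpace X] [MetricSpace Y] (η : ℝ≥0 ≃ₜ ℝ≥0) (f : X → Y) : Prop :=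
  ∀ t : ℝ≥0, 0 < t → ∀ x a b : X, dist x a ≤ t * dist x b →
    dist (f x) (f a) ≤ η t * dist (f x) (f b)

/-! ### Local conditions -/

section Normed
variable {E : Type*} [NormedAddCommGroup E] [NormedSpace ℝ E]

/-- the metric condition at `x` in elementary form: for all small `r > 0`,
`|F u - F x| ≤ C |F w - F x|` whenever `|u - x| ≤ r = |w - x|` -/
def EM (C : ℝ) (F : E → E) (x : E) : Prop :=
  ∀ᶠ r in 𝓝[>] (0 : ℝ), ∀ u w : E, ‖u - x‖ ≤ r → ‖w - x‖ = r → ‖F u - F x‖ ≤ C * ‖F w - F x‖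

/-- two-sided local condition at `x` (it holds for a quasiconformal map and for its inverse) -/
def LocQC (C : ℝ) (F : E → E) (x : E) : Prop :=
  ∀ᶠ r in 𝓝[>] (0 : ℝ), ∃ ρ : ℝ, 0 < ρ ∧ F '' ball x r ⊆ ball (F x) (C * ρ) ∧
    ball (F x) ρ ⊆ F '' ball x (C * r)

/-- the tube of radius `ρ` around the segment from `x` to `x + e` -/
def tube (e x : E) (ρ : ℝ) : Set E := {p | ∃ t ∈ Icc (0 : ℝ) 1, ‖p - (x + t • e)‖ < ρ}

/-- `σ` is a (measurable) pointwise slope function of the Lipschitz function `ψ` -/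
structure SlopeFun [MeasurableSpace E] (ψ σ : E → ℝ) : Prop where
  lip : ∃ L : ℝ≥0, LipschitzWith L ψ
  meas : Measurable σ
  nonneg : ∀ p, 0 ≤ σ p
  slope : ∀ p, ∀ c : ℝ, σ p < c → ∀ᶠ p' in 𝓝 p, |ψ p' - ψ p| ≤ c * ‖p' - p‖

variable [MeasurableSpace E]

/-- local volume condition at `x`: `|F u - F x|^n |B(0,1)| ≤ C^n |F(B(x, C r))|` for
`u ∈ B(x,r)`, `r` small, where `n = dim E` -/
def LocV (μ : Measure E) (C : ℝ) (F : E → E) (x : E) : Prop :=
  ∀ᶠ r in 𝓝[>] (0 : ℝ), ∀ u ∈ ball x r,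
    ‖F u - F x‖ₑ ^ Module.finrank ℝ E * μ (ball (0 : E) 1) ≤
      ENNReal.ofReal C ^ Module.finrank ℝ E * μ (F '' ball x (C * r))

/-- the volume radius of `F(B(z,r))` -/
noncomputable def vr (μ : Measure E) (F : E → E) (z : E) (r : ℝ) : ℝ :=
  (μ.real (F '' ball z r) / μ.real (ball (0 : E) 1)) ^ ((Module.finrank ℝ E : ℝ)⁻¹)

/-- `g` is an `n`-upper gradient of `F` (`n = dim E`), `g ^ n` being at most `K ^ n` times the
volume derivative, and the upper gradient inequality holding for almost all segments in every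
direction, for all functions `ψ ∘ F` with `ψ` Lipschitz -/
structure UG (μ : Measure E) (K : ℝ) (F : E → E) (g : E → ℝ≥0∞) : Prop where
  meas : Measurable g
  vol : ∀ s : Set E, MeasurableSet s → ∀ φ : E → ℝ≥0∞, Measurable φ →
    ∫⁻ x in s, φ (F x) * g x ^ Module.finrank ℝ E ∂μ ≤
      ENNReal.ofReal K ^ Module.finrank ℝ E * ∫⁻ y in F '' s, φ y ∂μ
  line : ∀ e : E, ∀ᵐ x ∂μ, ∀ ψ σ : E → ℝ, SlopeFun ψ σ →
    ENNReal.ofReal |ψ (F (x + e)) - ψ (F x)| ≤
      ∫⁻ t in Icc (0 : ℝ) 1, ENNReal.ofReal (σ (F (x + t • e)) * ‖e‖) * g (x + t • e)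

omit [NormedSpace ℝ E] [MeasurableSpace E] in
/-- truncated logarithm of the distance to `q` -/
noncomputable def ps (q : E) (s1 s2 : ℝ) (p : E) : ℝ := Real.log (max s1 (min s2 ‖p - q‖))

omit [NormedSpace ℝ E] [MeasurableSpace E] in
open Classical in
/-- slope function of the truncated logarithm -/
noncomputable def sg (q : E) (s1 s2 : ℝ) (p : E) : ℝ :=
  if s1 ≤ ‖p - q‖ ∧ ‖p - q‖ ≤ s2 then ‖p - q‖⁻¹ else 0

end Normed

/-! ### The constants -/

/-- growth constant -/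
noncomputable def M1 (K : ℝ) : ℝ := Real.exp ((32 * K) ^ 2)

/-- oscillation constant -/
noncomputable def C1 (K : ℝ) : ℝ := 16 * K * (M1 K + 1)

/-- `M` of the extremal argument -/
noncomputable def MM (K : ℝ) : ℝ := 2 * M1 K ^ ⌈4 * C1 K⌉₊

/-- `A₀` of the extremal argument -/
noncomputable def A0 (K : ℝ) : ℝ := 4 * M1 K ^ ⌈2 * C1 K⌉₊

/-- `c` of the extremal argument -/
noncomputable def cc (K : ℝ) : ℝ := (M1 K ^ ⌈2 * C1 K * A0 K⌉₊)⁻¹ / 2

/-- `D` of the extremal argument -/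
noncomputable def DD (K : ℝ) : ℝ := 4 * K * MM K ^ 2 * C1 K / cc K

/-- the constant of the extremal argument -/
noncomputable def S0 (K : ℝ) : ℝ := 8 * Real.exp ((2 * DD K) ^ 2)

end H42DF
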