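import Pool.Agent.H42.DF.Defs

/-!
# S1: the elementary metric condition gives the local two-sided condition, for `f` and for `f⁻¹`

`E` finite-dimensional, nontrivial; `f : E ≃ₜ E`; `EM C f x` with `1 ≤ C`.

**locQC_of_em.** Let `r > 0` be small and `ρ := min_{‖w-x‖=r} ‖f w - f x‖` (the sphere is compact and
nonempty, since `E` is nontrivial; `ρ > 0` by injectivity).  By `EM`, `‖f u - f x‖ ≤ C ρ < 2 C ρ` for
`‖u - x‖ ≤ r`.  And `ball (f x) ρ ⊆ f '' ball x r ⊆ f '' ball x (2 C r)`: let `‖y - f x‖ < ρ` and suppose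
`‖f⁻¹ y - x‖ ≥ r`; the continuous function `t ↦ ‖f⁻¹ (f x + t (y - f x)) - x‖` on `[0,1]` is `0` at `0` and
`≥ r` at `1`, so it is `r` at some `t`; then `w = f⁻¹(f x + t(y - f x))` has `‖w - x‖ = r` and
`‖f w - f x‖ = t ‖y - f x‖ < ρ`, a contradiction.

**locQC_symm_of_em.** Let `g = f⁻¹`, `y = f x`. Given small `s > 0`, let
`r := max_{‖v - y‖ ≤ s} ‖g v - x‖ = ‖g v₀ - x‖` (compactness; `r > 0` because the closed ball has a point
`≠ y`; `r` is as small as we like when `s → 0` by continuity of `g` at `y`). With `w₀ = g v₀`: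
`‖w₀ - x‖ = r`, `‖f w₀ - f x‖ ≤ s`.  `EM` (for this `r`) gives `‖f u - y‖ ≤ C s` for all `‖u - x‖ ≤ r`,
so `ball x r ⊆ g '' ball y (2 C s)`.  And `g '' ball y s ⊆ closedBall x r ⊆ ball x (2 C r)`.
So `ρ := r` works.
-/

set_option autoImplicit false

open MeasureTheory Metric Set Filter Topology
open scoped ENNReal NNReal

namespace H42DF

variable {E : Type*} [NormedAddCommGroup E] [NormedSpace ℝ E] [FiniteDimensional ℝ E]
  [Nontrivial E]

theorem locQC_of_em (f : E ≃ₜ E) {C : ℝ} (hC : 1 ≤ C) {x : E} (h : EM C f x) :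
    LocQC (2 * C) f x := by
  unfold LocQC
  filter_upwards [h, self_mem_nhdsWithin] with r hr hr0
  have hr0' : 0 < r := hr0
  have hsph : (sphere x r).Nonempty := NormedSpace.sphere_nonempty.2 hr0'.le
  have hcf : ContinuousOn (fun w => ‖f w - f x‖) (sphere x r) := by
    exact ((f.continuous.sub continuous_const).norm).continuousOn
  obtain ⟨w₀, hw₀, hmin⟩ := (isCompact_sphere x r).exists_isMinOn hsph hcf
  have hw₀' : ‖w₀ - x‖ = r := by rwa [mem_sphere, dist_eq_norm] at hw₀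
  have hne : w₀ ≠ x := by
    rintro rfl
    rw [sub_self, norm_zero] at hw₀'
    exact hr0'.ne hw₀'
  have hρ : 0 < ‖f w₀ - f x‖ := norm_pos_iff.2 (sub_ne_zero.2 (f.injective.ne hne))
  refine ⟨‖f w₀ - f x‖, hρ, ?_, ?_⟩
  · rintro _ ⟨u, hu, rfl⟩
    rw [mem_ball, dist_eq_norm] at hu ⊢
    have h1 := hr u w₀ hu.le hw₀'
    nlinarith
  · intro y hy
    rw [mem_ball, dist_eq_norm] at hy
    have hlt : ‖f.symm y - x‖ < r := by
      by_contra hcon
      push Not at hcon
      have hg : Continuous fun t : ℝ => ‖f.symm (f x + t • (y - f x)) - x‖ := by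
        have : Continuous fun t : ℝ => f.symm (f x + t • (y - f x)) :=
          f.symm.continuous.comp (by fun_prop)
        exact (this.sub continuous_const).norm
      obtain ⟨t, ht, hteq⟩ := intermediate_value_Icc (zero_le_one' ℝ) hg.continuousOn
        (show r ∈ Icc ‖f.symm (f x + (0 : ℝ) • (y - f x)) - x‖
          ‖f.symm (f x + (1 : ℝ) • (y - f x)) - x‖ by
          constructor
          · rw [zero_smul, add_zero, f.symm_apply_apply, sub_self, norm_zero]
            exact hr0'.le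
          · rw [one_smul, add_sub_cancel]
            exact hcon)
      simp only at hteq
      have h1 : ‖f w₀ - f x‖ ≤ ‖f (f.symm (f x + t • (y - f x))) - f x‖ := by
        refine hmin ?_
        rw [mem_sphere, dist_eq_norm]
        exact hteq
      rw [f.apply_symm_apply, add_sub_cancel_left, norm_smul, Real.norm_of_nonneg ht.1] at h1
      have h2 : t * ‖y - f x‖ ≤ 1 * ‖y - f x‖ := mul_le_mul_of_nonneg_right ht.2 (norm_nonneg _)
      linarith
    refine ⟨f.symm y, ?_, f.apply_symm_apply y⟩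
    rw [mem_ball, dist_eq_norm]
    nlinarith

theorem locQC_symm_of_em (f : E ≃ₜ E) {C : ℝ} (hC : 1 ≤ C) {x : E} (h : EM C f x) :
    LocQC (2 * C) f.symm (f x) := by
  unfold EM at h
  obtain ⟨r0, hr0, h0⟩ := mem_nhdsGT_iff_exists_Ioo_subset.1 h
  have hr0' : 0 < r0 := hr0
  have hcont : ContinuousAt f.symm (f x) := f.symm.continuous.continuousAt
  obtain ⟨δ, hδ, hδ2⟩ := Metric.continuousAt_iff.1 hcont r0 hr0'
  rw [f.symm_apply_apply] at hδ2
  unfold LocQC
  filter_upwards [Ioo_mem_nhdsGT hδ] with s hs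
  have hcg : ContinuousOn (fun v => ‖f.symm v - x‖) (closedBall (f x) s) :=
    ((f.symm.continuous.sub continuous_const).norm).continuousOn
  obtain ⟨v₀, hv₀, hmax⟩ := (isCompact_closedBall (f x) s).exists_isMaxOn
    ⟨f x, mem_closedBall_self hs.1.le⟩ hcg
  have hrlt : ‖f.symm v₀ - x‖ < r0 := by
    have := hδ2 (lt_of_le_of_lt (mem_closedBall.1 hv₀) hs.2)
    rwa [dist_eq_norm] at this
  obtain ⟨v₁, hv₁⟩ : (sphere (f x) s).Nonempty := NormedSpace.sphere_nonempty.2 hs.1.le
  have hv₁ne : v₁ ≠ f x := by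
    rintro rfl
    rw [mem_sphere, dist_self] at hv₁
    exact hs.1.ne hv₁
  have hrpos : 0 < ‖f.symm v₀ - x‖ := by
    have h1 : 0 < ‖f.symm v₁ - x‖ := by
      refine norm_pos_iff.2 (sub_ne_zero.2 fun h => hv₁ne ?_)
      rw [← h, f.apply_symm_apply]
    exact lt_of_lt_of_le h1 (hmax (sphere_subset_closedBall hv₁))
  have hEM : ∀ u, ‖u - x‖ ≤ ‖f.symm v₀ - x‖ → ‖f u - f x‖ ≤ C * s := by
    intro u hu
    have h1 := h0 ⟨hrpos, hrlt⟩
    have h2 := h1 u (f.symm v₀) hu rfl
    rw [f.apply_symm_apply] at h2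
    have h3 : ‖v₀ - f x‖ ≤ s := by
      rw [← dist_eq_norm]
      exact mem_closedBall.1 hv₀
    exact h2.trans (mul_le_mul_of_nonneg_left h3 (by linarith))
  refine ⟨‖f.symm v₀ - x‖, hrpos, ?_, ?_⟩
  · rintro _ ⟨v, hv, rfl⟩
    rw [f.symm_apply_apply, mem_ball, dist_eq_norm]
    have h1 : ‖f.symm v - x‖ ≤ ‖f.symm v₀ - x‖ := hmax (ball_subset_closedBall hv)
    nlinarith
  · intro u hu
    rw [f.symm_apply_apply, mem_ball, dist_eq_norm] at hu
    refine ⟨f u, ?_, f.symm_apply_apply u⟩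
    rw [mem_ball, dist_eq_norm]
    have h1 := hEM u hu.le
    have h2 : 0 < C * s := mul_pos (by linarith) hs.1
    linarith

end H42DF
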