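import Pool.Agent.H42.DF.Defs

/-!
# S2: conjugation with the inversion `i(x) = x / ‖x‖²`

`i = EuclideanGeometry.inversion 0 1`; `i 0 = 0`, `i (i x) = x`, `‖i x‖ = 1 / ‖x‖` (`x ≠ 0`),
`‖i u - i v‖ = ‖u - v‖ / (‖u‖ ‖v‖)` for `u, v ≠ 0` (`EuclideanGeometry.dist_inversion_inversion`).

**exists_conj.** `f` a homeomorphism of the finite-dimensional `V`, `f 0 = 0`. `F = i ∘ f ∘ i` is a bijection
with inverse `i ∘ f⁻¹ ∘ i`; it is continuous off `0` (`f (i x) ≠ 0` there, `i` is continuous off `0`), and at
`0`: if `x → 0`, `x ≠ 0`, then `‖i x‖ → ∞`, so `‖f (i x)‖ → ∞` (a homeomorphism of a finite-dimensional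
space is proper: `Homeomorph.tendsto_cocompact`-type lemma and `cocompact = comap norm atTop`), so
`‖i (f (i x))‖ → 0`. Same for `f⁻¹`.
-/

set_option autoImplicit false

open MeasureTheory Metric Set Filter Topology
open scoped ENNReal NNReal

namespace H42DF

variable {V : Type*} [NormedAddCommGroup V] [InnerProductSpace ℝ V] [FiniteDimensional ℝ V]
  [Nontrivial V]

omit [FiniteDimensional ℝ V] [Nontrivial V] in
theorem S2_norm_inversion (x : V) : ‖EuclideanGeometry.inversion (0 : V) 1 x‖ = 1 / ‖x‖ := by
  have h1 := EuclideanGeometry.dist_inversion_center (0 : V) x 1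
  rwa [dist_zero_right, dist_zero_right, one_pow] at h1

omit [Nontrivial V] in
theorem S2_cont (f : V ≃ₜ V) (h0 : f 0 = 0) : Continuous
    (fun x => EuclideanGeometry.inversion 0 1 (f (EuclideanGeometry.inversion 0 1 x))) := by
  rw [continuous_iff_continuousAt]
  intro x
  by_cases hx : x = 0
  · rw [hx, continuousAt_iff_punctured_nhds]
    simp only [EuclideanGeometry.inversion_self, h0]
    have h1 : Tendsto (EuclideanGeometry.inversion (0 : V) 1) (𝓝[≠] 0)
        (Bornology.cobounded V) :=
      EuclideanGeometry.tendsto_inversion_nhdsNE_center_cobounded one_ne_zero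
    have h2 : Tendsto f (Bornology.cobounded V) (Bornology.cobounded V) := by
      rw [cobounded_eq_cocompact]
      exact f.isClosedEmbedding.tendsto_cocompact
    have h3 : Tendsto (EuclideanGeometry.inversion (0 : V) 1) (Bornology.cobounded V) (𝓝 0) := by
      rw [tendsto_zero_iff_norm_tendsto_zero]
      simp only [S2_norm_inversion, one_div]
      exact tendsto_inv_atTop_zero.comp tendsto_norm_cobounded_atTop
    exact h3.comp (h2.comp h1)
  · have h1 : ContinuousAt (fun x : V => EuclideanGeometry.inversion (0 : V) 1 x) x :=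
      continuousAt_const.inversion continuousAt_const continuousAt_id hx
    have h2 : ContinuousAt (fun x : V => f (EuclideanGeometry.inversion (0 : V) 1 x)) x :=
      ContinuousAt.comp f.continuous.continuousAt h1
    refine continuousAt_const.inversion continuousAt_const h2 ?_
    intro h3
    have h4 : EuclideanGeometry.inversion (0 : V) 1 x = 0 := f.injective (h3.trans h0.symm)
    rw [EuclideanGeometry.inversion_eq_center one_ne_zero] at h4
    exact hx h4

theorem exists_conj (f : V ≃ₜ V) (h0 : f 0 = 0) : ∃ F : V ≃ₜ V,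
    (∀ x, F x = EuclideanGeometry.inversion 0 1 (f (EuclideanGeometry.inversion 0 1 x))) ∧
    (∀ x, F.symm x =
      EuclideanGeometry.inversion 0 1 (f.symm (EuclideanGeometry.inversion 0 1 x))) := by
  have hs0 : f.symm 0 = 0 := by
    rw [Homeomorph.symm_apply_eq, h0]
  have hii : ∀ x : V, EuclideanGeometry.inversion (0 : V) 1
      (EuclideanGeometry.inversion (0 : V) 1 x) = x := fun x =>
    EuclideanGeometry.inversion_inversion (0 : V) one_ne_zero x
  refine ⟨{
    toFun := fun x => EuclideanGeometry.inversion 0 1 (f (EuclideanGeometry.inversion 0 1 x))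
    invFun := fun x =>
      EuclideanGeometry.inversion 0 1 (f.symm (EuclideanGeometry.inversion 0 1 x))
    left_inv := fun x => by
      simp only [hii, f.symm_apply_apply]
    right_inv := fun x => by
      simp only [hii, f.apply_symm_apply]
    continuous_toFun := S2_cont f h0
    continuous_invFun := S2_cont f.symm hs0 }, fun x => rfl, fun x => rfl⟩

end H42DF
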