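import Pool.Agent.H42.DF.Defs

/-!
# S2b: conjugation with the inversion `i(x) = x / ‖x‖²`

`i = EuclideanGeometry.inversion 0 1`; `i 0 = 0`, `i (i x) = x`, `‖i x‖ = 1 / ‖x‖` (`x ≠ 0`),
`‖i u - i v‖ = ‖u - v‖ / (‖u‖ ‖v‖)` for `u, v ≠ 0` (`EuclideanGeometry.dist_inversion_inversion`).

**locQC_conj.** `f, F : V → V` with `F x = i (f (i x))` for all `x`, `f` a homeomorphism, `f 0 = 0`, `x ≠ 0`,
`z = i x`, `LocQC C f z`, `1 ≤ C`. Then `LocQC (4 C) F x`. Proof: `z ≠ 0`, `f z ≠ 0`. For small `r > 0`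
(`r ≤ ‖x‖/2`, and more) put `r' = 2 r / ‖x‖²`.
 (1) `i (ball x r) ⊆ ball z r'`: `‖i u - z‖ = ‖u - x‖/(‖u‖‖x‖) < r / ((‖x‖/2) ‖x‖)`.
 (2) take `ρ` from `LocQC C f z` at radius `r'`: `f (ball z r') ⊆ ball (f z) (C ρ)`, `ball (f z) ρ ⊆ f (ball z (C r'))`.
     As `r → 0` we have `ρ → 0`: `f (ball z (C r')) ⊆ ball (f z) ε` for small `r` and `ball a ρ ⊆ ball a ε`
     implies `ρ ≤ ε` in a nontrivial space; so we may assume `C ρ ≤ ‖f z‖ / 2`.
 (3) `i (ball (f z) (C ρ)) ⊆ ball (F x) (2 C ρ / ‖f z‖²)`: as in (1), since points of the ball have norm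
     `≥ ‖f z‖/2`.
 (4) `ball (F x) (ρ / (2 ‖f z‖²)) ⊆ i (ball (f z) ρ)`: if `‖y - F x‖ < ρ/(2‖f z‖²)`, `‖F x‖ = 1/‖f z‖`, then
     `‖y‖ ≥ ‖F x‖/2` (as `ρ ≤ ‖f z‖`), `‖i y - f z‖ = ‖y - F x‖/(‖y‖‖F x‖) ≤ 2 ‖y - F x‖ ‖f z‖² < ρ`.
 (5) `i (ball z (C r')) ⊆ ball x (4 C r)` for small `r` (`C r' ≤ ‖z‖/2`): `‖i w - x‖ = ‖w - z‖/(‖w‖‖z‖)
     < C r' · 2/‖z‖² = 4 C r` because `‖z‖ = 1/‖x‖`.
 With `ρ_F = ρ / (2 ‖f z‖²)`: `F (ball x r) ⊆ ball (F x) (4 C ρ_F)`, `ball (F x) ρ_F ⊆ i (f (ball z (C r'))) ⊆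
 F (ball x (4 C r))`.
-/

set_option autoImplicit false

open MeasureTheory Metric Set Filter Topology
open scoped ENNReal NNReal

namespace H42DF

variable {V : Type*} [NormedAddCommGroup V] [InnerProductSpace ℝ V] [FiniteDimensional ℝ V]
  [Nontrivial V]

omit [FiniteDimensional ℝ V] [Nontrivial V] in
theorem S2b_norm_inversion (x : V) : ‖EuclideanGeometry.inversion (0 : V) 1 x‖ = 1 / ‖x‖ := by
  have h1 := EuclideanGeometry.dist_inversion_center (0 : V) x 1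
  rwa [dist_zero_right, dist_zero_right, one_pow] at h1

omit [FiniteDimensional ℝ V] [Nontrivial V] in
theorem S2b_ball {a u : V} {s : ℝ} (ha : a ≠ 0) (hs : s ≤ ‖a‖ / 2) (hu : ‖u - a‖ < s) :
    ‖EuclideanGeometry.inversion (0 : V) 1 u - EuclideanGeometry.inversion (0 : V) 1 a‖ <
      2 * s / ‖a‖ ^ 2 := by
  have hapos : 0 < ‖a‖ := norm_pos_iff.2 ha
  have h1 : ‖a‖ / 2 < ‖u‖ := by
    have h2 : ‖a‖ ≤ ‖u‖ + ‖u - a‖ := by
      have := norm_sub_norm_le a u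
      rw [norm_sub_rev a u] at this
      linarith
    linarith
  have hupos : 0 < ‖u‖ := by linarith
  have hu0 : u ≠ 0 := norm_pos_iff.1 hupos
  have h3 := EuclideanGeometry.dist_inversion_inversion hu0 ha 1
  rw [dist_eq_norm, dist_zero_right, dist_zero_right, dist_eq_norm, one_pow] at h3
  rw [h3, one_div, inv_mul_eq_div, div_lt_div_iff₀ (by positivity) (by positivity)]
  have h4 : ‖a‖ ^ 2 < 2 * (‖u‖ * ‖a‖) := by nlinarith
  have h5 : 0 < s := lt_of_le_of_lt (norm_nonneg _) hu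
  calc ‖u - a‖ * ‖a‖ ^ 2 ≤ s * ‖a‖ ^ 2 := by gcongr
    _ < s * (2 * (‖u‖ * ‖a‖)) := by gcongr
    _ = 2 * s * (‖u‖ * ‖a‖) := by ring

omit [FiniteDimensional ℝ V] in
theorem S2b_radius {a : V} {s t : ℝ} (hs : 0 ≤ t) (h : ball a s ⊆ ball a t) : s ≤ t := by
  by_contra hcon
  rw [not_le] at hcon
  obtain ⟨e, he⟩ := exists_norm_eq V hs
  have h1 : a + e ∈ ball a s := by
    rw [mem_ball, dist_eq_norm, add_sub_cancel_left, he]
    exact hcon
  have h2 := h h1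
  rw [mem_ball, dist_eq_norm, add_sub_cancel_left, he] at h2
  exact lt_irrefl _ h2

theorem locQC_conj (f : V ≃ₜ V) (h0 : f 0 = 0) (F : V → V)
    (hF : ∀ x, F x = EuclideanGeometry.inversion 0 1 (f (EuclideanGeometry.inversion 0 1 x)))
    {C : ℝ} (hC : 1 ≤ C) {x : V} (hx : x ≠ 0)
    (h : LocQC C f (EuclideanGeometry.inversion 0 1 x)) : LocQC (4 * C) F x := by
  have hii : ∀ y : V, EuclideanGeometry.inversion (0 : V) 1
      (EuclideanGeometry.inversion (0 : V) 1 y) = y := fun y =>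
    EuclideanGeometry.inversion_inversion (0 : V) one_ne_zero y
  have hC0 : 0 < C := by linarith
  have hxpos : 0 < ‖x‖ := norm_pos_iff.2 hx
  set z : V := EuclideanGeometry.inversion 0 1 x with hz
  have hiz : EuclideanGeometry.inversion (0 : V) 1 z = x := hii x
  have hzn : ‖z‖ = 1 / ‖x‖ := S2b_norm_inversion x
  have hzpos : 0 < ‖z‖ := by rw [hzn]; positivity
  have hz0 : z ≠ 0 := norm_pos_iff.1 hzpos
  have hfz0 : f z ≠ 0 := by
    intro hh
    apply hz0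
    apply f.injective
    rw [hh, h0]
  have hfzpos : 0 < ‖f z‖ := norm_pos_iff.2 hfz0
  have hFx : F x = EuclideanGeometry.inversion (0 : V) 1 (f z) := hF x
  have hFxn : ‖F x‖ = 1 / ‖f z‖ := by rw [hFx]; exact S2b_norm_inversion _
  have hFx0 : F x ≠ 0 := by
    rw [← norm_pos_iff, hFxn]
    positivity
  have hiFx : EuclideanGeometry.inversion (0 : V) 1 (F x) = f z := by rw [hFx]; exact hii _
  -- continuity at `z`
  set ε : ℝ := ‖f z‖ / (2 * C) with hε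
  have hεpos : 0 < ε := by positivity
  obtain ⟨δ, hδ, hδf⟩ := Metric.continuousAt_iff.1 (f.continuous.continuousAt (x := z)) ε hεpos
  -- the radii
  have hlim : Tendsto (fun r : ℝ => 2 * r / ‖x‖ ^ 2) (𝓝[>] 0) (𝓝[>] 0) := by
    rw [tendsto_nhdsWithin_iff]
    constructor
    · have h1 : Tendsto (fun r : ℝ => 2 * r / ‖x‖ ^ 2) (𝓝 0) (𝓝 (2 * 0 / ‖x‖ ^ 2)) := by
        have : Continuous fun r : ℝ => 2 * r / ‖x‖ ^ 2 := by fun_prop
        exact this.tendsto 0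
      rw [mul_zero, zero_div] at h1
      exact h1.mono_left nhdsWithin_le_nhds
    · filter_upwards [self_mem_nhdsWithin] with r hr
      have hr0 : (0 : ℝ) < r := hr
      rw [mem_Ioi]
      positivity
  have hsmall : ∀ c : ℝ, 0 < c → ∀ᶠ r : ℝ in 𝓝[>] 0, r < c := by
    intro c hc
    exact mem_nhdsWithin_of_mem_nhds (Iio_mem_nhds hc)
  have hev := hlim.eventually h
  have hev2 := hlim.eventually (hsmall (‖z‖ / (2 * C)) (by positivity))
  have hev3 := hlim.eventually (hsmall (δ / C) (by positivity))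
  filter_upwards [hev, hev2, hev3, hsmall (‖x‖ / 2) (by positivity), self_mem_nhdsWithin]
    with r hr1 hr2 hr3 hr4 hr5
  have hr0 : (0 : ℝ) < r := hr5
  set r' : ℝ := 2 * r / ‖x‖ ^ 2 with hr'
  have hr'pos : 0 < r' := by positivity
  obtain ⟨ρ, hρ, hρ1, hρ2⟩ := hr1
  have hCr : C * r' ≤ ‖z‖ / 2 := by
    rw [lt_div_iff₀ (by positivity)] at hr2
    linarith
  have hCδ : C * r' < δ := by
    rw [lt_div_iff₀ hC0] at hr3
    linarith
  have hρε : ρ ≤ ε := by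
    apply S2b_radius hεpos.le (a := f z)
    intro y hy
    obtain ⟨w, hw, rfl⟩ := hρ2 hy
    rw [mem_ball] at hw ⊢
    exact hδf (hw.trans hCδ)
  have hCρ : C * ρ ≤ ‖f z‖ / 2 := by
    have h1 : C * ρ ≤ C * ε := by gcongr
    have h2 : C * ε = ‖f z‖ / 2 := by
      rw [hε]
      field_simp
    linarith
  refine ⟨ρ / (2 * ‖f z‖ ^ 2), by positivity, ?_, ?_⟩
  · rintro _ ⟨u, hu, rfl⟩
    rw [mem_ball, dist_eq_norm] at hu
    have h1 : ‖EuclideanGeometry.inversion (0 : V) 1 u - z‖ < r' :=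
      S2b_ball hx hr4.le hu
    have h2 : f (EuclideanGeometry.inversion (0 : V) 1 u) ∈ ball (f z) (C * ρ) := by
      apply hρ1
      exact ⟨_, by rw [mem_ball, dist_eq_norm]; exact h1, rfl⟩
    rw [mem_ball, dist_eq_norm] at h2
    have h3 := S2b_ball hfz0 hCρ h2
    rw [mem_ball, dist_eq_norm, hF u, hFx]
    refine h3.trans_eq ?_
    field_simp
    ring
  · intro y hy
    rw [mem_ball, dist_eq_norm] at hy
    have h1 : ρ / (2 * ‖f z‖ ^ 2) ≤ ‖F x‖ / 2 := by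
      rw [hFxn, div_div, div_le_div_iff₀ (by positivity) (by positivity)]
      have h2 : ρ ≤ ‖f z‖ := by
        have : ρ ≤ C * ρ := by nlinarith
        linarith
      nlinarith
    have h2 := S2b_ball hFx0 h1 hy
    rw [hiFx] at h2
    have h3 : 2 * (ρ / (2 * ‖f z‖ ^ 2)) / ‖F x‖ ^ 2 = ρ := by
      rw [hFxn]
      field_simp
    rw [h3] at h2
    obtain ⟨w, hw, hwy⟩ := hρ2 (by rw [mem_ball, dist_eq_norm]; exact h2)
    rw [mem_ball, dist_eq_norm] at hw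
    have h4 := S2b_ball hz0 hCr hw
    rw [hiz] at h4
    refine ⟨EuclideanGeometry.inversion (0 : V) 1 w, ?_, ?_⟩
    · rw [mem_ball, dist_eq_norm]
      refine h4.trans_eq ?_
      rw [hzn, hr']
      field_simp
      ring
    · rw [hF, hii, hwy, hii]

end H42DF
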