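import Pool.Agent.H42.DF.Defs

/-!
# W1: the distortion at `0` is bounded on bounded radii

`f` a homeomorphism of the finite-dimensional `E`, `f 0 = 0`.
**exists_sphere_le.** `0 ≤ t ≤ ‖y‖`: there is `w` with `‖w‖ = t`, `‖f w‖ ≤ ‖f y‖`: `s ↦ ‖f⁻¹ (s • f y)‖` is continuous on
`[0,1]`, `0` at `0` and `‖y‖` at `1`; take `s` with value `t`, `w = f⁻¹ (s • f y)`, `‖f w‖ = s ‖f y‖`.
**near_zero.** `EM C f 0` gives `δ > 0` such that the condition holds for all radii in `(0, δ)`. Let `x ≠ 0`,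
`‖x‖ ≤ t₀`, `‖x‖ ≤ ‖y‖`. If `‖x‖ < δ`: `w` with `‖w‖ = ‖x‖`, `‖f w‖ ≤ ‖f y‖`; `‖f x‖ ≤ C ‖f w‖ ≤ C ‖f y‖`. If
`‖x‖ ≥ δ`: `w` with `‖w‖ = δ/2`, `‖f w‖ ≤ ‖f y‖`; `m₁ = max_{‖u‖ ≤ t₀} ‖f u‖`, `m₂ = min_{‖u‖ = δ/2} ‖f u‖ > 0` (compactness;
the sphere is nonempty as it contains such a `w`); `‖f x‖ ≤ m₁ ≤ (m₁/m₂) ‖f w‖ ≤ (m₁/m₂) ‖f y‖`. So
`S = max C (m₁/m₂)` (`C ≥ 0`).
**em_translate.** `EM` for `u ↦ f (x + u) - f x`.
-/

set_option autoImplicit false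

open MeasureTheory Metric Set Filter Topology
open scoped ENNReal NNReal

namespace H42DF

variable {E : Type*} [NormedAddCommGroup E] [NormedSpace ℝ E]

theorem exists_sphere_le (f : E ≃ₜ E) (h0 : f 0 = 0) {y : E} {t : ℝ} (ht : 0 ≤ t)
    (hty : t ≤ ‖y‖) : ∃ w : E, ‖w‖ = t ∧ ‖f w‖ ≤ ‖f y‖ := by
  have hs0 : f.symm 0 = 0 := f.injective (by rw [f.apply_symm_apply, h0])
  have hc : ContinuousOn (fun s : ℝ => ‖f.symm (s • f y)‖) (Icc 0 1) := by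
    apply Continuous.continuousOn
    exact (f.symm.continuous.comp (continuous_id.smul continuous_const)).norm
  have h1 := intermediate_value_Icc zero_le_one hc
  have h2 : t ∈ Icc ‖f.symm ((0 : ℝ) • f y)‖ ‖f.symm ((1 : ℝ) • f y)‖ := by
    rw [zero_smul, hs0, norm_zero, one_smul, f.symm_apply_apply]
    exact ⟨ht, hty⟩
  obtain ⟨s, hs, hst⟩ := h1 h2
  refine ⟨f.symm (s • f y), hst, ?_⟩
  rw [f.apply_symm_apply, norm_smul, Real.norm_of_nonneg hs.1]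
  exact mul_le_of_le_one_left (norm_nonneg _) hs.2

theorem near_zero [FiniteDimensional ℝ E] (f : E ≃ₜ E) (h0 : f 0 = 0) {C : ℝ} (hC : 1 ≤ C)
    (h : EM C f 0) (t₀ : ℝ) :
    ∃ S : ℝ, ∀ x y : E, x ≠ 0 → ‖x‖ ≤ t₀ → ‖x‖ ≤ ‖y‖ → ‖f x‖ ≤ S * ‖f y‖ := by
  have hpr : ProperSpace E := FiniteDimensional.proper ℝ E
  obtain ⟨δ, hδ, hh⟩ := (mem_nhdsGT_iff_exists_Ioo_subset (a := (0 : ℝ))).1 h
  have hδ0 : 0 < δ := hδ
  obtain ⟨m₁, hm₁⟩ := ((isCompact_closedBall (0 : E) t₀).image f.continuous).isBounded.exists_norm_le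
  -- lower bound on the sphere of radius `δ / 2`
  have hlow : ∃ m₂ : ℝ, 0 < m₂ ∧ ∀ w : E, ‖w‖ = δ / 2 → m₂ ≤ ‖f w‖ := by
    by_cases hne : (sphere (0 : E) (δ / 2)).Nonempty
    · obtain ⟨w, hw, hmin⟩ := (isCompact_sphere (0 : E) (δ / 2)).exists_isMinOn hne
        (f.continuous.norm.continuousOn)
      refine ⟨‖f w‖, ?_, fun v hv => hmin (by simpa using hv)⟩
      rw [norm_pos_iff]
      intro hfw
      have : w = 0 := f.injective (hfw.trans h0.symm)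
      rw [this] at hw
      simp at hw
      linarith
    · refine ⟨1, one_pos, fun w hw => ?_⟩
      exact absurd ⟨w, by simpa using hw⟩ hne
  obtain ⟨m₂, hm₂, hm₂'⟩ := hlow
  refine ⟨max C (m₁ / m₂), fun x y hx hxt hxy => ?_⟩
  by_cases hxδ : ‖x‖ < δ
  · obtain ⟨w, hw, hfw⟩ := exists_sphere_le f h0 (norm_nonneg x) hxy
    have h1 := hh (show ‖x‖ ∈ Ioo 0 δ from ⟨norm_pos_iff.2 hx, hxδ⟩) x w
      (by rw [sub_zero]) (by rw [sub_zero, hw])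
    rw [h0, sub_zero, sub_zero] at h1
    calc ‖f x‖ ≤ C * ‖f w‖ := h1
      _ ≤ max C (m₁ / m₂) * ‖f y‖ := by
        gcongr
        exact le_max_left _ _
  · rw [not_lt] at hxδ
    obtain ⟨w, hw, hfw⟩ := exists_sphere_le f h0 (y := y) (t := δ / 2) (by positivity)
      (by linarith)
    have h1 : ‖f x‖ ≤ m₁ := hm₁ _ ⟨x, by simpa using hxt, rfl⟩
    have hm₁0 : 0 ≤ m₁ := (norm_nonneg _).trans h1
    calc ‖f x‖ ≤ m₁ := h1
      _ = m₁ / m₂ * m₂ := (div_mul_cancel₀ _ hm₂.ne').symm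
      _ ≤ max C (m₁ / m₂) * ‖f y‖ := by
        gcongr
        · exact le_max_right _ _
        · exact (hm₂' w hw).trans hfw

theorem em_translate {f : E → E} {C : ℝ} {x u : E} (h : EM C f (x + u)) :
    EM C (fun v => f (x + v) - f x) u := by
  unfold EM at h ⊢
  filter_upwards [h] with r hr v w hv hw
  have h1 := hr (x + v) (x + w) (by rwa [add_sub_add_left_eq_sub])
    (by rwa [add_sub_add_left_eq_sub])
  simpa using h1

end H42DF
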