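import Pool.Agent.H42.DF.W1
import Pool.Agent.H42.DF.S1
import Pool.Agent.H42.DF.S2
import Pool.Agent.H42.DF.S2b
import Pool.Agent.H42.DF.A5
import Pool.Agent.H42.DF.B8

/-!
# W2: weak quasisymmetry with a constant depending on `C` only

`V` a finite-dimensional inner product space, `2 ≤ dim V`, `f` a homeomorphism of `V` with `EM C f x` for all `x`.

**weak_qs_zero.** `f 0 = 0`: `‖u‖ ≤ ‖v‖ → ‖f u‖ ≤ S0 ((8C)²) ‖f v‖`. Let `i = inversion 0 1`, `F` the homeomorphism of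
`exists_conj`: `F = i ∘ f ∘ i`, `F⁻¹ = i ∘ f⁻¹ ∘ i`, `F 0 = 0`. By S1 `f` and `f⁻¹` satisfy `LocQC (2C)` at every point
(`x = f⁻¹ y` for `f⁻¹`), so by S2 `F` and `F⁻¹` satisfy `LocQC (8C)` at every `x ≠ 0`. By `exists_UG` (with `volume` for the
Borel σ-algebra or any Haar measure `μ`; `borel V`: `letI : MeasurableSpace V := borel V; haveI : BorelSpace V := ⟨rfl⟩`,
`μ = Measure.addHaar`) both have `UG μ ((8C)²)`. Let `ρ₀ > 0`. By `near_zero` with `t₀ = 1/ρ₀` there is `S` with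
`‖f u‖ ≤ S ‖f v‖` for `u ≠ 0`, `‖u‖ ≤ 1/ρ₀`, `‖u‖ ≤ ‖v‖`. For `‖x‖ ≤ ‖y‖`, `ρ₀ ≤ ‖y‖`: if `x = 0` trivial, otherwise with
`u = i y`, `v = i x`: `‖u‖ = 1/‖y‖ ≤ 1/‖x‖ = ‖v‖`, `‖F x‖ = 1/‖f v‖`, `‖F y‖ = 1/‖f u‖`, so `‖F x‖ ≤ S ‖F y‖`. By `extremal`
`‖F x‖ ≤ S0 ‖F y‖` for `‖x‖ ≤ ‖y‖`, `ρ₀ ≤ ‖y‖`, every `ρ₀ > 0`. Going back the same way gives the claim for `u ≠ 0`; for
`u = 0` trivial.

**weak_qs.** translate: `f_x (u) = f (x + u) - f x` is a homeomorphism fixing `0`, `em_translate`.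
-/

set_option autoImplicit false

open MeasureTheory Metric Set Filter Topology
open scoped ENNReal NNReal

namespace H42DF

variable {V : Type*} [NormedAddCommGroup V] [InnerProductSpace ℝ V] [FiniteDimensional ℝ V]

theorem weak_qs_zero (hn : 2 ≤ Module.finrank ℝ V) (f : V ≃ₜ V) (h0 : f 0 = 0) {C : ℝ}
    (hC : 1 ≤ C) (h : ∀ x, EM C f x) (u v : V) (huv : ‖u‖ ≤ ‖v‖) :
    ‖f u‖ ≤ S0 ((8 * C) ^ 2) * ‖f v‖ := by
  have hS0 : 0 ≤ S0 ((8 * C) ^ 2) := by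
    unfold S0
    positivity
  by_cases hu : u = 0
  · rw [hu, h0, norm_zero]
    positivity
  have : Nontrivial V := Module.nontrivial_of_finrank_pos (R := ℝ) (by omega)
  let _ : MeasurableSpace V := borel V
  have : BorelSpace V := ⟨rfl⟩
  set i : V → V := EuclideanGeometry.inversion 0 1 with hi
  have hi0 : i 0 = 0 := EuclideanGeometry.inversion_self 0 1
  have hii : ∀ x, i (i x) = x := fun x => EuclideanGeometry.inversion_inversion 0 one_ne_zero x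
  have hin : ∀ x, ‖i x‖ = 1 / ‖x‖ := by
    intro x
    have h1 := EuclideanGeometry.dist_inversion_center (0 : V) x 1
    rwa [dist_zero_right, dist_zero_right, one_pow] at h1
  obtain ⟨F, hF, hFs⟩ := exists_conj f h0
  have hF' : ∀ x, F x = i (f (i x)) := hF
  have hfs0 : f.symm 0 = 0 := by
    rw [Homeomorph.symm_apply_eq, h0]
  have hF0 : F 0 = 0 := by
    rw [hF', hi0, h0, hi0]
  have hin0 : ∀ x, x ≠ 0 → i x ≠ 0 := by
    intro x hx hix
    apply hx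
    rw [← hii x, hix, hi0]
  have hf0 : ∀ x, x ≠ 0 → f x ≠ 0 := by
    intro x hx hfx
    apply hx
    apply f.injective
    rw [hfx, h0]
  -- the local conditions
  have hC2 : 1 ≤ 2 * C := by linarith
  have hL1 : ∀ x, x ≠ 0 → LocQC (8 * C) F x := by
    intro x hx
    have h1 := locQC_conj f h0 F hF hC2 hx (locQC_of_em f hC (h _))
    have e : 4 * (2 * C) = 8 * C := by ring
    rwa [e] at h1
  have hL2 : ∀ x, x ≠ 0 → LocQC (8 * C) F.symm x := by
    intro x hx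
    have h2 := locQC_symm_of_em f hC (h (f.symm (i x)))
    rw [f.apply_symm_apply] at h2
    have h1 := locQC_conj f.symm hfs0 F.symm hFs hC2 hx h2
    have e : 4 * (2 * C) = 8 * C := by ring
    rwa [e] at h1
  let μ : Measure V := Measure.addHaar
  obtain ⟨g, hg⟩ := exists_UG μ hn F (C := 8 * C) (by linarith) hL1
  obtain ⟨g', hg'⟩ := exists_UG μ hn F.symm (C := 8 * C) (by linarith) hL2
  have hK1 : 1 ≤ (8 * C) ^ 2 := by nlinarith
  have hunpos : 0 < ‖u‖ := norm_pos_iff.2 hu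
  have hv : v ≠ 0 := by
    rintro rfl
    rw [norm_zero] at huv
    linarith
  have hvnpos : 0 < ‖v‖ := norm_pos_iff.2 hv
  set ρ₀ : ℝ := 1 / ‖u‖ with hρ₀
  have hρ₀pos : 0 < ρ₀ := by positivity
  obtain ⟨S, hS⟩ := near_zero f h0 hC (h 0) (1 / ρ₀)
  have hS' : ∀ x y : V, ‖x‖ ≤ ‖y‖ → ρ₀ ≤ ‖y‖ → ‖F x‖ ≤ max S 0 * ‖F y‖ := by
    intro x y hxy hy
    by_cases hx : x = 0
    · rw [hx, hF0, norm_zero]
      exact mul_nonneg (le_max_right _ _) (norm_nonneg _)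
    have hxpos : 0 < ‖x‖ := norm_pos_iff.2 hx
    have hypos : 0 < ‖y‖ := by linarith
    have hy0 : y ≠ 0 := norm_pos_iff.1 hypos
    have h1 : ‖i y‖ ≤ 1 / ρ₀ := by
      rw [hin]
      exact one_div_le_one_div_of_le hρ₀pos hy
    have h2 : ‖i y‖ ≤ ‖i x‖ := by
      rw [hin, hin]
      exact one_div_le_one_div_of_le hxpos hxy
    have h3 := hS (i y) (i x) (hin0 y hy0) h1 h2
    have h4 : 0 < ‖f (i x)‖ := norm_pos_iff.2 (hf0 _ (hin0 x hx))
    have h5 : 0 < ‖f (i y)‖ := norm_pos_iff.2 (hf0 _ (hin0 y hy0))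
    rw [hF', hF', hin, hin, mul_one_div, div_le_div_iff₀ h4 h5, one_mul]
    exact h3.trans (mul_le_mul_of_nonneg_right (le_max_left _ _) h4.le)
  have hext := extremal μ hn hK1 F hF0 hg hg' hρ₀pos (max S 0) hS' (i v) (i u)
    (by rw [hin, hin]; exact one_div_le_one_div_of_le hunpos huv) (by rw [hin])
  rw [hF', hF', hii, hii, hin, hin] at hext
  have h4 : 0 < ‖f v‖ := norm_pos_iff.2 (hf0 _ hv)
  have h5 : 0 < ‖f u‖ := norm_pos_iff.2 (hf0 _ hu)
  rw [mul_one_div, div_le_div_iff₀ h4 h5, one_mul] at hext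
  exact hext

theorem weak_qs (hn : 2 ≤ Module.finrank ℝ V) (f : V ≃ₜ V) {C : ℝ}
    (hC : 1 ≤ C) (h : ∀ x, EM C f x) (x a b : V) (hab : ‖a - x‖ ≤ ‖b - x‖) :
    ‖f a - f x‖ ≤ S0 ((8 * C) ^ 2) * ‖f b - f x‖ := by
  let F : V ≃ₜ V := ((Homeomorph.addLeft x).trans f).trans (Homeomorph.addRight (-f x))
  have hF : ∀ u, F u = f (x + u) - f x := by
    intro u
    show f (x + u) + (-f x) = _
    rw [sub_eq_add_neg]
  have hF0 : F 0 = 0 := by
    rw [hF, add_zero, sub_self]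
  have hem : ∀ u, EM C F u := by
    intro u
    have h1 := em_translate (h (x + u))
    have e : (F : V → V) = fun v => f (x + v) - f x := funext hF
    rw [e]
    exact h1
  have h2 := weak_qs_zero hn F hF0 hC hem (a - x) (b - x) hab
  rw [hF, hF, add_sub_cancel, add_sub_cancel] at h2
  exact h2

end H42DF
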