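import Pool.Agent.H42.DF.W2

/-!
# W3: weak quasisymmetry of the inverse

`K = (8C)²`, `S = S0 K`, `j = ⌈C1 K * S0 K⌉₊` (so `C1 S0 < 2^j`), `T0 K = 2 (M1 K)^j`. `f` satisfies `EM C` everywhere, so by
S1 + `LocQC.mono` + `exists_UG` both `f` and `f⁻¹` have `UG` with constant `K`; so `osc` and `vr_growth_pow` hold for `f`.

Let `z = f⁻¹ x`, `p = f⁻¹ a`, `q = f⁻¹ b`: `‖f p - f z‖ ≤ ‖f q - f z‖`; claim `‖p - z‖ ≤ T ‖q - z‖`. Suppose
`‖p - z‖ > T ‖q - z‖`, `s = ‖q - z‖`. If `s = 0` then `q = z`, `f p = f z`, `p = z`, contradiction. Let `s > 0`. (A) (`osc`):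
`‖f q - f z‖ ≤ C1 vr f z (2s)`; growth: `vr f z (M1^j (2s)) ≥ 2^j vr f z (2s)`; `M1^j (2 s) = T s < ‖p - z‖`, so by `weak_qs`
`f '' ball z (T s) ⊆ closedBall (f z) (S ‖f p - f z‖)` and `vr f z (T s) ≤ S ‖f p - f z‖` (`vr_le`). So
`‖f q - f z‖ ≤ C1 S 2^{-j} ‖f p - f z‖ < ‖f p - f z‖` (as `p ≠ z`), contradiction.
-/

set_option autoImplicit false

open MeasureTheory Metric Set Filter Topology
open scoped ENNReal NNReal

namespace H42DF

/-- weak quasisymmetry constant of the inverse -/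
noncomputable def T0 (K : ℝ) : ℝ := 2 * M1 K ^ ⌈C1 K * S0 K⌉₊

variable {V : Type*} [NormedAddCommGroup V] [InnerProductSpace ℝ V] [FiniteDimensional ℝ V]

theorem weak_qs_symm (hn : 2 ≤ Module.finrank ℝ V) (f : V ≃ₜ V) {C : ℝ}
    (hC : 1 ≤ C) (h : ∀ x, EM C f x) (x a b : V) (hab : ‖a - x‖ ≤ ‖b - x‖) :
    ‖f.symm a - f.symm x‖ ≤ T0 ((8 * C) ^ 2) * ‖f.symm b - f.symm x‖ := by
  have : Nontrivial V := Module.nontrivial_of_finrank_pos (R := ℝ) (by omega)
  let _ : MeasurableSpace V := borel V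
  have : BorelSpace V := ⟨rfl⟩
  let μ : Measure V := Measure.addHaar
  have hL1 : ∀ y : V, y ≠ 0 → LocQC (8 * C) f y := fun y _ =>
    (locQC_of_em f hC (h y)).mono (by linarith)
  have hL2 : ∀ y : V, y ≠ 0 → LocQC (8 * C) f.symm y := by
    intro y _
    have h2 := locQC_symm_of_em f hC (h (f.symm y))
    rw [f.apply_symm_apply] at h2
    exact h2.mono (by linarith)
  obtain ⟨g, hg⟩ := exists_UG μ hn f (C := 8 * C) (by linarith) hL1
  obtain ⟨g', hg'⟩ := exists_UG μ hn f.symm (C := 8 * C) (by linarith) hL2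
  have hK1 : 1 ≤ (8 * C) ^ 2 := by nlinarith
  set K : ℝ := (8 * C) ^ 2 with hK
  have hx : f (f.symm x) = x := f.apply_symm_apply x
  have ha : f (f.symm a) = a := f.apply_symm_apply a
  have hb : f (f.symm b) = b := f.apply_symm_apply b
  set z := f.symm x with hz
  set p := f.symm a with hp
  set q := f.symm b with hq
  rw [← hx, ← ha, ← hb] at hab
  by_contra hcon
  rw [not_le] at hcon
  have hT0 : 0 ≤ T0 K := by
    have h1 : 0 ≤ M1 K := by unfold M1; positivity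
    unfold T0
    positivity
  have hpz : 0 < ‖p - z‖ := lt_of_le_of_lt (mul_nonneg hT0 (norm_nonneg _)) hcon
  have hpz' : p ≠ z := by
    rintro hpq
    rw [hpq, sub_self, norm_zero] at hpz
    exact lt_irrefl _ hpz
  have hfpz : 0 < ‖f p - f z‖ := by
    rw [norm_pos_iff, sub_ne_zero]
    exact fun hh => hpz' (f.injective hh)
  have hs : 0 < ‖q - z‖ := by
    rw [norm_pos_iff, sub_ne_zero]
    rintro hqz
    rw [hqz, sub_self, norm_zero] at hab
    linarith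
  have hosc := osc μ hn hK1 f hg hg' q z hs le_rfl
  set j : ℕ := ⌈C1 K * S0 K⌉₊ with hj
  have hgr := vr_growth_pow μ hn hK1 f hg' z (ρ := 2 * ‖q - z‖) (by linarith) j
  have hTs : M1 K ^ j * (2 * ‖q - z‖) = T0 K * ‖q - z‖ := by
    rw [T0, hj]
    ring
  rw [hTs] at hgr
  have hS0 : 0 ≤ S0 K := by
    unfold S0
    positivity
  have himg : f '' ball z (T0 K * ‖q - z‖) ⊆ closedBall (f z) (S0 K * ‖f p - f z‖) := by
    rintro _ ⟨w, hw, rfl⟩
    rw [mem_ball, dist_eq_norm] at hw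
    rw [mem_closedBall, dist_eq_norm]
    exact weak_qs hn f hC h z w p (hw.le.trans hcon.le)
  have hvr := vr_le μ (by omega) f (mul_nonneg hS0 hfpz.le) himg
  have hC1 : 0 < C1 K := by
    have := one_le_C1 hK1
    linarith
  have h2j : C1 K * S0 K < 2 ^ j := by
    calc C1 K * S0 K ≤ (j : ℝ) := Nat.le_ceil _
      _ < 2 ^ j := by exact_mod_cast Nat.lt_two_pow_self
  have h2j0 : (0 : ℝ) < 2 ^ j := by positivity
  have hfin : 2 ^ j * ‖f q - f z‖ < 2 ^ j * ‖f p - f z‖ := by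
    calc 2 ^ j * ‖f q - f z‖ ≤ 2 ^ j * (C1 K * vr μ f z (2 * ‖q - z‖)) := by gcongr
      _ = C1 K * (2 ^ j * vr μ f z (2 * ‖q - z‖)) := by ring
      _ ≤ C1 K * (S0 K * ‖f p - f z‖) := by
          exact mul_le_mul_of_nonneg_left (hgr.trans hvr) hC1.le
      _ = (C1 K * S0 K) * ‖f p - f z‖ := by ring
      _ < 2 ^ j * ‖f p - f z‖ := by gcongr
  have := lt_of_mul_lt_mul_left hfin h2j0.le
  linarith

end H42DF
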