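import Pool.Agent.H42.DF.W3
import Pool.Agent.H42.DF.S3
import Pool.Agent.H88.DF.Q2

/-!
# W4: the dimension-free quasisymmetry theorem for `f : V → V`

**chain_qs.** `f` weakly `Q`-quasisymmetric on a real normed space, `Q ≥ 1`, `m ≥ 1`, `‖a - x‖ ≤ m ‖b - x‖`: then
`‖f a - f x‖ ≤ m Q^m ‖f b - f x‖`: points `x_i = x + (i/m)(a - x)`, `‖x_{i+1} - x_i‖ = ‖a - x‖/m ≤ ‖b - x‖`, so
`‖f x_1 - f x_0‖ ≤ Q ‖f b - f x‖`, `‖f x_{i+1} - f x_i‖ ≤ Q ‖f x_{i-1} - f x_i‖`, so each is `≤ Q^{i+1} ‖f b - f x‖ ≤ Q^m ...`; sum.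
**qs_self.** `η` from `exists_eta` of helper88 (Pool/Agent/H88/DF/Q2.lean) with
`Q = max 1 (max (S0 K') (T0 K'))`, `K' = (8 (max K 0 + 1))²`; `chain_qs` for `f` and `f⁻¹` (`weak_qs`, `weak_qs_symm`,
`em_of_dilat`).
**qs_iso.** for `f : V ≃ₜ W` between two spaces of the same finite dimension: compose with a linear isometry
`W ≃ₗᵢ V` (`LinearIsometryEquiv` from `stdOrthonormalBasis`), which changes neither `dilat` nor `IsQS`.
-/

set_option autoImplicit false

open MeasureTheory Metric Set Filter Topology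
open scoped ENNReal NNReal

namespace H42DF

theorem chain_qs {V : Type*} [NormedAddCommGroup V] [NormedSpace ℝ V] {f : V → V} {Q : ℝ}
    (hQ : 1 ≤ Q) (h : ∀ x a b : V, ‖a - x‖ ≤ ‖b - x‖ → ‖f a - f x‖ ≤ Q * ‖f b - f x‖)
    (m : ℕ) (hm : 1 ≤ m) (x a b : V) (hab : dist x a ≤ m * dist x b) :
    dist (f x) (f a) ≤ m * Q ^ m * dist (f x) (f b) := by
  have hQ0 : 0 ≤ Q := by linarith
  have hm0 : (0 : ℝ) < m := by exact_mod_cast hm
  set v : V := (1 / (m : ℝ)) • (a - x) with hv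
  set p : ℕ → V := fun i => x + (i : ℝ) • v with hp
  have hnv : ‖v‖ = dist x a / m := by
    rw [hv, norm_smul, Real.norm_of_nonneg (by positivity), dist_comm, dist_eq_norm]
    ring
  have hdr : ‖v‖ ≤ ‖b - x‖ := by
    rw [hnv, div_le_iff₀ hm0, ← dist_eq_norm, dist_comm b x]
    linarith
  have hp0 : p 0 = x := by simp [hp]
  have hpm : p m = a := by
    simp only [hp, hv]
    rw [smul_smul, mul_one_div_cancel hm0.ne', one_smul, add_sub_cancel]
  have hstep : ∀ i, p (i + 1) - p i = v := by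
    intro i
    simp only [hp]
    push_cast
    module
  have key : ∀ i, ‖f (p (i + 1)) - f (p i)‖ ≤ Q ^ (i + 1) * ‖f b - f x‖ := by
    intro i
    induction i with
    | zero =>
      have h1 : ‖f (p (0 + 1)) - f (p 0)‖ ≤ Q * ‖f b - f (p 0)‖ := by
        apply h
        rw [hstep, hp0]
        exact hdr
      rw [hp0] at h1 ⊢
      rw [zero_add, pow_one]
      rwa [zero_add] at h1
    | succ i ih =>
      have h1 : ‖f (p (i + 1 + 1)) - f (p (i + 1))‖ ≤ Q * ‖f (p i) - f (p (i + 1))‖ := by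
        apply h
        rw [hstep, norm_sub_rev, hstep]
      rw [norm_sub_rev (f (p i))] at h1
      have h4 := mul_le_mul_of_nonneg_left ih hQ0
      calc _ ≤ _ := h1
        _ ≤ _ := h4
        _ = _ := by ring
  calc dist (f x) (f a) = dist (f (p 0)) (f (p m)) := by rw [hp0, hpm]
    _ ≤ ∑ i ∈ Finset.range m, dist (f (p i)) (f (p (i + 1))) :=
        dist_le_range_sum_dist (fun i => f (p i)) m
    _ ≤ ∑ _i ∈ Finset.range m, Q ^ m * dist (f x) (f b) := by
        apply Finset.sum_le_sum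
        intro i hi
        rw [Finset.mem_range] at hi
        rw [dist_comm (f x), dist_eq_norm (f b), dist_comm, dist_eq_norm]
        refine (key i).trans ?_
        apply mul_le_mul_of_nonneg_right _ (norm_nonneg _)
        exact pow_le_pow_right₀ hQ hi
    _ = m * Q ^ m * dist (f x) (f b) := by
        rw [Finset.sum_const, Finset.card_range, nsmul_eq_mul]
        ring

theorem qs_self (K : ℝ) : ∃ η : ℝ≥0 ≃ₜ ℝ≥0, ∀ (V : Type) [NormedAddCommGroup V]
    [InnerProductSpace ℝ V] [FiniteDimensional ℝ V], 2 ≤ Module.finrank ℝ V →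
    ∀ f : V ≃ₜ V, IsKQC K f → IsQS η f := by
  set C : ℝ := max K 0 + 1 with hC
  have hC1 : 1 ≤ C := by
    have := le_max_right K 0
    linarith
  set Q : ℝ := max 1 (max (S0 ((8 * C) ^ 2)) (T0 ((8 * C) ^ 2))) with hQ
  have hQ1 : 1 ≤ Q := le_max_left _ _
  obtain ⟨η, hη⟩ := DF88.exists_eta Q hQ1
  refine ⟨η, ?_⟩
  intro V _ _ _ hn f hf
  have hem : ∀ x, EM C f x := fun x => em_of_dilat (hf x)
  have hfw : ∀ x a b : V, ‖a - x‖ ≤ ‖b - x‖ → ‖f a - f x‖ ≤ Q * ‖f b - f x‖ := by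
    intro x a b hab
    refine (weak_qs hn f hC1 hem x a b hab).trans ?_
    apply mul_le_mul_of_nonneg_right _ (norm_nonneg _)
    exact (le_max_left _ _).trans (le_max_right _ _)
  have hgw : ∀ x a b : V, ‖a - x‖ ≤ ‖b - x‖ →
      ‖f.symm a - f.symm x‖ ≤ Q * ‖f.symm b - f.symm x‖ := by
    intro x a b hab
    refine (weak_qs_symm hn f hC1 hem x a b hab).trans ?_
    apply mul_le_mul_of_nonneg_right _ (norm_nonneg _)
    exact (le_max_right _ _).trans (le_max_right _ _)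
  exact hη V f f.symm f.symm_apply_apply
    (fun m hm x a b hx => chain_qs hQ1 hfw m hm x a b hx)
    (fun m hm x a b hx => chain_qs hQ1 hgw m hm x a b hx)

theorem qs_iso (K : ℝ) : ∃ η : ℝ≥0 ≃ₜ ℝ≥0, ∀ (V W : Type) [NormedAddCommGroup V]
    [InnerProductSpace ℝ V] [FiniteDimensional ℝ V] [NormedAddCommGroup W]
    [InnerProductSpace ℝ W] [FiniteDimensional ℝ W], 2 ≤ Module.finrank ℝ V →
    Module.finrank ℝ V = Module.finrank ℝ W →
    ∀ f : V ≃ₜ W, IsKQC K f → IsQS η f := by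
  obtain ⟨η, hη⟩ := qs_self K
  refine ⟨η, ?_⟩
  intro V W _ _ _ _ _ _ hn hVW f hf
  let e : W ≃ₗᵢ[ℝ] V := ((stdOrthonormalBasis ℝ W).reindex
    (finCongr hVW.symm)).repr.trans (stdOrthonormalBasis ℝ V).repr.symm
  let F : V ≃ₜ V := f.trans e.toHomeomorph
  have hF : ∀ x, F x = e (f x) := fun x => rfl
  have hdil : ∀ x, dilat F x = dilat f x := by
    intro x
    have h1 : ∀ y, edist (F y) (F x) = edist (f y) (f x) := by
      intro y
      rw [hF, hF, e.edist_map]
    unfold dilat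
    simp only [h1]
  have hqs := hη V hn F (fun x => by rw [hdil]; exact hf x)
  intro t ht x a b hab
  have h5 := hqs t ht x a b hab
  rw [hF, hF, hF, e.dist_map, e.dist_map] at h5
  exact h5

end H42DF
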