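import Pool.Agent.H42.DF.W4

/-!
# W5: Hilbert space: limits of finite-dimensional quasiconformal homeomorphisms, quasiballs

**fa_pair.** a dense subset of an inner product space of dimension at least `2` contains two linearly
independent vectors.
**fa_dense, qs_hilbert.** The quasisymmetry inequality passes from the finite-dimensional
homeomorphisms to the limit on the dense set and, by continuity, to the whole space.
**quasiball_of_isQS.** A quasisymmetric homeomorphism maps balls to quasiballs.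
-/

set_option autoImplicit false

open MeasureTheory Metric Set Filter Topology
open scoped ENNReal NNReal

namespace H42DF

/-- on every finite subset of the dense set `D`, `f` can be approximated by `K`-quasiconformal
homeomorphisms between finite-dimensional subspaces of the same dimension -/
def FinApprox {H : Type} [NormedAddCommGroup H] [InnerProductSpace ℝ H] (K : ℝ) (f : H → H) :
    Prop :=
  ∃ D : Set H, Dense D ∧ ∀ S : Finset H, (S : Set H) ⊆ D → ∀ ε : ℝ, 0 < ε →
    ∃ (V W : Submodule ℝ H) (F : V ≃ₜ W), FiniteDimensional ℝ V ∧ FiniteDimensional ℝ W ∧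
      Module.finrank ℝ V = Module.finrank ℝ W ∧ IsKQC K F ∧
      ∀ x ∈ S, ∃ hx : x ∈ V, ‖((F ⟨x, hx⟩ : W) : H) - f x‖ < ε

/-- two independent vectors in a dense set -/
theorem fa_pair {H : Type} [NormedAddCommGroup H] [InnerProductSpace ℝ H]
    (hr : 1 < Module.rank ℝ H) {D : Set H} (hD : Dense D) :
    ∃ v : Fin 2 → H, (∀ i, v i ∈ D) ∧ LinearIndependent ℝ v := by
  have hnt : Nontrivial H := by
    rw [← rank_pos_iff_nontrivial (R := ℝ)]
    exact lt_trans zero_lt_one hr
  obtain ⟨x, hx⟩ := exists_ne (0 : H)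
  obtain ⟨y, hy⟩ := exists_linearIndependent_pair_of_one_lt_rank hr hx
  have hopen : IsOpen {v : Fin 2 → H | LinearIndependent ℝ v} := isOpen_setOf_linearIndependent
  have hdense : Dense (Set.pi univ fun _ : Fin 2 => D) := dense_pi univ fun _ _ => hD
  obtain ⟨v, hv1, hv2⟩ := hdense.inter_open_nonempty _ hopen ⟨![x, y], hy⟩
  exact ⟨v, fun i => hv2 i (mem_univ i), hv1⟩

/-- quasisymmetry on the dense set -/
theorem fa_dense {K : ℝ} {η : ℝ≥0 ≃ₜ ℝ≥0}
    (hη : ∀ (V W : Type) [NormedAddCommGroup V]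
      [InnerProductSpace ℝ V] [FiniteDimensional ℝ V] [NormedAddCommGroup W]
      [InnerProductSpace ℝ W] [FiniteDimensional ℝ W], 2 ≤ Module.finrank ℝ V →
      Module.finrank ℝ V = Module.finrank ℝ W →
      ∀ f : V ≃ₜ W, IsKQC K f → IsQS η f)
    {H : Type} [NormedAddCommGroup H] [InnerProductSpace ℝ H]
    (hr : 1 < Module.rank ℝ H) {f : H → H} {D : Set H} (hD : Dense D)
    (h : ∀ S : Finset H, (S : Set H) ⊆ D → ∀ ε : ℝ, 0 < ε →
      ∃ (V W : Submodule ℝ H) (F : V ≃ₜ W), FiniteDimensional ℝ V ∧ FiniteDimensional ℝ W ∧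
        Module.finrank ℝ V = Module.finrank ℝ W ∧ IsKQC K F ∧
        ∀ x ∈ S, ∃ hx : x ∈ V, ‖((F ⟨x, hx⟩ : W) : H) - f x‖ < ε)
    {t : ℝ≥0} (ht : 0 < t) {x a b : H} (hx : x ∈ D) (ha : a ∈ D) (hb : b ∈ D)
    (hd : dist x a ≤ t * dist x b) : dist (f x) (f a) ≤ η t * dist (f x) (f b) := by
  classical
  obtain ⟨v, hvD, hvi⟩ := fa_pair hr hD
  apply le_of_forall_pos_le_add
  intro δ hδ
  have hden : (0 : ℝ) < 2 + 2 * η t := by positivity
  set ε := δ / (2 + 2 * η t) with hε
  have hε0 : 0 < ε := div_pos hδ hden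
  set S : Finset H := {x, a, b, v 0, v 1} with hS
  have hSD : (S : Set H) ⊆ D := by
    intro y hy
    rw [hS] at hy
    simp only [Finset.coe_insert, Finset.coe_singleton, Set.mem_insert_iff,
      Set.mem_singleton_iff] at hy
    rcases hy with rfl | rfl | rfl | rfl | rfl
    · exact hx
    · exact ha
    · exact hb
    · exact hvD 0
    · exact hvD 1
  obtain ⟨V, W, F, hV, hW, hVW, hF3, hF4⟩ := h S hSD ε hε0
  obtain ⟨hxV, hx1⟩ := hF4 x (by rw [hS]; simp)
  obtain ⟨haV, ha1⟩ := hF4 a (by rw [hS]; simp)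
  obtain ⟨hbV, hb1⟩ := hF4 b (by rw [hS]; simp)
  obtain ⟨h0V, -⟩ := hF4 (v 0) (by rw [hS]; simp)
  obtain ⟨h1V, -⟩ := hF4 (v 1) (by rw [hS]; simp)
  have hvV : ∀ i, v i ∈ V := by
    intro i
    fin_cases i
    · exact h0V
    · exact h1V
  have hfin : 2 ≤ Module.finrank ℝ V := by
    have hli : LinearIndependent ℝ (fun i => (⟨v i, hvV i⟩ : V)) :=
      LinearIndependent.of_comp V.subtype hvi
    have := hli.fintype_card_le_finrank
    rwa [Fintype.card_fin] at this
  have hqs := hη V W hfin hVW F hF3 t ht ⟨x, hxV⟩ ⟨a, haV⟩ ⟨b, hbV⟩ hd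
  have hqs' : dist ((F ⟨x, hxV⟩ : W) : H) ((F ⟨a, haV⟩ : W) : H)
      ≤ η t * dist ((F ⟨x, hxV⟩ : W) : H) ((F ⟨b, hbV⟩ : W) : H) := hqs
  rw [← dist_eq_norm] at hx1 ha1 hb1
  set X : H := ((F ⟨x, hxV⟩ : W) : H) with hXd
  set A : H := ((F ⟨a, haV⟩ : W) : H) with hAd
  set B : H := ((F ⟨b, hbV⟩ : W) : H) with hBd
  have h1 : dist (f x) (f a) ≤ dist X A + 2 * ε := by
    have e1 := dist_triangle (f x) X (f a)
    have e2 := dist_triangle X A (f a)
    rw [dist_comm (f x) X] at e1
    linarith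
  have h2 : dist X B ≤ dist (f x) (f b) + 2 * ε := by
    have e1 := dist_triangle X (f x) B
    have e2 := dist_triangle (f x) (f b) B
    rw [dist_comm (f b) B] at e2
    linarith
  have h3 : (η t : ℝ) * dist X B ≤ η t * (dist (f x) (f b) + 2 * ε) := by gcongr
  have h4 : (2 + 2 * η t) * ε = δ := by
    rw [hε]
    field_simp
  calc dist (f x) (f a) ≤ dist X A + 2 * ε := h1
    _ ≤ η t * (dist (f x) (f b) + 2 * ε) + 2 * ε := by linarith
    _ = η t * dist (f x) (f b) + (2 + 2 * η t) * ε := by ring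
    _ = _ := by rw [h4]

theorem qs_hilbert {K : ℝ} {η : ℝ≥0 ≃ₜ ℝ≥0}
    (hη : ∀ (V W : Type) [NormedAddCommGroup V]
      [InnerProductSpace ℝ V] [FiniteDimensional ℝ V] [NormedAddCommGroup W]
      [InnerProductSpace ℝ W] [FiniteDimensional ℝ W], 2 ≤ Module.finrank ℝ V →
      Module.finrank ℝ V = Module.finrank ℝ W →
      ∀ f : V ≃ₜ W, IsKQC K f → IsQS η f)
    (H : Type) [NormedAddCommGroup H] [InnerProductSpace ℝ H] (hr : 1 < Module.rank ℝ H)
    (f : H ≃ₜ H) (hf : FinApprox K f) : IsQS η f := by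
  obtain ⟨D, hD, h⟩ := hf
  intro t ht x a b hd
  rcases eq_or_ne x b with hxb | hxb
  · have h1 : dist x a ≤ 0 := by
      rw [hxb, dist_self, mul_zero] at hd
      rw [hxb]
      exact hd
    have h2 : x = a := dist_le_zero.mp h1
    rw [h2, dist_self]
    positivity
  · have hxb' : 0 < dist x b := dist_pos.mpr hxb
    have key : ∀ t' : ℝ≥0, t < t' → dist (f x) (f a) ≤ η t' * dist (f x) (f b) := by
      intro t' htt
      set U : Set (H × H × H) := {p | dist p.1 p.2.1 < t' * dist p.1 p.2.2} with hU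
      have hUo : IsOpen U := isOpen_lt (by fun_prop) (by fun_prop)
      have hDD : Dense (D ×ˢ D ×ˢ D : Set (H × H × H)) := hD.prod (hD.prod hD)
      have hmem : (x, a, b) ∈ U := by
        change dist x a < t' * dist x b
        have : (t : ℝ) < t' := by exact_mod_cast htt
        calc dist x a ≤ t * dist x b := hd
          _ < t' * dist x b := by gcongr
      have hcl := hDD.open_subset_closure_inter hUo hmem
      have hclosed : IsClosed
          {p : H × H × H | dist (f p.1) (f p.2.1) ≤ η t' * dist (f p.1) (f p.2.2)} := by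
        have hfc := f.continuous
        exact isClosed_le (by fun_prop) (by fun_prop)
      refine closure_minimal ?_ hclosed hcl
      rintro ⟨x', a', b'⟩ ⟨hlt, hx', ha', hb'⟩
      exact fa_dense hη hr hD h (ht.trans htt) hx' ha' hb' (le_of_lt hlt)
    have hlim : Tendsto (fun t' : ℝ≥0 => (η t' : ℝ) * dist (f x) (f b)) (𝓝[>] t)
        (𝓝 ((η t : ℝ) * dist (f x) (f b))) := by
      have hc : Continuous fun t' : ℝ≥0 => (η t' : ℝ) * dist (f x) (f b) :=
        (NNReal.continuous_coe.comp η.continuous).mul continuous_const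
      exact (hc.tendsto t).mono_left nhdsWithin_le_nhds
    refine ge_of_tendsto hlim ?_
    filter_upwards [self_mem_nhdsWithin] with t' ht'
    exact key t' ht'

theorem quasiball_of_isQS {H : Type*} [NormedAddCommGroup H] [NormedSpace ℝ H] [Nontrivial H]
    {η : ℝ≥0 ≃ₜ ℝ≥0} (f : H ≃ₜ H) (hf : IsQS η f) (x : H) (r : ℝ) (hr : 0 < r) :
    ∃ (y : H) (s : ℝ), 0 < s ∧ ball y s ⊆ f '' ball x r ∧
      f '' ball x r ⊆ ball y ((η 1 + 1) * s) := by
  have hsph : (sphere x r).Nonempty := NormedSpace.sphere_nonempty.2 hr.le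
  set Z : Set ℝ := (fun b => dist (f x) (f b)) '' sphere x r with hZ
  have hZne : Z.Nonempty := hsph.image _
  have hZb : BddBelow Z := ⟨0, by rintro _ ⟨b, _, rfl⟩; exact dist_nonneg⟩
  have key : ∀ a, dist a x ≤ r → ∀ b ∈ sphere x r, dist (f x) (f a) ≤ η 1 * dist (f x) (f b) := by
    intro a ha b hb
    have := hf 1 one_pos x a b (by
      rw [NNReal.coe_one, one_mul, dist_comm x a, dist_comm x b, mem_sphere.1 hb]; exact ha)
    exact this
  set l := sInf Z with hl
  obtain ⟨b₀, hb₀⟩ := hsph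
  have hb₀x : b₀ ≠ x := by
    rintro rfl
    rw [mem_sphere, dist_self] at hb₀
    exact hr.ne hb₀
  have hpos : 0 < dist (f x) (f b₀) := by
    rw [dist_pos]; exact fun h => hb₀x (f.injective h).symm
  have hη : (0 : ℝ) < η 1 := by
    have h1 := key b₀ (mem_sphere.1 hb₀).le b₀ hb₀
    by_contra hcon
    push Not at hcon
    nlinarith
  have hle : ∀ a, dist a x ≤ r → dist (f x) (f a) ≤ η 1 * l := by
    intro a ha
    rw [← div_le_iff₀' hη]
    apply le_csInf hZne
    rintro _ ⟨b, hb, rfl⟩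
    rw [div_le_iff₀' hη]
    exact key a ha b hb
  have hlpos : 0 < l := by
    have := hle b₀ (mem_sphere.1 hb₀).le
    by_contra hcon
    push Not at hcon
    nlinarith
  refine ⟨f x, l, hlpos, ?_, ?_⟩
  · intro y hy
    refine ⟨f.symm y, ?_, f.apply_symm_apply y⟩
    by_contra hcon
    rw [mem_ball, not_lt] at hcon
    set φ : ℝ → ℝ := fun t => dist (f.symm (f x + t • (y - f x))) x with hφ
    have hφc : ContinuousOn φ (Icc 0 1) := by
      apply Continuous.continuousOn
      apply Continuous.dist _ continuous_const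
      apply f.symm.continuous.comp
      fun_prop
    have h0 : φ 0 = 0 := by simp [hφ]
    have h1 : φ 1 = dist (f.symm y) x := by simp [hφ]
    obtain ⟨t, ht, htr⟩ := intermediate_value_Icc zero_le_one hφc
      (show r ∈ Icc (φ 0) (φ 1) by rw [h0, h1]; exact ⟨hr.le, hcon⟩)
    have h2 : l ≤ dist (f x) (f (f.symm (f x + t • (y - f x)))) :=
      csInf_le hZb ⟨_, mem_sphere.2 htr, rfl⟩
    rw [f.apply_symm_apply, dist_eq_norm, sub_add_cancel_left, norm_neg, norm_smul,
      Real.norm_of_nonneg ht.1] at h2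
    rw [mem_ball, dist_eq_norm] at hy
    have h3 : t * ‖y - f x‖ ≤ 1 * ‖y - f x‖ := by
      gcongr; exact ht.2
    linarith
  · rintro _ ⟨a, ha, rfl⟩
    rw [mem_ball, dist_comm]
    calc dist (f x) (f a) ≤ η 1 * l := hle a (mem_ball.1 ha).le
      _ < (η 1 + 1) * l := by nlinarith

end H42DF
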