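import Pool.Agent.H42.DF.W5

/-!
# W6: quasiconformal homeomorphisms of Hilbert space mapping a dense chain of finite-dimensional
subspaces to finite-dimensional subspaces
-/

set_option autoImplicit false

open MeasureTheory Metric Set Filter Topology
open scoped ENNReal NNReal

namespace H42DF

/-- there is an increasing sequence of finite-dimensional subspaces `V k` with dense union, each of
which `f` maps onto a finite-dimensional subspace of the same dimension -/
def MapsChain {H : Type} [NormedAddCommGroup H] [InnerProductSpace ℝ H] (f : H → H) : Prop :=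
  ∃ V W : ℕ → Submodule ℝ H, (∀ k, FiniteDimensional ℝ (V k)) ∧ (∀ k, FiniteDimensional ℝ (W k)) ∧
    (∀ k, Module.finrank ℝ (V k) = Module.finrank ℝ (W k)) ∧ Monotone V ∧
    Dense (⋃ k, (V k : Set H)) ∧ ∀ k, f '' (V k : Set H) = W k

theorem finApprox_of_mapsChain {H : Type} [NormedAddCommGroup H] [InnerProductSpace ℝ H] {K : ℝ}
    (f : H ≃ₜ H) (hf : IsKQC K f) (h : MapsChain f) : FinApprox K f := by
  classical
  obtain ⟨V, W, hV, hW, hVW, hmono, hdense, himg⟩ := h
  refine ⟨⋃ k, (V k : Set H), hdense, ?_⟩
  intro S hS ε hε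
  -- a finite subset of the union lies in one of the subspaces
  have hk : ∃ k, ∀ x ∈ S, x ∈ V k := by
    choose! k hk using fun (x : H) (hx : x ∈ S) => mem_iUnion.1 (hS (Finset.mem_coe.2 hx))
    refine ⟨S.sup k, fun x hx => ?_⟩
    exact hmono (Finset.le_sup hx) (hk x hx)
  obtain ⟨k, hk⟩ := hk
  set F : V k ≃ₜ W k := (f.image (V k : Set H)).trans (Homeomorph.setCongr (himg k)) with hF
  have hFapp : ∀ x : V k, ((F x : W k) : H) = f x := fun x => rfl
  refine ⟨V k, W k, F, hV k, hW k, hVW k, ?_, ?_⟩
  · intro x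
    refine le_trans ?_ (hf (x : H))
    unfold dilat
    refine limsup_le_limsup (Eventually.of_forall fun r => ?_)
    refine ENNReal.div_le_div ?_ ?_
    · refine iSup₂_le fun y hy => ?_
      have hyd : dist (y : H) (x : H) ≤ r := hy
      exact le_iSup₂_of_le (y : H) hyd le_rfl
    · refine le_iInf₂ fun y hy => ?_
      have hyd : dist (y : H) (x : H) = r := hy
      exact iInf₂_le (y : H) hyd
  · intro x hx
    refine ⟨hk x hx, ?_⟩
    rw [hFapp]
    simpa using hε

theorem mapsChain_of_finiteDimensional {H : Type} [NormedAddCommGroup H] [InnerProductSpace ℝ H]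
    [FiniteDimensional ℝ H] (f : H ≃ₜ H) : MapsChain f := by
  refine ⟨fun _ => ⊤, fun _ => ⊤, fun _ => inferInstance, fun _ => inferInstance, fun _ => rfl,
    fun _ _ _ => le_rfl, ?_, fun _ => ?_⟩
  · have : (⋃ _ : ℕ, ((⊤ : Submodule ℝ H) : Set H)) = univ := by
      rw [iUnion_const, Submodule.top_coe]
    rw [this]
    exact dense_univ
  · rw [Submodule.top_coe, image_univ, f.surjective.range_eq]

end H42DF
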